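import Mathlib
import Pool.Agent.Y685.G4
import Pool.Agent.TH813.GRos

/-!
# Ax's theorem for several fixed curves and exponentials
-/

set_option autoImplicit false

open Filter Finset
open scoped Topology PeriodPair ComplexConjugate

noncomputable section

namespace Pool.Agent.Y776.Cv

open H667R3 Pool.Agent.W245.EB Pool.Agent.TH813.Ell MvPolynomial Pool.Agent.Y685
open Pool.Agent.TH813.G (NoHom rosM)
open Pool.Agent.TH813.Rel (DF MK)
open Pool.Agent.Y776 (Tf lg ET)

variable {n s q : ℕ} {Λ : Fin q → PeriodPair} {κ : Fin q → ℂ} {D : Derivation ℚ ℂ ℂ}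
  {ty : Fin n → Fin q}

/-- the numbers of the points -/
def EPM (Λ : Fin q → PeriodPair) (ty : Fin n → Fin q) (z : Fin n → ℂ) : Set ℂ :=
  Set.range z ∪ (Set.range (fun i => zt (Λ (ty i)) (z i)) ∪
    Set.range (fun i => ℘[Λ (ty i)] (z i)))

theorem EPM_finite (z : Fin n → ℂ) : (EPM Λ ty z).Finite :=
  (Set.finite_range _).union ((Set.finite_range _).union (Set.finite_range _))

/-- the differentials which vanish on the compatible derivations -/
def FvM (Λ : Fin q → PeriodPair) (ty : Fin n → Fin q) (z : Fin n → ℂ) (t : Fin s → ℂ) (δ : Derivation ℚ ℂ ℂ) :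
    Fin s ⊕ (Fin n ⊕ Fin n) → ℂ :=
  Sum.elim (fun l => Tf δ (t l)) (Sum.elim (fun i => om (Λ (ty i)) δ (z i) - δ (z i))
    (fun i => et (Λ (ty i)) δ (z i)))

theorem FvM_add (z : Fin n → ℂ) (t : Fin s → ℂ) (δ δ' : Derivation ℚ ℂ ℂ) :
    FvM Λ ty z t (δ + δ') = FvM Λ ty z t δ + FvM Λ ty z t δ' := by
  funext k
  rcases k with l | i | i
  · exact Pool.Agent.Y776.Tf_add_der _ _ _
  · change om (Λ (ty i)) (δ + δ') (z i) - (δ + δ') (z i) = (om (Λ (ty i)) δ (z i) - δ (z i)) + (om (Λ (ty i)) δ' (z i) - δ' (z i))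
    rw [om_add_der, Derivation.add_apply]
    ring
  · exact et_add_der _ _ _

theorem FvM_smul (z : Fin n → ℂ) (t : Fin s → ℂ) (c : ℂ) (δ : Derivation ℚ ℂ ℂ) :
    FvM Λ ty z t (c • δ) = c • FvM Λ ty z t δ := by
  funext k
  rcases k with l | i | i
  · exact Pool.Agent.Y776.Tf_smul_der _ _ _
  · change om (Λ (ty i)) (c • δ) (z i) - (c • δ) (z i) = c * (om (Λ (ty i)) δ (z i) - δ (z i))
    rw [om_smul_der, Derivation.smul_apply, smul_eq_mul]
    ring
  · exact et_smul_der _ _ _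

/-- **Ax's theorem** for a fixed curve and exponentials -/
theorem ax_multi (hE : ∀ c, Eig (Λ c) (κ c)) (hni : ∀ c c', c ≠ c' → NoHom (Λ c) (Λ c'))
    (h2 : ∀ c, D (Λ c).g₂ = 0) (h3 : ∀ c, D (Λ c).g₃ = 0) {z : Fin n → ℂ}
    {t : Fin s → ℂ} (hz : ∀ i, Cm1 (Λ (ty i)) D (z i)) (ht : ∀ l, Tf D (t l) = 0)
    (hzD : ∀ (c₀ : Fin q) (c : Fin n → ℂ), (∀ i, c i ∈ kL (Λ c₀)) → (∀ i, ty i ≠ c₀ → c i = 0) →
      D (∑ i, c i * z i) = 0 → c = 0)
    (htD : ∀ q : Fin s → ℚ, D (∑ l, q l • t l) = 0 → q = 0) (hns : 0 < s + n) :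
    ((s + 2 * n + 1 : ℕ) : ℕ∞) ≤ (MK (Cst D)).eRk (ET t ∪ EPM Λ ty z) := by
  classical
  by_contra hcon
  push Not at hcon
  -- a coordinate which is not constant
  obtain ⟨x₀, hx₀, hx₀D⟩ : ∃ x₀ ∈ ET t ∪ EPM Λ ty z, D x₀ ≠ 0 := by
    rcases Nat.eq_zero_or_pos s with hs | hs
    · have hn : 0 < n := by omega
      refine ⟨z ⟨0, hn⟩, Or.inr (Or.inl ⟨_, rfl⟩), fun h0 => ?_⟩
      have h4 := hzD (ty ⟨0, hn⟩) (Pi.single ⟨0, hn⟩ 1) (fun j => by
        by_cases hj : j = ⟨0, hn⟩
        · rw [hj, Pi.single_eq_same]; exact one_mem _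
        · rw [Pi.single_eq_of_ne hj]; exact zero_mem _) (fun j hj => by
        rw [Pi.single_eq_of_ne]
        rintro rfl
        exact hj rfl) (by
        rw [sum_eq_single (⟨0, hn⟩ : Fin n)]
        · rw [Pi.single_eq_same, one_mul]; exact h0
        · intro j _ hj
          rw [Pi.single_eq_of_ne hj, zero_mul]
        · intro h; exact absurd (mem_univ _) h)
      have h5 := congrFun h4 ⟨0, hn⟩
      rw [Pi.single_eq_same] at h5
      exact one_ne_zero h5
    · refine ⟨t ⟨0, hs⟩, Or.inl (Or.inl ⟨_, rfl⟩), fun h0 => ?_⟩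
      have h4 := htD (Pi.single ⟨0, hs⟩ 1) (by
        rw [sum_eq_single (⟨0, hs⟩ : Fin s)]
        · rw [Pi.single_eq_same, one_smul]; exact h0
        · intro j _ hj
          rw [Pi.single_eq_of_ne hj, zero_smul]
        · intro h; exact absurd (mem_univ _) h)
      have h5 := congrFun h4 ⟨0, hs⟩
      rw [Pi.single_eq_same] at h5
      exact one_ne_zero h5
  have hFD : FvM Λ ty z t D = 0 := by
    funext k
    rcases k with l | i | i
    · exact ht l
    · change om (Λ (ty i)) D (z i) - D (z i) = 0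
      rw [(hz i).1, sub_self]
    · exact (hz i).2
  let f : DF (Cst D) →ₗ[ℂ] (Option (Fin s ⊕ (Fin n ⊕ Fin n)) → ℂ) :=
    { toFun := fun δ o => o.elim ((δ : Derivation ℚ ℂ ℂ) x₀) (FvM Λ ty z t (δ : Derivation ℚ ℂ ℂ))
      map_add' := fun δ δ' => by
        funext o
        rcases o with _ | k
        · rfl
        · exact congrFun (FvM_add z t (δ : Derivation ℚ ℂ ℂ) (δ' : Derivation ℚ ℂ ℂ)) k
      map_smul' := fun c δ => by
        funext o
        rcases o with _ | k
        · rfl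
        · exact congrFun (FvM_smul z t c (δ : Derivation ℚ ℂ ℂ)) k }
  obtain ⟨a, ha0, ha⟩ := exists_rel ((Pool.Agent.Y776.ET_finite t).union (EPM_finite z)) f
    (fun δ hδ => by
    funext o
    rcases o with _ | l | i | i
    · exact hδ _ hx₀
    · exact Pool.Agent.Y776.Tf_of_kill (hδ _ (Or.inl (Or.inl ⟨l, rfl⟩)))
        (hδ _ (Or.inl (Or.inr ⟨l, rfl⟩)))
    · change om (Λ (ty i)) (δ : Derivation ℚ ℂ ℂ) (z i) - (δ : Derivation ℚ ℂ ℂ) (z i) = 0
      rw [om_of_kill (hδ _ (Or.inr (Or.inr (Or.inr ⟨i, rfl⟩)))),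
        hδ _ (Or.inr (Or.inl ⟨i, rfl⟩)), sub_zero]
    · change et (Λ (ty i)) (δ : Derivation ℚ ℂ ℂ) (z i) = 0
      unfold et
      rw [om_of_kill (hδ _ (Or.inr (Or.inr (Or.inr ⟨i, rfl⟩)))), mul_zero, add_zero]
      exact hδ _ (Or.inr (Or.inr (Or.inl ⟨i, rfl⟩)))) (by
    rw [Fintype.card_option, Fintype.card_sum, Fintype.card_sum, Fintype.card_fin,
      Fintype.card_fin, ← two_mul]
    exact hcon)
  have haN : a none = 0 := by
    have h1 := ha ⟨D, D_DF⟩
    rw [Fintype.sum_option] at h1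
    have h4 : ∀ k, f ⟨D, D_DF⟩ (some k) = 0 := fun k => congrFun hFD k
    simp only [h4, mul_zero, sum_const_zero, add_zero] at h1
    exact (mul_eq_zero.1 h1).resolve_right hx₀D
  let W : Set (Fin s ⊕ (Fin n ⊕ Fin n) → ℂ) :=
    {a | ∀ δ : DF (Cst D), ∑ k, a k * FvM Λ ty z t (δ : Derivation ℚ ℂ ℂ) k = 0}
  have haW : (fun k => a (some k)) ∈ W := by
    intro δ
    have h1 := ha δ
    rw [Fintype.sum_option, haN, zero_mul, zero_add] at h1
    exact h1
  have ha' : (fun k => a (some k)) ≠ 0 := by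
    intro h0
    apply ha0
    funext o
    rcases o with _ | k
    · exact haN
    · exact congrFun h0 k
  obtain ⟨c, hcW, hc0, hcD⟩ := exists_const_vec D W (fun a ha i _ δ => by
      have := ha δ
      have e : ∑ j, a j / a i * FvM Λ ty z t (δ : Derivation ℚ ℂ ℂ) j =
          (∑ j, a j * FvM Λ ty z t (δ : Derivation ℚ ℂ ℂ) j) / a i := by
        rw [sum_div]
        exact sum_congr rfl (fun j _ => by ring)
      rw [e, this, zero_div]) (fun a ha δ => by
      have h1 := congrArg D (ha δ)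
      rw [map_zero, map_sum] at h1
      have k2 : ∀ c, (δ : Derivation ℚ ℂ ℂ) (Λ c).g₂ = 0 := fun c => δ.2 _ (h2 c)
      have k3 : ∀ c, (δ : Derivation ℚ ℂ ℂ) (Λ c).g₃ = 0 := fun c => δ.2 _ (h3 c)
      let δ' : DF (Cst D) := ⟨⁅D, (δ : Derivation ℚ ℂ ℂ)⁆,
        Pool.Agent.TH813.Rel.bracket_mem _ D_DF δ.2⟩
      have h4 : ∀ k, D (FvM Λ ty z t (δ : Derivation ℚ ℂ ℂ) k) =
          FvM Λ ty z t (δ' : Derivation ℚ ℂ ℂ) k := by
        intro k
        rcases k with l | i | i
        · exact Pool.Agent.Y776.D_Tf (ht l) _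
        · exact fl1 (h2 _) (h3 _) (k2 _) (k3 _) (hz i)
        · exact fl2 (h2 _) (h3 _) (k2 _) (k3 _) (hz i)
      have h5 : ∀ k, D (a k * FvM Λ ty z t (δ : Derivation ℚ ℂ ℂ) k) =
          a k * FvM Λ ty z t (δ' : Derivation ℚ ℂ ℂ) k + D (a k) * FvM Λ ty z t (δ : Derivation ℚ ℂ ℂ) k := by
        intro k
        rw [D_mul, h4]
        ring
      rw [sum_congr rfl (fun k _ => h5 k), sum_add_distrib, ha δ', zero_add] at h1
      exact h1) haW ha'
  -- the relation
  have hrel : ∀ δ ∈ DF (Cst D), ∑ l, c (.inl l) * Tf δ (t l) +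
      (∑ i, c (.inr (.inl i)) * (om (Λ (ty i)) δ (z i) - δ (z i)) +
        ∑ i, c (.inr (.inr i)) * et (Λ (ty i)) δ (z i)) = 0 := by
    intro δ hδ
    have h1 := hcW ⟨δ, hδ⟩
    rw [Fintype.sum_sum_type, Fintype.sum_sum_type] at h1
    exact h1
  have hκ : ∀ c, D (κ c) = 0 := fun c => (hE c).kill D (h2 c) (h3 c)
  have hkL : ∀ c, ∀ x ∈ kL (Λ c), x ∈ Cst D := fun _ x hx => der_kL D hx
  obtain ⟨r1, r2⟩ := rosM hE hni (Cst D) h2 h3 hkL hκ (fun l => c (.inl l))
    (fun l => Complex.exp (t l)) (fun l => hcD _) (fun l => Complex.exp_ne_zero _) ty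
    (fun i => -c (.inr (.inl i)) + κ (ty i) * c (.inr (.inr i))) (fun i => -c (.inr (.inr i))) z
    (fun i => add_mem (neg_mem (hcD _)) (mul_mem (hκ _) (hcD _))) (fun i => neg_mem (hcD _))
    (∑ l, c (.inl l) * t l - ∑ i, c (.inr (.inl i)) * z i +
      ∑ i, c (.inr (.inr i)) * zt (Λ (ty i)) (z i))
    (by
      intro δ hδ
      have h1 := hrel δ hδ
      have e : ∀ k x, δ (c k * x) = c k * δ x := fun k x => by
        rw [D_mul, hδ _ (hcD k)]
        ring
      rw [map_add, map_sub, map_sum, map_sum, map_sum]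
      simp only [e]
      have h4 : ∑ l, c (.inl l) * Tf δ (t l) = ∑ l, c (.inl l) * δ (t l) -
          ∑ l, c (.inl l) * (δ (Complex.exp (t l)) / Complex.exp (t l)) := by
        rw [← sum_sub_distrib]
        exact sum_congr rfl (fun l _ => by unfold Tf lg; ring)
      have h5 : ∑ i, c (.inr (.inl i)) * (om (Λ (ty i)) δ (z i) - δ (z i)) =
          ∑ i, c (.inr (.inl i)) * om (Λ (ty i)) δ (z i) - ∑ i, c (.inr (.inl i)) * δ (z i) := by
        rw [← sum_sub_distrib]
        exact sum_congr rfl (fun i _ => by ring)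
      have h6 : ∑ i, c (.inr (.inr i)) * et (Λ (ty i)) δ (z i) =
          ∑ i, c (.inr (.inr i)) * δ (zt (Λ (ty i)) (z i)) +
            ∑ i, c (.inr (.inr i)) * (℘[Λ (ty i)] (z i) * om (Λ (ty i)) δ (z i)) := by
        rw [← sum_add_distrib]
        exact sum_congr rfl (fun i _ => by unfold et; ring)
      have h7 : ∑ i, ((-c (.inr (.inl i)) + κ (ty i) * c (.inr (.inr i))) * om (Λ (ty i)) δ (z i) +
          -c (.inr (.inr i)) * ((℘[Λ (ty i)] (z i) + κ (ty i)) * om (Λ (ty i)) δ (z i))) =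
          -∑ i, c (.inr (.inl i)) * om (Λ (ty i)) δ (z i) -
            ∑ i, c (.inr (.inr i)) * (℘[Λ (ty i)] (z i) * om (Λ (ty i)) δ (z i)) := by
        rw [← sum_neg_distrib, ← sum_sub_distrib]
        exact sum_congr rfl (fun i _ => by ring)
      rw [h7]
      rw [h4, h5, h6] at h1
      linear_combination h1)
  -- the coefficients vanish
  have hD' : ∀ w ∈ Cst D, D w = 0 := fun w hw => hw
  have v1 : ∀ l, c (.inl l) = 0 := by
    intro l
    by_contra hne
    obtain ⟨ψ, hψ⟩ := exists_psi hne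
    have h1 := r1 ψ D hD'
    have h4 : D (∑ l, ψ (c (.inl l)) • t l) = 0 := by
      rw [map_sum, ← h1]
      refine sum_congr rfl (fun l _ => ?_)
      have h5 := ht l
      unfold Tf lg at h5
      rw [Derivation.map_smul, Rat.smul_def]
      rw [sub_eq_zero] at h5
      rw [← h5]
    exact hψ (congrFun (htD _ h4) l)
  have v2 : ∀ i, -c (.inr (.inl i)) + κ (ty i) * c (.inr (.inr i)) = 0 := by
    intro i
    rw [← Module.forall_dual_apply_eq_zero_iff (kL (Λ (ty i)))]
    intro ψ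
    have h1 := (r2 (ty i) ψ D hD').1
    set a : Fin n → ℂ := fun j => if ty j = ty i then
      (ψ (-c (.inr (.inl j)) + κ (ty j) * c (.inr (.inr j))) : ℂ) else 0 with ha
    have h4 : D (∑ j, a j * z j) = 0 := by
      rw [map_sum, ← h1]
      refine sum_congr rfl (fun j _ => ?_)
      rw [ha]
      simp only
      split_ifs with hj
      · rw [D_mul, der_kL D (ψ _).2, (hz j).1]
        ring
      · rw [zero_mul, map_zero]
    have h5 := congrFun (hzD (ty i) a (fun j => by
      rw [ha]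
      simp only
      split_ifs
      · exact (ψ _).2
      · exact zero_mem _) (fun j hj => if_neg hj) h4) i
    rw [ha] at h5
    simp only [if_true] at h5
    exact Subtype.ext h5
  have v3 : ∀ i, -c (.inr (.inr i)) = 0 := by
    intro i
    rw [← Module.forall_dual_apply_eq_zero_iff (kL (Λ (ty i)))]
    intro ψ
    have h1 := (r2 (ty i) ψ D hD').2
    set a : Fin n → ℂ := fun j => if ty j = ty i then
      conj (ψ (-c (.inr (.inr j))) : ℂ) else 0 with ha
    have h4 : D (∑ j, a j * z j) = 0 := by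
      rw [map_sum, ← h1]
      refine sum_congr rfl (fun j _ => ?_)
      rw [ha]
      simp only
      split_ifs with hj
      · rw [D_mul, der_kL D (conj_mem_kL (ψ _).2), (hz j).1]
        ring
      · rw [zero_mul, map_zero]
    have h5 := congrFun (hzD (ty i) a (fun j => by
      rw [ha]
      simp only
      split_ifs
      · exact conj_mem_kL (ψ _).2
      · exact zero_mem _) (fun j hj => if_neg hj) h4) i
    rw [ha] at h5
    simp only [if_true] at h5
    have h6 : (ψ (-c (.inr (.inr i))) : ℂ) = 0 := by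
      have := congrArg conj h5
      simpa using this
    exact Subtype.ext h6
  apply hc0
  funext k
  rcases k with l | i | i
  · exact v1 l
  · have h4 := v2 i
    rw [neg_eq_zero.1 (v3 i), mul_zero, add_zero, neg_eq_zero] at h4
    exact h4
  · exact neg_eq_zero.1 (v3 i)

end Pool.Agent.Y776.Cv
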