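import Mathlib
import Pool.Agent.Y776.Fam.Third
import Pool.Agent.Y776.Fam.Fn
import Pool.Agent.Y124.NFW

/-!
# Independent subfamilies, and the values at points of number fields
-/

set_option autoImplicit false

open Filter Topology Set MvPolynomial NumberField

noncomputable section

namespace Pool.Agent.Y776.Cv

open Pool.Agent.Y776.Fam (TS locInd_of indep_of_rank)
open Pool.Agent.Y124 (tc LocInd nfW relK_of_poly' oneV_of)
open Pool.Agent.TH813.Rel (DF MK)

variable {U : Set ℂ}

theorem TS_sub {ι κ : Type} [Fintype ι] [Fintype κ] (y : ι → ℂ → ℂ) {e : κ → ι}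
    (he : Function.Injective e) (zs : ℂ) : TS (fun k => y (e k)) zs ⊆ TS y zs := by
  classical
  rintro _ ⟨p, rfl⟩
  have hinj : Function.Injective (Option.map e) := Option.map_injective he
  refine ⟨(p.1.mapDomain (Option.map e), p.2), ?_⟩
  have key : (fun z => ∏ o : Option ι, (o.elim z (fun i => y i z)) ^
      (p.1.mapDomain (Option.map e)) o) =
      fun z => ∏ o : Option κ, (o.elim z (fun k => y (e k) z)) ^ p.1 o := by
    funext z
    have h1 : ∏ o : Option ι, (o.elim z (fun i => y i z)) ^ (p.1.mapDomain (Option.map e)) o =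
        ∏ o ∈ Finset.univ.image (Option.map e), (o.elim z (fun i => y i z)) ^
          (p.1.mapDomain (Option.map e)) o := by
      symm
      apply Finset.prod_subset (Finset.subset_univ _)
      intro o _ ho
      rw [Finsupp.mapDomain_notin_range _ _ (by
        rintro ⟨x, hx⟩
        exact ho (Finset.mem_image.2 ⟨x, Finset.mem_univ _, hx⟩)), pow_zero]
    rw [h1, Finset.prod_image (fun a _ b _ h => hinj h)]
    refine Finset.prod_congr rfl fun o _ => ?_
    rw [Finsupp.mapDomain_apply hinj]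
    cases o <;> rfl
  simp only [key]

/-- **independent subfamilies** -/
theorem exists_sub {ι : Type} [Fintype ι] (hc : IsPreconnected U) (hU : IsOpen U) {y : ι → ℂ → ℂ}
    (hy : ∀ i, AnalyticOnNhd ℂ (y i) U) {F : IntermediateField ℚ ℂ} {zs z₀ : ℂ} (hzs : zs ∈ U)
    (hT : TS y zs ⊆ F) (hz₀ : z₀ ∈ U) (htr : ¬ IsAlgebraic F z₀) {N : ℕ}
    (hr : ((N + 1 : ℕ) : ℕ∞) ≤ (MK F).eRk (insert z₀ (Set.range fun i => y i z₀))) :
    ∃ e : Fin N → ι, Function.Injective e ∧ ∀ t ∈ U, LocInd (fun k => y (e k)) t := by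
  classical
  have h0 : (MK F).Indep {z₀} := by
    rw [AlgebraicIndependent.matroid_indep_iff]
    have h1 : AlgebraicIndependent F (fun _ : Unit => z₀) := by
      rw [algebraicIndependent_unique_type_iff]
      exact htr
    have h2 := AlgebraicIndependent.coe_range h1
    have h3 : Set.range (fun _ : Unit => z₀) = {z₀} := by
      ext x
      simp [eq_comm]
    rw [h3] at h2
    exact h2
  obtain ⟨J, hJ, hJ0⟩ := h0.subset_isBasis_of_subset (X := insert z₀ (Set.range fun i => y i z₀))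
    (by simp) (Set.subset_univ _)
  rw [← hJ.encard_eq_eRk] at hr
  have hz₀J : z₀ ∈ J := hJ0 rfl
  have h1 : (N : ℕ∞) ≤ (J \ {z₀}).encard := by
    have h2 := Set.encard_diff_singleton_add_one hz₀J
    rw [← h2] at hr
    push_cast at hr
    exact (ENat.add_le_add_iff_right ENat.one_ne_top).1 hr
  obtain ⟨S, hSJ, hSc⟩ := Set.exists_subset_encard_eq h1
  have hSfin : S.Finite := Set.finite_of_encard_eq_coe hSc
  have : Finite S := hSfin
  have hcard : Nat.card S = N := by
    have h3 := hSfin.cast_ncard_eq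
    rw [hSc] at h3
    rw [Nat.card_coe_set_eq]
    exact_mod_cast h3
  let ψ : Fin N ≃ S := (Finite.equivFinOfCardEq hcard).symm
  have hex : ∀ k : Fin N, ∃ i, y i z₀ = ψ k := by
    intro k
    have h3 := hSJ (ψ k).2
    rcases hJ.subset h3.1 with h4 | ⟨i, hi⟩
    · exact absurd h4 h3.2
    · exact ⟨i, hi⟩
  choose e he using hex
  have hinj : Function.Injective e := by
    intro a b hab
    apply ψ.injective
    apply Subtype.ext
    rw [← he a, ← he b, hab]
  refine ⟨e, hinj, fun t ht => ?_⟩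
  refine locInd_of hc hU (fun k => hy (e k)) hzs ((TS_sub y hinj zs).trans hT) hz₀ ?_ ht
  -- independence
  have hfun : (fun o : Option (Fin N) => o.elim z₀ (fun k => y (e k) z₀)) =
      fun o : Option (Fin N) => o.elim z₀ (fun k => (ψ k : ℂ)) := by
    funext o
    cases o with
    | none => rfl
    | some k => exact he k
  change AlgebraicIndependent F (fun o : Option (Fin N) => o.elim z₀ (fun k => y (e k) z₀))
  rw [hfun]
  have hinj2 : Function.Injective (fun o : Option (Fin N) => o.elim z₀ (fun k => (ψ k : ℂ))) := by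
    intro a b hab
    cases a with
    | none =>
      cases b with
      | none => rfl
      | some k =>
        exfalso
        exact (hSJ (ψ k).2).2 hab.symm
    | some j =>
      cases b with
      | none =>
        exfalso
        exact (hSJ (ψ j).2).2 hab
      | some k =>
        have h3 : (ψ j : ℂ) = ψ k := hab
        rw [ψ.injective (Subtype.ext h3)]
  have h5 : (MK F).Indep (Set.range (fun o : Option (Fin N) => o.elim z₀ (fun k => (ψ k : ℂ)))) := by
    refine hJ.indep.subset ?_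
    rintro _ ⟨o, rfl⟩
    cases o with
    | none => exact hz₀J
    | some k => exact (hSJ (ψ k).2).1
  rw [AlgebraicIndependent.matroid_indep_iff] at h5
  exact (algebraicIndependent_subtype_range hinj2).1 h5

/-- **the values at points of number fields** -/
theorem nf_gen {κ η : Type} [Fintype κ] [DecidableEq κ] [Fintype η] [DecidableEq η] (m n d : ℕ)
    {U : Fin n → Set ℂ} {y : Fin n → κ → ℂ → ℂ} (hy : ∀ j i, AnalyticOnNhd ℂ (y j i) (U j))
    (hl : ∀ j, ∀ t ∈ U j, LocInd (y j) t) {K : Set ℂ} (hK : IsCompact K) (hKU : ∀ j, K ⊆ U j)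
    (A ε : ℝ) (hε : 0 < ε) :
    ∃ B C T₀ : ℝ, 0 ≤ C ∧ 2 ≤ T₀ ∧ ∀ (F : Type) [Field F] [NumberField F],
      Module.finrank ℚ F ≤ m → ∀ (io : F →+* ℂ) (ξ : η → ℂ) (T : ℝ), T₀ ≤ T →
      ∀ E : Set (Fin n → F), (∀ t ∈ E, (∀ j, Y120.HtLe F T (t j) ∧ io (t j) ∈ K) ∧
        ∃ P : MvPolynomial (Fin n × κ) ℂ, (∀ x, P.degreeOf x ≤ d) ∧
        (∀ s, ∃ c : η → 𝓞 F, (∀ i (φ : F →+* ℂ), ‖φ (c i : F)‖ ≤ T ^ A) ∧
          P.coeff s = ∑ i, ξ i * io (c i : F)) ∧
        ∃ s₀, P.coeff s₀ ≠ 0 ∧ ‖MvPolynomial.aeval (fun x : Fin n × κ =>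
          y x.1 x.2 (io (t x.1))) P‖ ≤ T ^ (-B) * ‖P.coeff s₀‖) →
      E.Finite ∧ (E.ncard : ℝ) ≤
        C * T ^ ε * (({x : F | Y120.HtLe F T x ∧ io x ∈ K}.ncard : ℝ)) ^ (n - 1) := by
  classical
  obtain ⟨B, C, T₀, hC, hT₀, H⟩ := nfW m n (α := ℂ) (κ := κ) (fun x => x) (fun _ => K) K
    (fun j x hx => hx) 1 (fun j x => by
      have h1 : {y | y ∈ K ∧ y = x} ⊆ {x} := fun y hy => hy.2
      exact ⟨(Set.finite_singleton x).subset h1, by
        simpa using Set.ncard_le_ncard h1 (Set.finite_singleton x)⟩)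
    (fun j z i => y j i z) (fun g j =>
      oneV_of g (y j) K hK (fun i t ht => hy j i t (hKU j ht)) fun t ht => hl j t (hKU j ht))
    η d A ε hε
  refine ⟨B, C, T₀, hC, hT₀, fun F _ _ hm io ξ T hT E hE => H F hm io ξ T hT E fun t ht => ?_⟩
  obtain ⟨h1, P, hPd, hPc, s₀, hs₀, hs⟩ := hE t ht
  refine ⟨fun j => io (t j), fun j => ⟨(h1 j).2, rfl, (h1 j).1⟩, ?_⟩
  exact relK_of_poly' F io ξ _ _ _ _ P hPd hPc s₀ hs₀ hs

end Pool.Agent.Y776.Cv
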