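import Mathlib
import Pool.Agent.Y776.Cv.Sub
import Pool.Agent.Y776.Cv.AxM
import Pool.Agent.Y776.Fam.Main

/-!
# Analytic curves in the Lie algebra of a product of elliptic curves and a torus
-/

set_option autoImplicit false

open Filter Topology Set
open scoped PeriodPair

noncomputable section

namespace Pool.Agent.Y776.Cv

open H667R3 Pool.Agent.W245.EB Pool.Agent.TH813.Ell Pool.Agent.Y685 Pool.Agent.Y685.H2
open Pool.Agent.Y776.Fam (TS TS_countable Gn countable_Gn exists_D LF countable_zeros IndC exists_cf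
  exists_notMem exists_den)
open Pool.Agent.TH813.G (NoHom)
open Pool.Agent.TH813.Rel (DF MK rk_le_of_subset_cl subset_cl)
open Pool.Agent.Y776 (Tf lg ET)
open Pool.Agent.Y124 (LocInd)

variable {U : Set ℂ} {n s q : ℕ} {Λ : Fin q → PeriodPair} {ty : Fin n → Fin q}
  {u : Fin n → ℂ → ℂ} {l : Fin s → ℂ → ℂ}

/-- a curve -/
structure FxM (U : Set ℂ) (Λ : Fin q → PeriodPair) (ty : Fin n → Fin q) (u : Fin n → ℂ → ℂ)
    (l : Fin s → ℂ → ℂ) : Prop where
  isOpen : IsOpen U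
  conn : IsPreconnected U
  ni : ∀ c c', c ≠ c' → NoHom (Λ c) (Λ c')
  ua : ∀ i, AnalyticOnNhd ℂ (u i) U
  un : ∀ i, ∀ z ∈ U, u i z ∉ (Λ (ty i)).lattice
  ui : ∀ (c : Fin q) (a : Fin n → ℂ) (b : ℂ), (∀ i, ∀ w ∈ (Λ c).lattice, a i * w ∈ (Λ c).lattice) →
    (∀ i, ty i ≠ c → a i = 0) → (∀ z ∈ U, ∑ i, a i * u i z = b) → a = 0
  la : ∀ k, AnalyticOnNhd ℂ (l k) U
  li : IndC U l

/-- the names of the functions -/
abbrev Nf (n s : ℕ) : Type := Fin s ⊕ (Fin s ⊕ (Fin n ⊕ (Fin n ⊕ Fin n)))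

/-- the functions -/
def yf (Λ : Fin q → PeriodPair) (ty : Fin n → Fin q) (u : Fin n → ℂ → ℂ) (l : Fin s → ℂ → ℂ) :
    Nf n s → ℂ → ℂ :=
  Sum.elim l (Sum.elim (fun k z => Complex.exp (l k z)) (Sum.elim u
    (Sum.elim (fun i z => zeta (Λ (ty i)) (u i z)) (fun i z => ℘[Λ (ty i)] (u i z)))))

theorem FxM.LF (h : FxM U Λ ty u l) (c : Fin q) : LF U (fun _ => Λ c) :=
  ⟨h.isOpen, h.conn, analyticOnNhd_const, analyticOnNhd_const⟩

theorem yf_an (h : FxM U Λ ty u l) (i : Nf n s) : AnalyticOnNhd ℂ (yf Λ ty u l i) U := by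
  rcases i with k | k | i | i | i
  · exact h.la k
  · exact fun z hz => (h.la k z hz).cexp
  · exact h.ua i
  · exact (h.LF (ty i)).an_zeta (h.ua i) (h.un i)
  · exact (h.LF (ty i)).an_wp (h.ua i) (h.un i)

theorem kL_countable (L : PeriodPair) : (kL L : Set ℂ).Countable := by
  have h1 : FiniteDimensional ℚ (kL L) := (finrank_kL L).1
  refine (Algebraic.countable ℚ ℂ).mono fun x hx => ?_
  have h2 : IsAlgebraic ℚ (⟨x, hx⟩ : kL L) := Algebra.IsAlgebraic.isAlgebraic _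
  exact h2.algebraMap (A := ℂ)

theorem FxM.ui' (h : FxM U Λ ty u l) (c : Fin q) (a : Fin n → ℂ) (b : ℂ)
    (ha : ∀ i, a i ∈ kL (Λ c)) (ht : ∀ i, ty i ≠ c → a i = 0)
    (hb : ∀ z ∈ U, ∑ i, a i * u i z = b) : a = 0 := by
  classical
  choose m hm0 hm using fun i => (show ∃ n : ℕ, 0 < n ∧ ∀ w ∈ (Λ c).lattice,
    (n * a i) * w ∈ (Λ c).lattice from ha i)
  set M : ℕ := ∏ i, m i with hM
  have hM0 : (M : ℂ) ≠ 0 := by
    rw [hM]
    exact_mod_cast (Finset.prod_pos fun i _ => hm0 i).ne'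
  have h1 := h.ui c (fun i => M * a i) (M * b) (fun i w hw => by
    obtain ⟨k, hk⟩ : m i ∣ M := Finset.dvd_prod_of_mem _ (Finset.mem_univ i)
    have h2 : k • ((m i : ℂ) * a i * w) ∈ (Λ c).lattice := nsmul_mem (hm i w hw) k
    have h3 : (M : ℂ) * a i * w = k • ((m i : ℂ) * a i * w) := by
      rw [nsmul_eq_mul, hk]
      push_cast
      ring
    rw [h3]
    exact h2) (fun i hi => by rw [ht i hi, mul_zero]) (fun z hz => by
    rw [← hb z hz, Finset.mul_sum]
    exact Finset.sum_congr rfl fun i _ => by ring)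
  funext i
  have h2 := congrFun h1 i
  exact (mul_eq_zero.1 h2).resolve_left hM0

/-- the conditions on a generic point -/
structure Gp (U : Set ℂ) (Λ : Fin q → PeriodPair) (ty : Fin n → Fin q) (u : Fin n → ℂ → ℂ)
    (l : Fin s → ℂ → ℂ) (F : IntermediateField ℚ ℂ) (z₀ : ℂ) : Prop where
  mem : z₀ ∈ U
  tr : ¬ IsAlgebraic F z₀
  gn : Gn U F (fun o : Option (Nf n s) => o.elim (fun z => z) (yf Λ ty u l)) z₀
  two : ∀ i, 2 * u i z₀ ∉ (Λ (ty i)).lattice
  ui : ∀ (c : Fin q) (a : Fin n → ℂ), (∀ i, a i ∈ kL (Λ c)) → (∀ i, ty i ≠ c → a i = 0) →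
    deriv (fun z => ∑ i, a i * u i z) z₀ = 0 → a = 0
  li : ∀ m : Fin s → ℤ, m ≠ 0 → deriv (fun z => ∑ k, (m k : ℂ) * l k z) z₀ ≠ 0

theorem countable_Gp (h : FxM U Λ ty u l) {F : IntermediateField ℚ ℂ}
    (hF : (F : Set ℂ).Countable) (hne : U.Nonempty) :
    {z | z ∈ U ∧ ¬ Gp U Λ ty u l F z}.Countable := by
  classical
  have hFc : Countable F := hF.to_subtype
  have c1 : {z : ℂ | IsAlgebraic F z}.Countable := Algebraic.countable F ℂ
  have c2 := countable_Gn (κ := Option (Nf n s))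
    (f := fun o : Option (Nf n s) => o.elim (fun z => z) (yf Λ ty u l)) h.conn hF (by
      intro o
      cases o with
      | none => exact fun z _ => analyticAt_id
      | some i => exact yf_an h i)
  have hconst : ∀ f : ℂ → ℂ, AnalyticOnNhd ℂ f U → (∀ z ∈ U, deriv f z = 0) →
      ∀ w ∈ U, ∀ z ∈ U, f z = f w := fun f hf h0 w hw z hz =>
    h.isOpen.is_const_of_deriv_eq_zero h.conn
      (fun x hx => (hf x hx).differentiableAt.differentiableWithinAt) (fun x hx => h0 x hx) hz hw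
  obtain ⟨w₀, hw₀⟩ := hne
  have c3 : {z | z ∈ U ∧ ∃ i, 2 * u i z ∈ (Λ (ty i)).lattice}.Countable := by
    have key : ∀ i, ∀ w ∈ (Λ (ty i)).lattice, {z | z ∈ U ∧ 2 * u i z - w = 0}.Countable := by
      intro i w hw
      refine countable_zeros h.conn (f := fun z => 2 * u i z - w)
        ((analyticOnNhd_const.mul (h.ua i)).sub analyticOnNhd_const) ?_
      by_contra hcon
      push Not at hcon
      have h1 := h.ui (ty i) (Pi.single i 1) (w / 2) (fun j v hv => by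
        by_cases hj : j = i
        · rw [hj, Pi.single_eq_same, one_mul]; exact hv
        · rw [Pi.single_eq_of_ne hj, zero_mul]; exact zero_mem _) (fun j hj => by
        rw [Pi.single_eq_of_ne]
        rintro rfl
        exact hj rfl) (fun z hz => by
        rw [Finset.sum_eq_single i]
        · rw [Pi.single_eq_same, one_mul]
          linear_combination (hcon z hz) / 2
        · intro j _ hj
          rw [Pi.single_eq_of_ne hj, zero_mul]
        · intro hj; exact absurd (Finset.mem_univ i) hj)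
      have h2 := congrFun h1 i
      rw [Pi.single_eq_same] at h2
      exact one_ne_zero h2
    refine (Set.countable_iUnion fun i => (Set.Countable.biUnion
      (s := ((Λ (ty i)).lattice : Set ℂ)) ?_ (key i))).mono ?_
    · exact (Set.countable_coe_iff.1 (inferInstance : Countable (Λ (ty i)).lattice))
    · rintro z ⟨hz, i, hi⟩
      exact mem_iUnion.2 ⟨i, mem_biUnion hi ⟨hz, sub_self _⟩⟩
  have hua : ∀ a : Fin n → ℂ, AnalyticOnNhd ℂ (fun z => ∑ i, a i * u i z) U := fun a z hz =>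
    Finset.analyticAt_fun_sum _ fun i _ => analyticAt_const.mul (h.ua i z hz)
  have c4 : {z | z ∈ U ∧ ∃ (c : Fin q) (a : Fin n → kL (Λ c)), (∀ i, ty i ≠ c → a i = 0) ∧ a ≠ 0 ∧
      deriv (fun z => ∑ i, (a i : ℂ) * u i z) z = 0}.Countable := by
    have hk : ∀ c, Countable (kL (Λ c)) := fun c => (kL_countable (Λ c)).to_subtype
    refine (Set.countable_iUnion fun c => Set.countable_iUnion
      (fun a : {a : Fin n → kL (Λ c) // (∀ i, ty i ≠ c → a i = 0) ∧ a ≠ 0} =>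
        countable_zeros h.conn (hua (fun i => (a.1 i : ℂ))).deriv (by
          by_contra hcon
          push Not at hcon
          apply a.2.2
          have h1 := h.ui' c (fun i => (a.1 i : ℂ)) (∑ i, (a.1 i : ℂ) * u i w₀) (fun i => (a.1 i).2)
            (fun i hi => by rw [a.2.1 i hi]; rfl) (fun z hz => hconst _ (hua _) hcon w₀ hw₀ z hz)
          funext i
          exact Subtype.ext (congrFun h1 i)))).mono ?_
    rintro z ⟨hz, c, a, h1, h2, h3⟩
    exact mem_iUnion.2 ⟨c, mem_iUnion.2 ⟨⟨a, h1, h2⟩, hz, h3⟩⟩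
  have hla : ∀ m : Fin s → ℤ, AnalyticOnNhd ℂ (fun z => ∑ k, (m k : ℂ) * l k z) U := fun m z hz =>
    Finset.analyticAt_fun_sum _ fun k _ => analyticAt_const.mul (h.la k z hz)
  have c5 : {z | z ∈ U ∧ ∃ m : {m : Fin s → ℤ // m ≠ 0},
      deriv (fun z => ∑ k, (m.1 k : ℂ) * l k z) z = 0}.Countable := by
    refine (Set.countable_iUnion fun m : {m : Fin s → ℤ // m ≠ 0} =>
      countable_zeros h.conn (hla m.1).deriv (by
        by_contra hcon
        push Not at hcon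
        exact m.2 (h.li m.1 (∑ k, (m.1 k : ℂ) * l k w₀) (fun z hz =>
          hconst _ (hla _) hcon w₀ hw₀ z hz)))).mono ?_
    rintro z ⟨hz, m, hm⟩
    exact mem_iUnion.2 ⟨m, hz, hm⟩
  refine ((((c1.union c2).union c3).union c4).union c5).mono ?_
  rintro z ⟨hz, hg⟩
  by_contra hcon
  simp only [mem_union, not_or] at hcon
  obtain ⟨⟨⟨⟨d1, d2⟩, d3⟩, d4⟩, d5⟩ := hcon
  apply hg
  refine ⟨hz, d1, ?_, fun i hi => d3 ⟨hz, i, hi⟩, fun c a ha ht h0 => ?_, fun m hm h0 =>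
    d5 ⟨hz, ⟨m, hm⟩, h0⟩⟩
  · by_contra hG
    exact d2 ⟨hz, hG⟩
  · by_contra hne
    refine d4 ⟨hz, c, fun i => ⟨a i, ha i⟩, fun i hi => Subtype.ext (ht i hi), fun h1 => hne ?_, h0⟩
    funext i
    exact congrArg Subtype.val (congrFun h1 i)

/-- the rank grows when the field shrinks -/
theorem eRk_anti {F F' : IntermediateField ℚ ℂ} (h : F ≤ F') (S : Set ℂ) :
    (MK F').eRk S ≤ (MK F).eRk S := by
  obtain ⟨J, hJ⟩ := (MK F').exists_isBasis S (Set.subset_univ _)
  rw [← hJ.encard_eq_eRk]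
  have h1 := hJ.indep
  rw [AlgebraicIndependent.matroid_indep_iff] at h1
  refine Matroid.Indep.encard_le_eRk_of_subset ?_ hJ.subset
  rw [AlgebraicIndependent.matroid_indep_iff]
  let _ : Algebra F F' := (IntermediateField.inclusion h).toRingHom.toAlgebra
  have : IsScalarTower F F' ℂ := IsScalarTower.of_algebraMap_eq (fun _ => rfl)
  exact AlgebraicIndependent.restrictScalars (K := F') (algebraMap F F').injective h1

/-- **the rank at a generic point** -/
theorem rank_Gp (h : FxM U Λ ty u l) (hns : 0 < s + n) {F : IntermediateField ℚ ℂ}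
    (h2 : ∀ c, (Λ c).g₂ ∈ F) (h3 : ∀ c, (Λ c).g₃ ∈ F) {z₀ : ℂ} (g : Gp U Λ ty u l F z₀) :
    ((s + 2 * n + 1 : ℕ) : ℕ∞) ≤ (MK F).eRk (Set.range fun i => yf Λ ty u l i z₀) := by
  classical
  obtain ⟨D, hDF, hD⟩ := exists_D (κ := Option (Nf n s)) h.isOpen g.mem (by
    intro o
    cases o with
    | none => exact fun z _ => analyticAt_id
    | some i => exact yf_an h i) g.gn
  have hz := g.mem
  choose κ hE using fun c => exists_eig (Λ c)
  have dl : ∀ k, D (l k z₀) = deriv (l k) z₀ := fun k => hD (some (Sum.inl k))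
  have du : ∀ i, D (u i z₀) = deriv (u i) z₀ := fun i =>
    hD (some (Sum.inr (Sum.inr (Sum.inl i))))
  have hul : ∀ i, HasDerivAt (u i) (D (u i z₀)) z₀ := fun i => by
    rw [du]; exact (h.ua i z₀ hz).differentiableAt.hasDerivAt
  have hll : ∀ k, HasDerivAt (l k) (D (l k z₀)) z₀ := fun k => by
    rw [dl]; exact (h.la k z₀ hz).differentiableAt.hasDerivAt
  have ht : ∀ k, Tf D (l k z₀) = 0 := by
    intro k
    have h1 : D (Complex.exp (l k z₀)) = deriv (fun z => Complex.exp (l k z)) z₀ :=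
      hD (some (Sum.inr (Sum.inl k)))
    rw [(hll k).cexp.deriv] at h1
    unfold Tf lg
    rw [h1, mul_div_assoc, mul_comm, div_mul_cancel₀ _ (Complex.exp_ne_zero _), sub_self]
  have hzC : ∀ i, Cm1 (Λ (ty i)) D (u i z₀) := by
    intro i
    have hun := h.un i z₀ hz
    have h1 : D (zeta (Λ (ty i)) (u i z₀)) = deriv (fun z => zeta (Λ (ty i)) (u i z)) z₀ :=
      hD (some (Sum.inr (Sum.inr (Sum.inr (Sum.inl i)))))
    have h4 : D (℘[Λ (ty i)] (u i z₀)) = deriv (fun z => ℘[Λ (ty i)] (u i z)) z₀ :=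
      hD (some (Sum.inr (Sum.inr (Sum.inr (Sum.inr i)))))
    have h5 := ((hasDerivAt_zeta (Λ (ty i)) hun).comp z₀ (hul i)).deriv
    have h6 := ((hasDerivAt_weierstrassP (Λ (ty i)) hun).comp z₀ (hul i)).deriv
    have h5' : deriv (fun z => zeta (Λ (ty i)) (u i z)) z₀ =
        -℘[Λ (ty i)] (u i z₀) * D (u i z₀) := h5
    have h6' : deriv (fun z => ℘[Λ (ty i)] (u i z)) z₀ =
        ℘'[Λ (ty i)] (u i z₀) * D (u i z₀) := h6
    rw [h5'] at h1
    rw [h6'] at h4
    have hne := wp'_ne_zero (Λ (ty i)) (g.two i)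
    have hom : om (Λ (ty i)) D (u i z₀) = D (u i z₀) := by
      unfold om
      rw [h4]
      field_simp
    refine ⟨hom, ?_⟩
    unfold et
    rw [hom, zt_of_notMem (two_mul_notMem_of _ (g.two i)), h1]
    ring
  have hzD : ∀ (c : Fin q) (a : Fin n → ℂ), (∀ i, a i ∈ kL (Λ c)) → (∀ i, ty i ≠ c → a i = 0) →
      D (∑ i, a i * u i z₀) = 0 → a = 0 := by
    intro c a ha hta h0
    apply g.ui c a ha hta
    have h1 : HasDerivAt (fun z => ∑ i, a i * u i z) (∑ i, a i * D (u i z₀)) z₀ :=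
      HasDerivAt.fun_sum fun i _ => (hul i).const_mul _
    rw [h1.deriv, ← h0, map_sum]
    exact Finset.sum_congr rfl fun i _ => by rw [D_mul, der_kL D (ha i)]; ring
  have htD : ∀ c : Fin s → ℚ, D (∑ k, c k • l k z₀) = 0 → c = 0 := by
    intro c hc
    by_contra hne
    obtain ⟨A, hA, m, hm⟩ := exists_den c
    have hm0 : m ≠ 0 := by
      rintro rfl
      apply hne
      funext i
      have h1 := hm i
      simp only [Pi.zero_apply, Int.cast_zero] at h1
      have hA' : (A : ℚ) ≠ 0 := by exact_mod_cast hA.ne'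
      exact (mul_eq_zero.1 h1.symm).resolve_left hA'
    apply g.li m hm0
    have h1 : HasDerivAt (fun z => ∑ k, (m k : ℂ) * l k z) (∑ k, (m k : ℂ) * D (l k z₀)) z₀ :=
      HasDerivAt.fun_sum fun k _ => (hll k).const_mul _
    rw [h1.deriv]
    rw [map_sum] at hc
    have h4 : ∑ k, (m k : ℂ) * D (l k z₀) = A * ∑ k, D (c k • l k z₀) := by
      rw [Finset.mul_sum]
      refine Finset.sum_congr rfl fun k _ => ?_
      have h2 : (m k : ℂ) = A * c k := by exact_mod_cast congrArg (fun t : ℚ => (t : ℂ)) (hm k)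
      rw [h2, D.map_smul, Rat.smul_def]
      ring
    rw [h4, hc, mul_zero]
  have key := ax_multi hE h.ni (fun c => hDF _ (h2 c)) (fun c => hDF _ (h3 c)) hzC ht hzD htD hns
  have hFC : F ≤ Cst D := fun x hx => hDF x hx
  have key2 : ((s + 2 * n + 1 : ℕ) : ℕ∞) ≤
      (MK (Cst D)).eRk (Set.range fun i => yf Λ ty u l i z₀) := by
    refine key.trans ((MK _).eRk_mono ?_)
    rintro x ((⟨k, rfl⟩ | ⟨k, rfl⟩) | (⟨i, rfl⟩ | ⟨i, rfl⟩ | ⟨i, rfl⟩))
    · exact ⟨Sum.inl k, rfl⟩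
    · exact ⟨Sum.inr (Sum.inl k), rfl⟩
    · exact ⟨Sum.inr (Sum.inr (Sum.inl i)), rfl⟩
    · refine ⟨Sum.inr (Sum.inr (Sum.inr (Sum.inl i))), ?_⟩
      change zeta (Λ (ty i)) (u i z₀) = zt (Λ (ty i)) (u i z₀)
      rw [zt_of_notMem (two_mul_notMem_of _ (g.two i))]
    · exact ⟨Sum.inr (Sum.inr (Sum.inr (Sum.inr i))), rfl⟩
  exact key2.trans (eRk_anti hFC _)

/-- **a full independent subfamily** -/
theorem fix_sub (h : FxM U Λ ty u l) (hns : 0 < s + n) (hne : U.Nonempty) :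
    ∃ e : Fin (s + 2 * n) → Nf n s, Function.Injective e ∧
      ∀ t ∈ U, LocInd (fun k => yf Λ ty u l (e k)) t := by
  classical
  obtain ⟨zs, hzs⟩ := hne
  obtain ⟨F, hFc, hF⟩ := exists_cf
    (T := TS (yf Λ ty u l) zs ∪ (Set.range (fun c => (Λ c).g₂) ∪ Set.range (fun c => (Λ c).g₃)))
    ((TS_countable _ _).union ((Set.countable_range _).union (Set.countable_range _)))
  obtain ⟨z₀, hz₀, hnot⟩ := exists_notMem h.isOpen ⟨zs, hzs⟩ (countable_Gp h hFc ⟨zs, hzs⟩)
  have g : Gp U Λ ty u l F z₀ := by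
    by_contra hcon
    exact hnot ⟨hz₀, hcon⟩
  refine exists_sub h.conn h.isOpen (yf_an h) hzs (fun x hx => hF (Or.inl hx)) hz₀ g.tr ?_
  exact (rank_Gp h hns (fun c => hF (Or.inr (Or.inl ⟨c, rfl⟩)))
    (fun c => hF (Or.inr (Or.inr ⟨c, rfl⟩))) g).trans ((MK F).eRk_mono (Set.subset_insert _ _))

end Pool.Agent.Y776.Cv
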