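import Mathlib
import Pool.Agent.Y776.Cv.Sub

/-!
# Independent subfamilies with a prescribed part, and padding
-/

set_option autoImplicit false

open Filter Topology Set MvPolynomial NumberField

noncomputable section

namespace Pool.Agent.Y776.Cv

open Pool.Agent.Y776.Fam (TS locInd_of indep_of_rank)
open Pool.Agent.Y124 (tc LocInd nfW relK_of_poly' oneV_of)
open Pool.Agent.TH813.Rel (DF MK)

variable {U : Set ℂ}

/-- a subfamily whose values are independent is independent -/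
theorem locInd_of_J {ι κ : Type} [Fintype ι] [Fintype κ] (hc : IsPreconnected U) (hU : IsOpen U)
    {y : ι → ℂ → ℂ} (hy : ∀ i, AnalyticOnNhd ℂ (y i) U) {F : IntermediateField ℚ ℂ} {zs z₀ : ℂ}
    (hzs : zs ∈ U) (hT : TS y zs ⊆ F) (hz₀ : z₀ ∈ U) {J : Set ℂ} (hJ : (MK F).Indep J)
    (hz₀J : z₀ ∈ J) {ψ : κ → ℂ} (hψ : Function.Injective ψ) (hψJ : ∀ k, ψ k ∈ J \ {z₀})
    {e : κ → ι} (he : ∀ k, y (e k) z₀ = ψ k) :
    Function.Injective e ∧ ∀ t ∈ U, LocInd (fun k => y (e k)) t := by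
  classical
  have hinj : Function.Injective e := by
    intro a b hab
    apply hψ
    rw [← he a, ← he b, hab]
  refine ⟨hinj, fun t ht => ?_⟩
  refine locInd_of hc hU (fun k => hy (e k)) hzs ((TS_sub y hinj zs).trans hT) hz₀ ?_ ht
  have hfun : (fun o : Option κ => o.elim z₀ (fun k => y (e k) z₀)) =
      fun o : Option κ => o.elim z₀ ψ := by
    funext o
    cases o with
    | none => rfl
    | some k => exact he k
  change AlgebraicIndependent F (fun o : Option κ => o.elim z₀ (fun k => y (e k) z₀))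
  rw [hfun]
  have hinj2 : Function.Injective (fun o : Option κ => o.elim z₀ ψ) := by
    intro a b hab
    cases a with
    | none =>
      cases b with
      | none => rfl
      | some k =>
        exfalso
        exact (hψJ k).2 hab.symm
    | some j =>
      cases b with
      | none =>
        exfalso
        exact (hψJ j).2 hab
      | some k =>
        have h3 : ψ j = ψ k := hab
        rw [hψ h3]
  have h5 : (MK F).Indep (Set.range (fun o : Option κ => o.elim z₀ ψ)) := by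
    refine hJ.subset ?_
    rintro _ ⟨o, rfl⟩
    cases o with
    | none => exact hz₀J
    | some k => exact (hψJ k).1
  rw [AlgebraicIndependent.matroid_indep_iff] at h5
  exact (algebraicIndependent_subtype_range hinj2).1 h5

theorem indep_single {F : IntermediateField ℚ ℂ} {z₀ : ℂ} (htr : ¬ IsAlgebraic F z₀) :
    (MK F).Indep {z₀} := by
  rw [AlgebraicIndependent.matroid_indep_iff]
  have h1 : AlgebraicIndependent F (fun _ : Unit => z₀) := by
    rw [algebraicIndependent_unique_type_iff]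
    exact htr
  have h2 := AlgebraicIndependent.coe_range h1
  have h3 : Set.range (fun _ : Unit => z₀) = {z₀} := by
    ext x
    simp [eq_comm]
  rw [h3] at h2
  exact h2

theorem exists_equiv_of_encard {S : Set ℂ} {N : ℕ} (hS : S.encard = N) : Nonempty (Fin N ≃ S) := by
  have hSfin : S.Finite := Set.finite_of_encard_eq_coe hS
  have : Finite S := hSfin
  have hcard : Nat.card S = N := by
    have h3 := hSfin.cast_ncard_eq
    rw [hS] at h3
    rw [Nat.card_coe_set_eq]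
    exact_mod_cast h3
  exact ⟨(Finite.equivFinOfCardEq hcard).symm⟩

/-- **independent subfamilies with a prescribed part** -/
theorem exists_sub2 {ι : Type} [Fintype ι] (hc : IsPreconnected U) (hU : IsOpen U) {y : ι → ℂ → ℂ}
    (hy : ∀ i, AnalyticOnNhd ℂ (y i) U) {F : IntermediateField ℚ ℂ} {zs z₀ : ℂ} (hzs : zs ∈ U)
    (hT : TS y zs ⊆ F) (hz₀ : z₀ ∈ U) (htr : ¬ IsAlgebraic F z₀) (p : ι → Prop) {N₁ N₂ : ℕ}
    (hr₁ : ((N₁ + 1 : ℕ) : ℕ∞) ≤ (MK F).eRk (insert z₀ ((fun i => y i z₀) '' {i | p i})))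
    (hr : ((N₁ + N₂ + 1 : ℕ) : ℕ∞) ≤ (MK F).eRk (insert z₀ (Set.range fun i => y i z₀))) :
    ∃ e : Fin N₁ ⊕ Fin N₂ → ι, Function.Injective e ∧ (∀ k, p (e (Sum.inl k))) ∧
      ∀ t ∈ U, LocInd (fun k => y (e k)) t := by
  classical
  obtain ⟨J₁, hJ₁, hJ0⟩ := (indep_single htr).subset_isBasis_of_subset
    (X := insert z₀ ((fun i => y i z₀) '' {i | p i})) (by simp) (Set.subset_univ _)
  have hsub : insert z₀ ((fun i => y i z₀) '' {i | p i}) ⊆ insert z₀ (Set.range fun i => y i z₀) :=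
    Set.insert_subset_insert (Set.image_subset_range _ _)
  obtain ⟨J, hJ, hJ1⟩ := hJ₁.indep.subset_isBasis_of_subset
    (X := insert z₀ (Set.range fun i => y i z₀)) (hJ₁.subset.trans hsub) (Set.subset_univ _)
  rw [← hJ₁.encard_eq_eRk] at hr₁
  rw [← hJ.encard_eq_eRk] at hr
  have hz₁ : z₀ ∈ J₁ := hJ0 rfl
  have hz₀J : z₀ ∈ J := hJ1 hz₁
  have hlt : ∀ {X : Set ℂ} {N : ℕ}, z₀ ∈ X → ((N + 1 : ℕ) : ℕ∞) ≤ X.encard →
      (N : ℕ∞) ≤ (X \ {z₀}).encard := by
    intro X N hX hN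
    rw [← Set.encard_sdiff_singleton_add_one hX] at hN
    push_cast at hN
    exact (ENat.add_le_add_iff_right ENat.one_ne_top).1 hN
  obtain ⟨S₁, hS₁J, hS₁c⟩ := Set.exists_subset_encard_eq (hlt hz₁ hr₁)
  have hS₁J' : S₁ ⊆ J \ {z₀} := hS₁J.trans (Set.sdiff_subset_sdiff_left hJ1)
  obtain ⟨S, hSS, hSJ, hSc⟩ := Set.exists_superset_subset_encard_eq (k := ((N₁ + N₂ : ℕ) : ℕ∞))
    hS₁J' (by rw [hS₁c]; exact_mod_cast Nat.le_add_right _ _) (hlt hz₀J hr)
  have hS₂c : (S \ S₁).encard = N₂ := by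
    have h1 := Set.encard_sdiff_add_encard_of_subset hSS
    rw [hSc, hS₁c] at h1
    have h2 : (S \ S₁).encard + (N₁ : ℕ∞) = (N₂ : ℕ∞) + N₁ := by
      rw [h1]; push_cast; ring
    exact le_antisymm ((ENat.add_le_add_iff_right (ENat.natCast_ne_top N₁)).1 h2.le)
      ((ENat.add_le_add_iff_right (ENat.natCast_ne_top N₁)).1 h2.ge)
  obtain ⟨ψ₁⟩ := exists_equiv_of_encard hS₁c
  obtain ⟨ψ₂⟩ := exists_equiv_of_encard hS₂c
  have hex₁ : ∀ k : Fin N₁, ∃ i, p i ∧ y i z₀ = ψ₁ k := by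
    intro k
    have h3 := hS₁J (ψ₁ k).2
    rcases hJ₁.subset h3.1 with h4 | ⟨i, hi, hi'⟩
    · exact absurd h4 h3.2
    · exact ⟨i, hi, hi'⟩
  have hex₂ : ∀ k : Fin N₂, ∃ i, y i z₀ = ψ₂ k := by
    intro k
    have h3 := hSJ (ψ₂ k).2.1
    rcases hJ.subset h3.1 with h4 | ⟨i, hi⟩
    · exact absurd h4 h3.2
    · exact ⟨i, hi⟩
  choose e₁ he₁p he₁ using hex₁
  choose e₂ he₂ using hex₂
  have key := locInd_of_J (κ := Fin N₁ ⊕ Fin N₂) hc hU hy hzs hT hz₀ hJ.indep hz₀J
    (ψ := Sum.elim (fun k => (ψ₁ k : ℂ)) (fun k => (ψ₂ k : ℂ))) (by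
      intro a b hab
      rcases a with a | a <;> rcases b with b | b
      · exact congrArg Sum.inl (ψ₁.injective (Subtype.ext hab))
      · exfalso
        have h3 : (ψ₁ a : ℂ) = ψ₂ b := hab
        exact (ψ₂ b).2.2 (h3 ▸ (ψ₁ a).2)
      · exfalso
        have h3 : (ψ₂ a : ℂ) = ψ₁ b := hab
        exact (ψ₂ a).2.2 (h3 ▸ (ψ₁ b).2)
      · exact congrArg Sum.inr (ψ₂.injective (Subtype.ext hab))) (by
      rintro (k | k)
      · exact hS₁J' (ψ₁ k).2
      · exact hSJ (ψ₂ k).2.1) (e := Sum.elim e₁ e₂) (by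
      rintro (k | k)
      · exact he₁ k
      · exact he₂ k)
  exact ⟨Sum.elim e₁ e₂, key.1, he₁p, key.2⟩

end Pool.Agent.Y776.Cv
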