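import Mathlib
import Pool.Agent.Y776.Cv.Fix
import Pool.Agent.Y776.Cv.Sub2

/-!
# Padding of families, and families of different shapes
-/

set_option autoImplicit false

open Filter Topology Set NumberField MvPolynomial

noncomputable section

namespace Pool.Agent.Y776.Cv

open Pool.Agent.Y776.Fam (TS TS_countable Gn exists_cf exists_notMem countable_zeros IndC)
open Pool.Agent.TH813.Rel (DF MK rk_le_of_subset_cl subset_cl)
open Pool.Agent.Y124 (LocInd)
open Pool.Agent.Y685

variable {U : Set ℂ}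

theorem LocInd.comp_inj {κ κ' : Type} {y : κ → ℂ → ℂ} {t : ℂ} (h : LocInd y t) {e : κ' → κ}
    (he : Function.Injective e) : LocInd (fun k => y (e k)) t := by
  intro P hP
  apply rename_injective _ (Option.map_injective he)
  rw [map_zero]
  apply h
  filter_upwards [hP] with z hz
  rw [eval_rename]
  rw [← hz]
  congr 2
  funext o
  cases o <;> rfl

/-- number-level independence at a generic point -/
theorem indep_gen {κ : Type} [Fintype κ] (hU : IsOpen U) (hc : IsPreconnected U)
    {y : κ → ℂ → ℂ} (hy : ∀ i, AnalyticOnNhd ℂ (y i) U) (hl : ∀ t ∈ U, LocInd y t)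
    {F : IntermediateField ℚ ℂ} (hF : (F : Set ℂ).Countable) :
    {z | z ∈ U ∧ ¬ AlgebraicIndependent F (fun o : Option κ => o.elim z (fun i => y i z))}.Countable := by
  classical
  have hFc : Countable F := hF.to_subtype
  rcases U.eq_empty_or_nonempty with hE | ⟨w, hw⟩
  · rw [hE]
    simp
  have hcP : Countable (MvPolynomial (Option κ) F) := by
    rw [← Cardinal.mk_le_aleph0_iff]
    refine MvPolynomial.cardinalMk_le_max.trans (max_le (max_le ?_ ?_) le_rfl)
    · simp
    · simp
  have key : ∀ P : {P : MvPolynomial (Option κ) F // P ≠ 0},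
      {z | z ∈ U ∧ aeval (fun o : Option κ => o.elim z (fun i => y i z)) P.1 = 0}.Countable := by
    intro P
    refine countable_zeros hc (f := fun z => aeval (fun o : Option κ => o.elim z (fun i => y i z)) P.1)
      ?_ ?_
    · intro z hz
      have h1 : (fun z => aeval (fun o : Option κ => o.elim z (fun i => y i z)) P.1) =
          fun z => ∑ m ∈ P.1.support, algebraMap F ℂ (P.1.coeff m) *
            ∏ o, (o.elim z (fun i => y i z)) ^ m o := by
        funext z
        rw [aeval_def, eval₂_eq']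
      rw [h1]
      refine Finset.analyticAt_fun_sum _ fun m _ => analyticAt_const.mul
        (Finset.analyticAt_fun_prod _ fun o _ => ?_)
      cases o with
      | none => exact analyticAt_id.pow _
      | some i => exact (hy i z hz).pow _
    · by_contra hcon
      push Not at hcon
      apply P.2
      have h1 := hl w hw (MvPolynomial.map (algebraMap F ℂ) P.1) (by
        filter_upwards [hU.mem_nhds hw] with z hz
        rw [eval_map, ← aeval_def]
        exact hcon z hz)
      exact (MvPolynomial.map_injective _ (algebraMap F ℂ).injective) (by rw [h1, map_zero])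
  refine (Set.countable_iUnion key).mono ?_
  rintro z ⟨hz, hz'⟩
  rw [algebraicIndependent_iff] at hz'
  push Not at hz'
  obtain ⟨P, hP, hP0⟩ := hz'
  exact mem_iUnion.2 ⟨⟨P, hP0⟩, hz, hP⟩

/-- the dummy functions -/
def dum (S : ℕ) (k : Fin S) (z : ℂ) : ℂ := Complex.exp (z ^ (k.val + 1))

theorem fx_dum (S : ℕ) (hU : IsOpen U) (hc : IsPreconnected U) (hne : U.Nonempty) :
    FxM U (fun c : Fin 0 => c.elim0) (fun i : Fin 0 => i) (fun i : Fin 0 => i.elim0)
      (fun (k : Fin S) z => z ^ (k.val + 1)) where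
  isOpen := hU
  conn := hc
  ni := fun c => c.elim0
  ua := fun i => i.elim0
  un := fun i => i.elim0
  ui := fun c => c.elim0
  la := fun k z _ => analyticAt_id.pow _
  li := by
    intro m c hm
    have h1 : Set.Infinite U := by
      obtain ⟨w, hw⟩ := hne
      exact infinite_of_mem_nhds w (hU.mem_nhds hw)
    have h2 : (∑ k : Fin S, Polynomial.C ((m k : ℤ) : ℂ) * Polynomial.X ^ (k.val + 1)) -
        Polynomial.C c = 0 := by
      apply Polynomial.eq_zero_of_infinite_isRoot
      refine h1.mono fun z hz => ?_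
      have h3 := hm z hz
      simp only [Set.mem_ofPred_eq, Polynomial.IsRoot.def, Polynomial.eval_sub,
        Polynomial.eval_finsetSum, Polynomial.eval_mul, Polynomial.eval_C, Polynomial.eval_pow,
        Polynomial.eval_X]
      rw [h3, sub_self]
    funext k
    have h3 := congrArg (fun p => Polynomial.coeff p (k.val + 1)) h2
    simp only [Polynomial.coeff_sub, Polynomial.finsetSum_coeff, Polynomial.coeff_C_mul,
      Polynomial.coeff_X_pow, Polynomial.coeff_zero, Polynomial.coeff_C_succ, sub_zero] at h3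
    rw [Finset.sum_eq_single k] at h3
    · simpa using h3
    · intro j _ hj
      rw [if_neg, mul_zero]
      intro h4
      exact hj (Fin.ext (by omega))
    · intro h4
      exact absurd (Finset.mem_univ k) h4

/-- **padding** -/
theorem exists_pad {κ : Type} [Fintype κ] (hU : IsOpen U) (hc : IsPreconnected U)
    {y : κ → ℂ → ℂ} (hy : ∀ i, AnalyticOnNhd ℂ (y i) U) (hl : ∀ t ∈ U, LocInd y t) (M : ℕ) :
    ∃ w : Fin M → ℂ → ℂ, (∀ k, AnalyticOnNhd ℂ (w k) U) ∧ ∀ t ∈ U, LocInd (Sum.elim y w) t := by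
  classical
  rcases U.eq_empty_or_nonempty with hE | ⟨zs, hzs⟩
  · exact ⟨fun _ _ => 0, fun _ _ _ => analyticAt_const, fun t ht => by
      rw [hE] at ht; exact absurd ht (Set.notMem_empty _)⟩
  set S : ℕ := Fintype.card κ + M + 1 with hS
  set y2 : κ ⊕ Fin S → ℂ → ℂ := Sum.elim y (dum S) with hy2
  have hy2a : ∀ i, AnalyticOnNhd ℂ (y2 i) U := by
    rintro (i | k)
    · exact hy i
    · exact fun z _ => (analyticAt_id.pow _).cexp
  have fx := fx_dum (U := U) S hU hc ⟨zs, hzs⟩
  obtain ⟨F, hFc, hF⟩ := exists_cf (T := TS y2 zs) (TS_countable _ _)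
  obtain ⟨z₀, hz₀, hnot⟩ := exists_notMem hU ⟨zs, hzs⟩
    ((countable_Gp fx hFc ⟨zs, hzs⟩).union (indep_gen hU hc hy hl hFc))
  rw [Set.mem_union, not_or] at hnot
  have g : Gp U (fun c : Fin 0 => c.elim0) (fun i : Fin 0 => i) (fun i : Fin 0 => i.elim0)
      (fun (k : Fin S) z => z ^ (k.val + 1)) F z₀ := by
    by_contra hcon
    exact hnot.1 ⟨hz₀, hcon⟩
  have hi : AlgebraicIndependent F (fun o : Option κ => o.elim z₀ (fun i => y i z₀)) := by
    by_contra hcon
    exact hnot.2 ⟨hz₀, hcon⟩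
  have hr := rank_Gp fx (by omega) (fun c => c.elim0) (fun c => c.elim0) g
  have hr2 : ((S + 1 : ℕ) : ℕ∞) ≤ (MK F).eRk (insert z₀ (Set.range fun k => dum S k z₀)) := by
    refine hr.trans (rk_le_of_subset_cl ?_)
    rintro _ ⟨k | k | i | i | i, rfl⟩
    · have h1 : z₀ ∈ clo F (insert z₀ (Set.range fun k => dum S k z₀)) :=
        subset_clo (Set.mem_insert _ _)
      exact mem_clo_iff.1 (pow_mem h1 (k.val + 1))
    · exact subset_cl _ (Set.mem_insert_of_mem _ ⟨k, rfl⟩)
    · exact i.elim0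
    · exact i.elim0
    · exact i.elim0
  have hr1 : ((Fintype.card κ + 1 : ℕ) : ℕ∞) ≤
      (MK F).eRk (insert z₀ ((fun i => y2 i z₀) '' {i | i.isLeft = true})) := by
    have h1 := AlgebraicIndependent.coe_range hi
    have h2 : (MK F).Indep (Set.range fun o : Option κ => o.elim z₀ (fun i => y i z₀)) := by
      rw [AlgebraicIndependent.matroid_indep_iff]
      exact h1
    have h3 := h2.encard_le_eRk_of_subset
      (X := insert z₀ ((fun i => y2 i z₀) '' {i | i.isLeft = true})) (by
      rintro _ ⟨o, rfl⟩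
      cases o with
      | none => exact Set.mem_insert _ _
      | some i => exact Set.mem_insert_of_mem _ ⟨Sum.inl i, rfl, rfl⟩)
    refine le_trans ?_ h3
    rw [← Set.image_univ, hi.injective.encard_image, Set.encard_univ]
    simp
  obtain ⟨e, he, hel, hL⟩ := exists_sub2 hc hU hy2a hzs hF hz₀ g.tr (fun i => i.isLeft = true)
    (N₁ := Fintype.card κ) (N₂ := M) hr1 (by
      refine le_trans ?_ (hr2.trans ((MK F).eRk_mono ?_))
      · exact_mod_cast (by omega)
      · refine Set.insert_subset_insert ?_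
        rintro _ ⟨k, rfl⟩
        exact ⟨Sum.inr k, rfl⟩)
  -- the first part of `e` is a bijection onto `κ`
  have hσ : ∀ k, ∃ i : κ, e (Sum.inl k) = Sum.inl i := fun k => Sum.isLeft_iff.1 (hel k)
  choose σ hσ using hσ
  have hσi : Function.Injective σ := by
    intro a b hab
    have h1 : e (Sum.inl a) = e (Sum.inl b) := by rw [hσ, hσ, hab]
    exact Sum.inl_injective (he h1)
  have hσb : Function.Bijective σ :=
    (Fintype.bijective_iff_injective_and_card σ).2 ⟨hσi, by simp⟩
  have hτ : ∀ k, ∃ i : Fin S, e (Sum.inr k) = Sum.inr i := by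
    intro k
    rcases h1 : e (Sum.inr k) with i | i
    · obtain ⟨a, ha⟩ := hσb.2 i
      have h2 : e (Sum.inl a) = e (Sum.inr k) := by rw [hσ, ha, h1]
      exact absurd (he h2) (by simp)
    · exact ⟨i, rfl⟩
  choose τ hτ using hτ
  refine ⟨fun k => dum S (τ k), fun k z _ => (analyticAt_id.pow _).cexp, fun t ht => ?_⟩
  have h1 := LocInd.comp_inj (hL t ht)
    (e := Sum.map (Equiv.ofBijective σ hσb).symm id) (by
      exact Sum.map_injective.2 ⟨(Equiv.ofBijective σ hσb).symm.injective, Function.injective_id⟩)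
  convert h1 using 2 with i
  rcases i with i | k
  · change y i = y2 (e (Sum.inl ((Equiv.ofBijective σ hσb).symm i)))
    rw [hσ]
    change y i = y ((Equiv.ofBijective σ hσb) ((Equiv.ofBijective σ hσb).symm i))
    rw [Equiv.apply_symm_apply]
  · change dum S (τ k) = y2 (e (Sum.inr k))
    rw [hτ]
    rfl

/-- **the values of families of different shapes at points of number fields** -/
theorem nf_genS {η : Type} [Fintype η] [DecidableEq η] (m n d : ℕ) {κ : Fin n → Type}
    [∀ j, Fintype (κ j)] {U : Fin n → Set ℂ} (hU : ∀ j, IsOpen (U j))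
    (hc : ∀ j, IsPreconnected (U j)) {y : ∀ j, κ j → ℂ → ℂ}
    (hy : ∀ j i, AnalyticOnNhd ℂ (y j i) (U j))
    (hl : ∀ j, ∀ t ∈ U j, LocInd (y j) t) {K : Set ℂ} (hK : IsCompact K) (hKU : ∀ j, K ⊆ U j)
    (A ε : ℝ) (hε : 0 < ε) :
    ∃ B C T₀ : ℝ, 0 ≤ C ∧ 2 ≤ T₀ ∧ ∀ (F : Type) [Field F] [NumberField F],
      Module.finrank ℚ F ≤ m → ∀ (io : F →+* ℂ) (ξ : η → ℂ) (T : ℝ), T₀ ≤ T →
      ∀ E : Set (Fin n → F), (∀ t ∈ E, (∀ j, Y120.HtLe F T (t j) ∧ io (t j) ∈ K) ∧
        ∃ P : MvPolynomial (Σ j, κ j) ℂ, (∀ x, P.degreeOf x ≤ d) ∧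
        (∀ s, ∃ c : η → 𝓞 F, (∀ i (φ : F →+* ℂ), ‖φ (c i : F)‖ ≤ T ^ A) ∧
          P.coeff s = ∑ i, ξ i * io (c i : F)) ∧
        ∃ s₀, P.coeff s₀ ≠ 0 ∧ ‖MvPolynomial.aeval (fun x : Σ j, κ j =>
          y x.1 x.2 (io (t x.1))) P‖ ≤ T ^ (-B) * ‖P.coeff s₀‖) →
      E.Finite ∧ (E.ncard : ℝ) ≤
        C * T ^ ε * (({x : F | Y120.HtLe F T x ∧ io x ∈ K}.ncard : ℝ)) ^ (n - 1) := by
  classical
  set NN : ℕ := ∑ j, Fintype.card (κ j) with hNN
  have hle : ∀ j, Fintype.card (κ j) ≤ NN := fun j =>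
    Finset.single_le_sum (f := fun j => Fintype.card (κ j)) (fun _ _ => Nat.zero_le _)
      (Finset.mem_univ j)
  choose w hwa hwl using fun j => exists_pad (hU j) (hc j) (hy j) (hl j) (NN - Fintype.card (κ j))
  have hφ : ∀ j, Nonempty (κ j ⊕ Fin (NN - Fintype.card (κ j)) ≃ Fin NN) := fun j =>
    ⟨Fintype.equivFinOfCardEq (by
      rw [Fintype.card_sum, Fintype.card_fin]
      have := hle j
      omega)⟩
  have φ : ∀ j, κ j ⊕ Fin (NN - Fintype.card (κ j)) ≃ Fin NN := fun j => (hφ j).some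
  set y' : Fin n → Fin NN → ℂ → ℂ := fun j k => Sum.elim (y j) (w j) ((φ j).symm k) with hy'
  obtain ⟨B, C, T₀, hC, hT₀, H⟩ := nf_gen (η := η) m n d (U := U) (y := y') (fun j k => by
      rcases h1 : (φ j).symm k with i | i
      · simp only [hy', h1]
        exact hy j i
      · simp only [hy', h1]
        exact hwa j i) (fun j t ht => LocInd.comp_inj (hwl j t ht) (φ j).symm.injective)
    hK hKU A ε hε
  set f : (Σ j, κ j) → Fin n × Fin NN := fun x => (x.1, φ x.1 (Sum.inl x.2)) with hf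
  have hfi : Function.Injective f := by
    rintro ⟨j, a⟩ ⟨j', b⟩ hab
    obtain ⟨h1, h2⟩ := Prod.ext_iff.1 hab
    change j = j' at h1
    subst h1
    exact congrArg (Sigma.mk j) (Sum.inl_injective ((φ j).injective h2))
  refine ⟨B, C, T₀, hC, hT₀, fun F _ _ hm io ξ T hT E hE => H F hm io ξ T hT E fun t ht => ?_⟩
  obtain ⟨h1, P, hPd, hPc, s₀, hs₀, hs⟩ := hE t ht
  refine ⟨h1, rename f P, fun x => ?_, fun s => ?_, s₀.mapDomain f, ?_, ?_⟩
  · rw [degreeOf_le_iff]
    intro v hv
    rw [support_rename_of_injective hfi, Finset.mem_image] at hv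
    obtain ⟨v', hv', rfl⟩ := hv
    by_cases hx : x ∈ Set.range f
    · obtain ⟨x', rfl⟩ := hx
      rw [Finsupp.mapDomain_apply hfi]
      exact degreeOf_le_iff.1 (hPd x') v' hv'
    · rw [Finsupp.mapDomain_of_notMem_range _ _ hx]
      exact Nat.zero_le _
  · by_cases hx : ∃ v, Finsupp.mapDomain f v = s
    · obtain ⟨v, rfl⟩ := hx
      rw [coeff_rename_mapDomain f hfi]
      exact hPc v
    · refine ⟨fun _ => 0, fun i φ => ?_, ?_⟩
      · simp only [map_zero, norm_zero]
        exact Real.rpow_nonneg (by linarith) _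
      · rw [coeff_rename_eq_zero f P s (fun u hu => absurd ⟨u, hu⟩ hx)]
        simp
  · rw [coeff_rename_mapDomain f hfi]
    exact hs₀
  · rw [coeff_rename_mapDomain f hfi, aeval_rename]
    refine le_trans (le_of_eq ?_) hs
    congr 2
    apply MvPolynomial.algHom_ext
    rintro ⟨j, k⟩
    rw [aeval_X, aeval_X]
    change y' j (φ j (Sum.inl k)) (io (t j)) = y j k (io (t j))
    simp only [hy', Equiv.symm_apply_apply, Sum.elim_inl]

end Pool.Agent.Y776.Cv
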