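import Mathlib
import Pool.Agent.Y776.Cv.Pad

/-!
# Independent functions and substitution of an arbitrary analytic function
-/

set_option autoImplicit false

open Filter Topology Set NumberField MvPolynomial

noncomputable section

namespace Pool.Agent.Y776.Cv

open Pool.Agent.Y776.Fam (TS TS_countable exists_cf exists_notMem countable_zeros)
open Pool.Agent.TH813.Rel (DF MK)
open Pool.Agent.Y124 (LocInd)

variable {U V : Set ℂ}

/-- the functions satisfy no polynomial relation over the complex numbers -/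
def FInd {ι : Type} (U : Set ℂ) (y : ι → ℂ → ℂ) : Prop :=
  ∀ P : MvPolynomial ι ℂ, (∀ z ∈ U, eval (fun i => y i z) P = 0) → P = 0

theorem an_eval {ι : Type} [Fintype ι] {y : ι → ℂ → ℂ} {z₀ : ℂ}
    (hy : ∀ i, AnalyticAt ℂ (y i) z₀) (P : MvPolynomial ι ℂ) :
    AnalyticAt ℂ (fun z => eval (fun i => y i z) P) z₀ := by
  have h1 : (fun z => eval (fun i => y i z) P) =
      fun z => ∑ m ∈ P.support, P.coeff m * ∏ i, (y i z) ^ m i := by
    funext z
    rw [eval_eq']
  rw [h1]
  exact Finset.analyticAt_fun_sum _ fun m _ => analyticAt_const.mul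
    (Finset.analyticAt_fun_prod _ fun i _ => (hy i).pow _)

/-- number-level independence at a generic point -/
theorem countable_FInd {ι : Type} [Fintype ι] (hc : IsPreconnected U) {y : ι → ℂ → ℂ}
    (hy : ∀ i, AnalyticOnNhd ℂ (y i) U) (hl : FInd U y) {F : IntermediateField ℚ ℂ}
    (hF : (F : Set ℂ).Countable) :
    {z | z ∈ U ∧ ¬ AlgebraicIndependent F (fun i => y i z)}.Countable := by
  classical
  have hFc : Countable F := hF.to_subtype
  have hcP : Countable (MvPolynomial ι F) := by
    rw [← Cardinal.mk_le_aleph0_iff]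
    refine MvPolynomial.cardinalMk_le_max.trans (max_le (max_le ?_ ?_) le_rfl)
    · simp
    · simp
  have key : ∀ P : {P : MvPolynomial ι F // P ≠ 0},
      {z | z ∈ U ∧ eval (fun i => y i z) (MvPolynomial.map (algebraMap F ℂ) P.1) = 0}.Countable := by
    intro P
    refine countable_zeros hc (f := fun z => eval (fun i => y i z)
      (MvPolynomial.map (algebraMap F ℂ) P.1)) (fun z hz => an_eval (fun i => hy i z hz) _) ?_
    by_contra hcon
    push Not at hcon
    apply P.2
    have h1 := hl (MvPolynomial.map (algebraMap F ℂ) P.1) hcon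
    exact (MvPolynomial.map_injective _ (algebraMap F ℂ).injective) (by rw [h1, map_zero])
  refine (Set.countable_iUnion key).mono ?_
  rintro z ⟨hz, hz'⟩
  rw [algebraicIndependent_iff] at hz'
  push Not at hz'
  obtain ⟨P, hP, hP0⟩ := hz'
  refine mem_iUnion.2 ⟨⟨P, hP0⟩, hz, ?_⟩
  rw [eval_map, ← aeval_def]
  exact hP

/-- **all but one of independent functions are independent over the rational functions** -/
theorem func_sub {ι : Type} [Fintype ι] (hU : IsOpen U) (hc : IsPreconnected U) (hne : U.Nonempty)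
    {y : ι → ℂ → ℂ} (hy : ∀ i, AnalyticOnNhd ℂ (y i) U) (hl : FInd U y) {N : ℕ}
    (hN : N + 1 ≤ Fintype.card ι) :
    ∃ e : Fin N → ι, Function.Injective e ∧ ∀ t ∈ U, LocInd (fun k => y (e k)) t := by
  classical
  obtain ⟨zs, hzs⟩ := hne
  obtain ⟨F, hFc, hF⟩ := exists_cf (T := TS y zs) (TS_countable _ _)
  have hFc' : Countable F := hFc.to_subtype
  obtain ⟨z₀, hz₀, hnot⟩ := exists_notMem hU ⟨zs, hzs⟩
    ((Algebraic.countable F ℂ).union (countable_FInd hc hy hl hFc))
  rw [Set.mem_union, not_or] at hnot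
  have hi : AlgebraicIndependent F (fun i => y i z₀) := by
    by_contra hcon
    exact hnot.2 ⟨hz₀, hcon⟩
  refine exists_sub hc hU hy hzs hF hz₀ hnot.1 ?_
  have h1 := AlgebraicIndependent.coe_range hi
  have h2 : (MK F).Indep (Set.range fun i => y i z₀) := by
    rw [AlgebraicIndependent.matroid_indep_iff]
    exact h1
  have h3 := h2.encard_le_eRk_of_subset (X := insert z₀ (Set.range fun i => y i z₀))
    (Set.subset_insert _ _)
  refine le_trans ?_ h3
  rw [← Set.image_univ, hi.injective.encard_image, Set.encard_univ]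
  rw [ENat.card_eq_coe_fintype_card]
  exact_mod_cast hN

/-- **substitution of an arbitrary function** -/
theorem FInd.comp {ι : Type} [Fintype ι] (hV : IsPreconnected V) {f : ι → ℂ → ℂ}
    (hf : ∀ i, AnalyticOnNhd ℂ (f i) V) (hl : FInd V f) (hU : IsOpen U) (hc : IsPreconnected U)
    {τ : ℂ → ℂ} (hτ : AnalyticOnNhd ℂ τ U) (hτV : ∀ z ∈ U, τ z ∈ V) (hne : U.Nonempty)
    (hnc : ∀ c : ℂ, ∃ z ∈ U, τ z ≠ c) : FInd U (fun i z => f i (τ z)) := by
  intro P hP
  apply hl
  rcases hτ.is_constant_or_isOpen hc with ⟨w, hw⟩ | hop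
  · obtain ⟨z, hz, hz'⟩ := hnc w
    exact absurd (hw z hz) hz'
  obtain ⟨z₁, hz₁⟩ := hne
  have h1 : IsOpen (τ '' U) := hop U Set.Subset.rfl hU
  have h2 : (fun w => eval (fun i => f i w) P) =ᶠ[𝓝 (τ z₁)] 0 := by
    filter_upwards [h1.mem_nhds ⟨z₁, hz₁, rfl⟩] with w hw
    obtain ⟨z, hz, rfl⟩ := hw
    exact hP z hz
  have h3 := AnalyticOnNhd.eqOn_zero_of_preconnected_of_eventuallyEq_zero
    (f := fun w => eval (fun i => f i w) P) (U := V) (fun w hw => an_eval (fun i => hf i w hw) P)
    hV (hτV z₁ hz₁) h2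
  exact fun w hw => h3 hw

end Pool.Agent.Y776.Cv
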