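import Mathlib
import Pool.Agent.Y776.Cv.Pad
import Pool.Agent.Y776.Cv.Comp

/-!
# Families which are locally rational functions of independent functions
-/

set_option autoImplicit false

open Filter Topology Set NumberField MvPolynomial

noncomputable section

namespace Pool.Agent.Y776.Cv

open Pool.Agent.Y776.Fam (TS locInd_of indep_of_rank)
open Pool.Agent.Y124 (tc LocInd nfW relK_of_poly' oneV_of)

/-- **the values at points of number fields** -/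
theorem nf_genK {κ η : Type} [Fintype κ] [DecidableEq κ] [Fintype η] [DecidableEq η] (m n d : ℕ)
    {U : Fin n → Set ℂ} {y : Fin n → κ → ℂ → ℂ} (hy : ∀ j i, AnalyticOnNhd ℂ (y j i) (U j))
    (hl : ∀ j, ∀ t ∈ U j, LocInd (y j) t) {K : Fin n → Set ℂ} (hK : ∀ j, IsCompact (K j)) (hKU : ∀ j, K j ⊆ U j)
    {S : Set ℂ} (hS : ∀ j, K j ⊆ S)
    (A ε : ℝ) (hε : 0 < ε) :
    ∃ B C T₀ : ℝ, 0 ≤ C ∧ 2 ≤ T₀ ∧ ∀ (F : Type) [Field F] [NumberField F],
      Module.finrank ℚ F ≤ m → ∀ (io : F →+* ℂ) (ξ : η → ℂ) (T : ℝ), T₀ ≤ T →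
      ∀ E : Set (Fin n → F), (∀ t ∈ E, (∀ j, Y120.HtLe F T (t j) ∧ io (t j) ∈ K j) ∧
        ∃ P : MvPolynomial (Fin n × κ) ℂ, (∀ x, P.degreeOf x ≤ d) ∧
        (∀ s, ∃ c : η → 𝓞 F, (∀ i (φ : F →+* ℂ), ‖φ (c i : F)‖ ≤ T ^ A) ∧
          P.coeff s = ∑ i, ξ i * io (c i : F)) ∧
        ∃ s₀, P.coeff s₀ ≠ 0 ∧ ‖MvPolynomial.aeval (fun x : Fin n × κ =>
          y x.1 x.2 (io (t x.1))) P‖ ≤ T ^ (-B) * ‖P.coeff s₀‖) →
      E.Finite ∧ (E.ncard : ℝ) ≤
        C * T ^ ε * (({x : F | Y120.HtLe F T x ∧ io x ∈ S}.ncard : ℝ)) ^ (n - 1) := by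
  classical
  obtain ⟨B, C, T₀, hC, hT₀, H⟩ := nfW m n (α := ℂ) (κ := κ) (fun x => x) (fun j => K j) S
    (fun j x hx => hS j hx) 1 (fun j x => by
      have h1 : {y | y ∈ K j ∧ y = x} ⊆ {x} := fun y hy => hy.2
      exact ⟨(Set.finite_singleton x).subset h1, by
        simpa using Set.ncard_le_ncard h1 (Set.finite_singleton x)⟩)
    (fun j z i => y j i z) (fun g j =>
      oneV_of g (y j) (K j) (hK j) (fun i t ht => hy j i t (hKU j ht)) fun t ht => hl j t (hKU j ht))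
    η d A ε hε
  refine ⟨B, C, T₀, hC, hT₀, fun F _ _ hm io ξ T hT E hE => H F hm io ξ T hT E fun t ht => ?_⟩
  obtain ⟨h1, P, hPd, hPc, s₀, hs₀, hs⟩ := hE t ht
  refine ⟨fun j => io (t j), fun j => ⟨(h1 j).2, rfl, (h1 j).1⟩, ?_⟩
  exact relK_of_poly' F io ξ _ _ _ _ P hPd hPc s₀ hs₀ hs

/-- **the values of families of different shapes at points of number fields** -/
theorem nf_genSK {η : Type} [Fintype η] [DecidableEq η] (m n d : ℕ) {κ : Fin n → Type}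
    [∀ j, Fintype (κ j)] {U : Fin n → Set ℂ} (hU : ∀ j, IsOpen (U j))
    (hc : ∀ j, IsPreconnected (U j)) {y : ∀ j, κ j → ℂ → ℂ}
    (hy : ∀ j i, AnalyticOnNhd ℂ (y j i) (U j))
    (hl : ∀ j, ∀ t ∈ U j, LocInd (y j) t) {K : Fin n → Set ℂ} (hK : ∀ j, IsCompact (K j))
    (hKU : ∀ j, K j ⊆ U j) {S : Set ℂ} (hS : ∀ j, K j ⊆ S)
    (A ε : ℝ) (hε : 0 < ε) :
    ∃ B C T₀ : ℝ, 0 ≤ C ∧ 2 ≤ T₀ ∧ ∀ (F : Type) [Field F] [NumberField F],
      Module.finrank ℚ F ≤ m → ∀ (io : F →+* ℂ) (ξ : η → ℂ) (T : ℝ), T₀ ≤ T →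
      ∀ E : Set (Fin n → F), (∀ t ∈ E, (∀ j, Y120.HtLe F T (t j) ∧ io (t j) ∈ K j) ∧
        ∃ P : MvPolynomial (Σ j, κ j) ℂ, (∀ x, P.degreeOf x ≤ d) ∧
        (∀ s, ∃ c : η → 𝓞 F, (∀ i (φ : F →+* ℂ), ‖φ (c i : F)‖ ≤ T ^ A) ∧
          P.coeff s = ∑ i, ξ i * io (c i : F)) ∧
        ∃ s₀, P.coeff s₀ ≠ 0 ∧ ‖MvPolynomial.aeval (fun x : Σ j, κ j =>
          y x.1 x.2 (io (t x.1))) P‖ ≤ T ^ (-B) * ‖P.coeff s₀‖) →
      E.Finite ∧ (E.ncard : ℝ) ≤
        C * T ^ ε * (({x : F | Y120.HtLe F T x ∧ io x ∈ S}.ncard : ℝ)) ^ (n - 1) := by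
  classical
  set NN : ℕ := ∑ j, Fintype.card (κ j) with hNN
  have hle : ∀ j, Fintype.card (κ j) ≤ NN := fun j =>
    Finset.single_le_sum (f := fun j => Fintype.card (κ j)) (fun _ _ => Nat.zero_le _)
      (Finset.mem_univ j)
  choose w hwa hwl using fun j => exists_pad (hU j) (hc j) (hy j) (hl j) (NN - Fintype.card (κ j))
  have hφ : ∀ j, Nonempty (κ j ⊕ Fin (NN - Fintype.card (κ j)) ≃ Fin NN) := fun j =>
    ⟨Fintype.equivFinOfCardEq (by
      rw [Fintype.card_sum, Fintype.card_fin]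
      have := hle j
      omega)⟩
  have φ : ∀ j, κ j ⊕ Fin (NN - Fintype.card (κ j)) ≃ Fin NN := fun j => (hφ j).some
  set y' : Fin n → Fin NN → ℂ → ℂ := fun j k => Sum.elim (y j) (w j) ((φ j).symm k) with hy'
  obtain ⟨B, C, T₀, hC, hT₀, H⟩ := nf_genK (η := η) m n d (U := U) (y := y') (fun j k => by
      rcases h1 : (φ j).symm k with i | i
      · simp only [hy', h1]
        exact hy j i
      · simp only [hy', h1]
        exact hwa j i) (fun j t ht => LocInd.comp_inj (hwl j t ht) (φ j).symm.injective)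
    hK hKU hS A ε hε
  set f : (Σ j, κ j) → Fin n × Fin NN := fun x => (x.1, φ x.1 (Sum.inl x.2)) with hf
  have hfi : Function.Injective f := by
    rintro ⟨j, a⟩ ⟨j', b⟩ hab
    obtain ⟨h1, h2⟩ := Prod.ext_iff.1 hab
    change j = j' at h1
    subst h1
    exact congrArg (Sigma.mk j) (Sum.inl_injective ((φ j).injective h2))
  refine ⟨B, C, T₀, hC, hT₀, fun F _ _ hm io ξ T hT E hE => H F hm io ξ T hT E fun t ht => ?_⟩
  obtain ⟨h1, P, hPd, hPc, s₀, hs₀, hs⟩ := hE t ht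
  refine ⟨h1, rename f P, fun x => ?_, fun s => ?_, s₀.mapDomain f, ?_, ?_⟩
  · rw [degreeOf_le_iff]
    intro v hv
    rw [support_rename_of_injective hfi, Finset.mem_image] at hv
    obtain ⟨v', hv', rfl⟩ := hv
    by_cases hx : x ∈ Set.range f
    · obtain ⟨x', rfl⟩ := hx
      rw [Finsupp.mapDomain_apply hfi]
      exact degreeOf_le_iff.1 (hPd x') v' hv'
    · rw [Finsupp.mapDomain_of_notMem_range _ _ hx]
      exact Nat.zero_le _
  · by_cases hx : ∃ v, Finsupp.mapDomain f v = s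
    · obtain ⟨v, rfl⟩ := hx
      rw [coeff_rename_mapDomain f hfi]
      exact hPc v
    · refine ⟨fun _ => 0, fun i φ => ?_, ?_⟩
      · simp only [map_zero, norm_zero]
        exact Real.rpow_nonneg (by linarith) _
      · rw [coeff_rename_eq_zero f P s (fun u hu => absurd ⟨u, hu⟩ hx)]
        simp
  · rw [coeff_rename_mapDomain f hfi]
    exact hs₀
  · rw [coeff_rename_mapDomain f hfi, aeval_rename]
    refine le_trans (le_of_eq ?_) hs
    congr 2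
    apply MvPolynomial.algHom_ext
    rintro ⟨j, k⟩
    rw [aeval_X, aeval_X]
    change y' j (φ j (Sum.inl k)) (io (t j)) = y j k (io (t j))
    simp only [hy', Equiv.symm_apply_apply, Sum.elim_inl]

end Pool.Agent.Y776.Cv
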