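import Mathlib
import Pool.Agent.Y776.Fam.PtC
import Pool.Agent.Y776.Cv.Fix

/-!
# Arbitrary analytic families of lattices with points and exponents
-/

set_option autoImplicit false

open Filter Topology Set
open scoped PeriodPair

noncomputable section

namespace Pool.Agent.Y776.Cv

open H667R3 Pool.Agent.W245.EB Pool.Agent.TH813.Ell Pool.Agent.Y685 Pool.Agent.Y685.H2
open Pool.Agent.TH813.Rel (DF MK subset_cl rk_le_of_subset_cl mem_cl)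
open Pool.Agent.Y776 Pool.Agent.Y776.Fam
open Pool.Agent.Y124 (LocInd)

variable {U : Set ℂ} {Λ : ℂ → PeriodPair} {r s : ℕ}

/-- no logarithms of the sigma function -/
def S0 (k : Fin 0) (_ : ℂ) : ℂ := k.elim0

/-- a family of lattices with points and exponents -/
structure FxV (U : Set ℂ) (Λ : ℂ → PeriodPair) (u : Fin r → ℂ → ℂ) (l : Fin s → ℂ → ℂ) : Prop
    extends Fam.LF U Λ where
  nr : ∀ c : ℂ, ∃ z ∈ U, (Λ z).ω₂ / (Λ z).ω₁ ≠ c
  ua : ∀ i, AnalyticOnNhd ℂ (u i) U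
  un : ∀ i, ∀ z ∈ U, u i z ∉ (Λ z).lattice
  ui : IndP U Λ u
  la : ∀ k, AnalyticOnNhd ℂ (l k) U
  li : IndC U l

variable {u : Fin r → ℂ → ℂ} {l : Fin s → ℂ → ℂ} {ε : ℂ}

theorem FxV.nt_nonconst (h : FxV U Λ u l) (hε : ε = 1 ∨ ε = -1) (c : ℂ) :
    ∃ z ∈ U, nt ε (Λ z) ≠ c := by
  obtain ⟨z, hz, hne⟩ := h.nr (c / ε)
  refine ⟨z, hz, fun h1 => hne ?_⟩
  have h0 : ε ≠ 0 := by
    rcases hε with rfl | rfl
    · exact one_ne_zero
    · exact neg_ne_zero.2 one_ne_zero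
  rw [nt] at h1
  rw [← h1]
  field_simp

theorem famV_an (h : FxV U Λ u l) (hε : ε = 1 ∨ ε = -1) (him : ∀ z ∈ U, 0 < (nt ε (Λ z)).im)
    (k : Nm r s 0) : AnalyticOnNhd ℂ (fam ε Λ u l S0 k) U := by
  intro z hz
  have hL := h.toLF
  have hv : ∀ i, AnalyticAt ℂ (fun z => u i z / (Λ z).ω₁) z := fun i =>
    (h.ua i z hz).div (hL.an₁ z hz) (ω₁_ne_zero _)
  cases k with
  | z => exact analyticAt_id
  | tau => exact hL.an_nt ε hz
  | h =>
    refine an_of_diff (f := h1) ?_ (hL.an_nt ε hz)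
    filter_upwards [ev_im (him z hz)] with s hs
    exact diff_h1 hs
  | g2 =>
    refine an_of_diff (f := fun s => (LC s).g₂) ?_ (hL.an_nt ε hz)
    filter_upwards [ev_im (him z hz)] with s hs
    exact (diff_g hs).1
  | g3 =>
    refine an_of_diff (f := fun s => (LC s).g₃) ?_ (hL.an_nt ε hz)
    filter_upwards [ev_im (him z hz)] with s hs
    exact (diff_g hs).2
  | w => exact hL.an₁ z hz
  | v i => exact hv i
  | ze i =>
    exact (SH_zeta (him z hz) (nm_notMem hε (him z hz) (h.un i z hz))).comp_an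
      (f := fun t z => zeta (LC t) z) (a := fun z => nt ε (Λ z)) (hL.an_nt ε hz) (hv i)
  | wp i =>
    exact (SH_wp (him z hz) (nm_notMem hε (him z hz) (h.un i z hz))).comp_an
      (f := fun t z => ℘[LC t] z) (a := fun z => nt ε (Λ z)) (hL.an_nt ε hz) (hv i)
  | l k => exact h.la k z hz
  | e k => exact (h.la k z hz).cexp
  | S k => exact k.elim0


/-- almost all points are generic -/
theorem countable_GenV (h : FxV U Λ u l) (hε : ε = 1 ∨ ε = -1)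
    (him : ∀ z ∈ U, 0 < (nt ε (Λ z)).im) {F : IntermediateField ℚ ℂ}
    (hF : (F : Set ℂ).Countable) (hne : U.Nonempty) :
    {z | z ∈ U ∧ ¬ GenPt U Λ u l S0 ε F z}.Countable := by
  classical
  have hL := h.toLF
  have hFc : Countable F := hF.to_subtype
  have hτa : AnalyticOnNhd ℂ (fun z => nt ε (Λ z)) U := fun z hz => hL.an_nt ε hz
  have c1 : {z : ℂ | IsAlgebraic F z}.Countable := Algebraic.countable F ℂ
  have c2 := countable_Gn (κ := Nm r s 0) hL.conn hF (famV_an h hε him)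
  have c3 : {z | z ∈ U ∧ deriv (fun z => nt ε (Λ z)) z = 0}.Countable := by
    refine countable_zeros hL.conn hτa.deriv ?_
    by_contra hcon
    push Not at hcon
    obtain ⟨w, hw⟩ := hne
    obtain ⟨z, hz, hzne⟩ := h.nt_nonconst hε (nt ε (Λ w))
    exact hzne (hL.isOpen.is_const_of_deriv_eq_zero hL.conn
      (fun x hx => (hτa x hx).differentiableAt.differentiableWithinAt)
      (fun x hx => hcon x hx) hz hw)
  have c4 : {z | z ∈ U ∧ nt ε (Λ z) ∈ T0}.Countable := by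
    refine (T0_spec.1.biUnion (fun c _ => countable_zeros hL.conn
      (f := fun z => nt ε (Λ z) - c) (hτa.sub analyticOnNhd_const) ?_)).mono ?_
    · obtain ⟨z, hz, hzne⟩ := h.nt_nonconst hε c
      exact ⟨z, hz, sub_ne_zero.2 hzne⟩
    · rintro z ⟨hz, hT⟩
      exact mem_biUnion hT ⟨hz, sub_self _⟩
  have c5 := countable_p hL h.ua h.ui
  have hla : ∀ m : Fin s → ℤ, AnalyticOnNhd ℂ (fun z => ∑ k, (m k : ℂ) * l k z) U := fun m z hz =>
    Finset.analyticAt_fun_sum _ fun k _ => analyticAt_const.mul (h.la k z hz)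
  have c6 := countable_fam hL.conn (ι := {m : Fin s → ℤ // m ≠ 0})
    (fun m => deriv (fun z => ∑ k, (m.1 k : ℂ) * l k z)) (fun m => (hla m.1).deriv) (by
      rintro ⟨m, hm⟩
      by_contra hcon
      push Not at hcon
      obtain ⟨w, hw⟩ := hne
      apply hm
      refine h.li m (∑ k, (m k : ℂ) * l k w) (fun z hz => ?_)
      exact (hL.isOpen.is_const_of_deriv_eq_zero hL.conn
        (fun x hx => (hla m x hx).differentiableAt.differentiableWithinAt)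
        (fun x hx => hcon x hx) hz hw))
  refine ((((((c1.union c2).union c3).union c4).union c5).union c6)).mono ?_
  rintro z ⟨hz, hg⟩
  by_contra hcon
  simp only [mem_union, not_or] at hcon
  obtain ⟨⟨⟨⟨⟨d1, d2⟩, d3⟩, d4⟩, d5⟩, d6⟩ := hcon
  apply hg
  refine ⟨hz, d1, ?_, fun h0 => d3 ⟨hz, h0⟩, fun h0 => d4 ⟨hz, h0⟩, ?_, ?_⟩
  · by_contra hG
    exact d2 ⟨hz, hG⟩
  · intro n hn h0
    exact d5 ⟨hz, n, hn, h0⟩
  · intro m hm h0
    exact d6 ⟨hz, ⟨m, hm⟩, h0⟩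

/-- the compatibility of the derivation with the functions -/
theorem exists_cmpV (h : FxV U Λ u l) (hε : ε = 1 ∨ ε = -1)
    (him : ∀ z ∈ U, 0 < (nt ε (Λ z)).im) {F : IntermediateField ℚ ℂ} (hb : be0 ∈ F) {z₀ : ℂ}
    (g : GenPt U Λ u l S0 ε F z₀) : ∃ D : Derivation ℚ ℂ ℂ, (∀ c ∈ F, D c = 0) ∧ D z₀ ≠ 0 ∧
      Cmp k0 (nt ε (Λ z₀)) (fun i => u i z₀ / (Λ z₀).ω₁) D ∧ (∀ k, Tf D (l k z₀) = 0) ∧
      (∀ c : Fin s → ℚ, D (∑ k, c k • l k z₀) = 0 → c = 0) := by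
  classical
  have hL := h.toLF
  have hz := g.mem
  have hi0 := him z₀ hz
  have hfa := famV_an h hε him
  obtain ⟨D₀, hF, hD₀⟩ := exists_D hL.isOpen hz hfa g.gn
  set τ₀ := nt ε (Λ z₀) with hτ₀
  set τ' := deriv (fun z => nt ε (Λ z)) z₀ with hτ'
  have ht0 : τ' ≠ 0 := g.dt
  have hτ : HasDerivAt (fun z => nt ε (Λ z)) τ' z₀ :=
    (hL.an_nt ε hz).differentiableAt.hasDerivAt
  have hv : ∀ i, HasDerivAt (fun z => u i z / (Λ z).ω₁) (D₀ (u i z₀ / (Λ z₀).ω₁)) z₀ := by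
    intro i
    have h1 := (hfa (.v i) z₀ hz).differentiableAt.hasDerivAt
    have h2 := hD₀ (.v i)
    rw [← h2] at h1
    exact h1
  set D : Derivation ℚ ℂ ℂ := (1 / τ') • D₀ with hD
  have hDa : ∀ x, D x = D₀ x / τ' := by
    intro x
    rw [hD, Derivation.smul_apply, smul_eq_mul]
    ring
  have hDz : D₀ z₀ = 1 := by
    have h1 := hD₀ .z
    have h2 : deriv (fam ε Λ u l S0 .z) z₀ = 1 := (hasDerivAt_id z₀).deriv
    rw [h2] at h1
    exact h1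
  have hDτ : D₀ τ₀ = τ' := hD₀ .tau
  obtain ⟨a1, a2, a3, a4, a5⟩ := H2.task_A4 τ₀ hi0
  have hbe : be τ₀ ∈ F := by rw [be_eq hi0]; exact hb
  have hk : ∀ {k : Nm r s 0} {d : ℂ}, HasDerivAt (fam ε Λ u l S0 k) d z₀ →
      D (fam ε Λ u l S0 k z₀) = d / τ' := by
    intro k d hd
    rw [hDa, hD₀ k, hd.deriv]
  refine ⟨D, fun c hc => by rw [hDa, hF c hc, zero_div], ?_, ⟨?_, ?_, ?_, ?_, ?_, ?_, ?_, ?_⟩,
    ?_, ?_⟩
  · rw [hDa, hDz]
    exact div_ne_zero one_ne_zero ht0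
  · intro c hc
    have hk : k0 ≤ F.toSubfield := by
      rw [k0, Subfield.closure_le]
      rintro _ rfl
      exact hb
    rw [hDa, hF c (hk hc), zero_div]
  · rw [hDa, hDτ, div_self ht0]
  · have e1 : HasDerivAt (h1 ∘ fun z => nt ε (Λ z))
        ((be τ₀ * h1 τ₀ ^ 2 - be τ₀ * (LC τ₀).g₂ / 12) * τ') z₀ := a1.comp z₀ hτ
    have e2 : HasDerivAt (fam ε Λ u l S0 .h)
        ((be τ₀ * h1 τ₀ ^ 2 - be τ₀ * (LC τ₀).g₂ / 12) * τ') z₀ := e1
    have e3 := hk e2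
    rw [mul_div_cancel_right₀ _ ht0] at e3
    exact e3
  · have e1 : HasDerivAt ((fun s => (LC s).g₂) ∘ fun z => nt ε (Λ z))
        ((-4 * al τ₀ * (LC τ₀).g₂ - 6 * be τ₀ * (LC τ₀).g₃) * τ') z₀ := a2.comp z₀ hτ
    have e2 : HasDerivAt (fam ε Λ u l S0 .g2)
        ((-4 * al τ₀ * (LC τ₀).g₂ - 6 * be τ₀ * (LC τ₀).g₃) * τ') z₀ := e1
    have e3 := hk e2
    rw [mul_div_cancel_right₀ _ ht0] at e3
    exact e3
  · have e1 : HasDerivAt ((fun s => (LC s).g₃) ∘ fun z => nt ε (Λ z))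
        ((-6 * al τ₀ * (LC τ₀).g₃ - be τ₀ * (LC τ₀).g₂ ^ 2 / 3) * τ') z₀ := a3.comp z₀ hτ
    have e2 : HasDerivAt (fam ε Λ u l S0 .g3)
        ((-6 * al τ₀ * (LC τ₀).g₃ - be τ₀ * (LC τ₀).g₂ ^ 2 / 3) * τ') z₀ := e1
    have e3 := hk e2
    rw [mul_div_cancel_right₀ _ ht0] at e3
    exact e3
  · rw [hDa, hF _ hbe, zero_div]
  · intro i
    have hnm := nm_notMem hε hi0 (h.un i z₀ hz)
    have h1 := (H2.task_A1 τ₀ (u i z₀ / (Λ z₀).ω₁) hi0 hnm).comp_hasDerivAt z₀ (hτ.prodMk (hv i))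
    have h2 : HasDerivAt (fam ε Λ u l S0 (.ze i)) _ z₀ := h1
    rw [show zeta (LC τ₀) (u i z₀ / (Λ z₀).ω₁) = fam ε Λ u l S0 (.ze i) z₀ from rfl, hk h2, hDa]
    simp only [_root_.sub_apply, _root_.smul_apply,
      ContinuousLinearMap.coe_fst', ContinuousLinearMap.coe_snd', smul_eq_mul]
    change _ = al τ₀ * (u i z₀ / (Λ z₀).ω₁ * ℘[LC τ₀] (u i z₀ / (Λ z₀).ω₁) -
      zeta (LC τ₀) (u i z₀ / (Λ z₀).ω₁)) + be τ₀ * (℘'[LC τ₀] (u i z₀ / (Λ z₀).ω₁) / 2 +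
      zeta (LC τ₀) (u i z₀ / (Λ z₀).ω₁) * ℘[LC τ₀] (u i z₀ / (Λ z₀).ω₁) -
      (LC τ₀).g₂ / 12 * (u i z₀ / (Λ z₀).ω₁)) - ℘[LC τ₀] (u i z₀ / (Λ z₀).ω₁) *
      (D₀ (u i z₀ / (Λ z₀).ω₁) / τ')
    field_simp
  · intro i
    have hnm := nm_notMem hε hi0 (h.un i z₀ hz)
    have h1 := (H2.task_A2 τ₀ (u i z₀ / (Λ z₀).ω₁) hi0 hnm).comp_hasDerivAt z₀ (hτ.prodMk (hv i))
    have h2 : HasDerivAt (fam ε Λ u l S0 (.wp i)) _ z₀ := h1
    rw [show ℘[LC τ₀] (u i z₀ / (Λ z₀).ω₁) = fam ε Λ u l S0 (.wp i) z₀ from rfl, hk h2, hDa]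
    simp only [_root_.add_apply, _root_.smul_apply,
      ContinuousLinearMap.coe_fst', ContinuousLinearMap.coe_snd', smul_eq_mul]
    change _ = -2 * al τ₀ * ℘[LC τ₀] (u i z₀ / (Λ z₀).ω₁) + be τ₀ * ((LC τ₀).g₂ / 3 -
      2 * ℘[LC τ₀] (u i z₀ / (Λ z₀).ω₁) ^ 2) - (al τ₀ * (u i z₀ / (Λ z₀).ω₁) +
      be τ₀ * zeta (LC τ₀) (u i z₀ / (Λ z₀).ω₁)) * ℘'[LC τ₀] (u i z₀ / (Λ z₀).ω₁) +
      ℘'[LC τ₀] (u i z₀ / (Λ z₀).ω₁) * (D₀ (u i z₀ / (Λ z₀).ω₁) / τ')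
    field_simp
  · intro k
    have h1 : HasDerivAt (fam ε Λ u l S0 (.l k)) (deriv (l k) z₀) z₀ :=
      (h.la k z₀ hz).differentiableAt.hasDerivAt
    have h2 : HasDerivAt (fam ε Λ u l S0 (.e k)) (Complex.exp (l k z₀) * deriv (l k) z₀) z₀ :=
      HasDerivAt.cexp h1
    unfold Tf lg
    rw [show Complex.exp (l k z₀) = fam ε Λ u l S0 (.e k) z₀ from rfl, hk h2,
      show l k z₀ = fam ε Λ u l S0 (.l k) z₀ from rfl, hk h1]
    have h3 : fam ε Λ u l S0 (.e k) z₀ ≠ 0 := Complex.exp_ne_zero _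
    have h4 : Complex.exp (fam ε Λ u l S0 (.l k) z₀) = fam ε Λ u l S0 (.e k) z₀ := rfl
    rw [h4]
    field_simp
    ring
  · intro c hc
    by_contra hne
    obtain ⟨A, hA, m, hm⟩ := exists_den c
    have hm0 : m ≠ 0 := by
      rintro rfl
      apply hne
      funext i
      have h1 := hm i
      simp only [Pi.zero_apply, Int.cast_zero] at h1
      have hA' : (A : ℚ) ≠ 0 := by exact_mod_cast hA.ne'
      exact (mul_eq_zero.1 h1.symm).resolve_left hA'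
    apply g.li m hm0
    have h1 : HasDerivAt (fun z => ∑ k, (m k : ℂ) * l k z) (∑ k, (m k : ℂ) * D₀ (l k z₀)) z₀ := by
      refine HasDerivAt.fun_sum fun k _ => ?_
      have h2 : HasDerivAt (fam ε Λ u l S0 (.l k)) (D₀ (l k z₀)) z₀ := by
        have h3 := (hfa (.l k) z₀ hz).differentiableAt.hasDerivAt
        rw [← hD₀ (.l k)] at h3
        exact h3
      exact h2.const_mul _
    rw [h1.deriv]
    rw [hDa, div_eq_zero_iff] at hc
    have h3 := hc.resolve_right ht0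
    rw [map_sum] at h3
    have h4 : ∑ k, (m k : ℂ) * D₀ (l k z₀) = A * ∑ k, D₀ (c k • l k z₀) := by
      rw [Finset.mul_sum]
      refine Finset.sum_congr rfl fun k _ => ?_
      have h2 : (m k : ℂ) = A * c k := by exact_mod_cast congrArg (fun t : ℚ => (t : ℂ)) (hm k)
      rw [h2, D₀.map_smul, Rat.smul_def]
      ring
    rw [h4, h3, mul_zero]

/-- names of the functions -/
abbrev Nv (r s : ℕ) : Type := Fin 5 ⊕ (Fin r ⊕ (Fin r ⊕ (Fin r ⊕ (Fin s ⊕ Fin s))))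

/-- the functions -/
def yv (Λ : ℂ → PeriodPair) (u : Fin r → ℂ → ℂ) (l : Fin s → ℂ → ℂ) : Nv r s → ℂ → ℂ :=
  Sum.elim (fun j z => ![(Λ z).ω₁, (Λ z).ω₂, eta (Λ z) (Λ z).ω₁, (Λ z).g₂, (Λ z).g₃] j)
    (Sum.elim u (Sum.elim (fun i z => zeta (Λ z) (u i z)) (Sum.elim (fun i z => ℘[Λ z] (u i z))
      (Sum.elim l (fun k z => Complex.exp (l k z))))))

theorem yv_an (h : FxV U Λ u l) (i : Nv r s) : AnalyticOnNhd ℂ (yv Λ u l i) U := by
  have hL := h.toLF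
  rcases i with j | i | i | i | k | k
  · fin_cases j
    · exact hL.an₁
    · exact hL.an₂
    · exact hL.an_eta
    · exact hL.an_g₂
    · exact hL.an_g₃
  · exact h.ua i
  · exact hL.an_zeta (h.ua i) (h.un i)
  · exact hL.an_wp (h.ua i) (h.un i)
  · exact h.la k
  · exact fun z hz => (h.la k z hz).cexp

/-- **the rank at a generic point** -/
theorem rank_GenV (h : FxV U Λ u l) (hε : ε = 1 ∨ ε = -1)
    (him : ∀ z ∈ U, 0 < (nt ε (Λ z)).im) {F : IntermediateField ℚ ℂ} (hb : be0 ∈ F) {z₀ : ℂ}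
    (g : GenPt U Λ u l S0 ε F z₀) :
    ((4 + (s + 2 * r) : ℕ) : ℕ∞) ≤ (MK F).eRk (Set.range fun i => yv Λ u l i z₀) := by
  classical
  obtain ⟨D, hDF, hDz, hcmp, hTf, hli⟩ := exists_cmpV h hε him hb g
  have hz := g.mem
  have hi0 := him z₀ hz
  have hHm := Hm_nt (Λ z₀) hε hi0
  have hω := ω₁_ne_zero (Λ z₀)
  set τ₀ := nt ε (Λ z₀) with hτ₀
  set v₀ : Fin r → ℂ := fun i => u i z₀ / (Λ z₀).ω₁ with hv₀
  -- independence modulo periods
  have hind : ∀ n : Fin r → ℤ, n ≠ 0 → ∑ i, (n i : ℂ) * v₀ i ∉ (LC τ₀).lattice := by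
    intro n hn
    have h1 := nm_notMem hε hi0 (g.pi n hn)
    have h2 : ∑ i, (n i : ℂ) * v₀ i = (∑ i, (n i : ℂ) * u i z₀) / (Λ z₀).ω₁ := by
      rw [Finset.sum_div]
      exact Finset.sum_congr rfl fun i _ => by rw [hv₀]; ring
    rw [h2]
    exact h1
  have hz2 : ∀ i, 2 * v₀ i ∉ (LC τ₀).lattice := by
    intro i
    have h1 := hind (Pi.single i 2) (by
      intro h0
      have := congrFun h0 i
      rw [Pi.single_eq_same] at this
      exact two_ne_zero this)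
    rw [Finset.sum_eq_single i] at h1
    · rw [Pi.single_eq_same] at h1
      exact_mod_cast h1
    · intro j _ hj
      rw [Pi.single_eq_of_ne hj]
      simp
    · intro h; exact absurd (Finset.mem_univ i) h
  have hzq : ∀ c : Fin r → ℚ, ∀ a b : ℚ, ∑ i, (c i : ℂ) * v₀ i = a + b * τ₀ → c = 0 := by
    intro c a b hc
    by_contra hne
    obtain ⟨A, hA, m, hm⟩ := exists_den (n := r + 2) (Fin.append c ![a, b])
    have hA' : (A : ℚ) ≠ 0 := by exact_mod_cast hA.ne'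
    have m1 : ∀ i : Fin r, (m (Fin.castAdd 2 i) : ℚ) = A * c i := fun i => by
      rw [hm, Fin.append_left]
    have m2 : (m (Fin.natAdd r 0) : ℚ) = A * a := by
      rw [hm, Fin.append_right]; rfl
    have m3 : (m (Fin.natAdd r 1) : ℚ) = A * b := by
      rw [hm, Fin.append_right]; rfl
    apply hind (fun i => m (Fin.castAdd 2 i))
    · intro h0
      apply hne
      funext i
      have h1 := m1 i
      rw [show m (Fin.castAdd 2 i) = 0 from congrFun h0 i, Int.cast_zero] at h1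
      exact (mul_eq_zero.1 h1.symm).resolve_left hA'
    · rw [mem_LC hi0]
      refine ⟨m (Fin.natAdd r 0), m (Fin.natAdd r 1), ?_⟩
      have e1 : (m (Fin.natAdd r 0) : ℂ) = A * a := by exact_mod_cast congrArg (fun t : ℚ => (t : ℂ)) m2
      have e2 : (m (Fin.natAdd r 1) : ℂ) = A * b := by exact_mod_cast congrArg (fun t : ℚ => (t : ℂ)) m3
      have e3 : ∑ i, (m (Fin.castAdd 2 i) : ℂ) * v₀ i = A * ∑ i, (c i : ℂ) * v₀ i := by
        rw [Finset.mul_sum]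
        refine Finset.sum_congr rfl fun i _ => ?_
        have h2 : (m (Fin.castAdd 2 i) : ℂ) = A * c i := by
          exact_mod_cast congrArg (fun t : ℚ => (t : ℂ)) (m1 i)
        rw [h2]
        ring
      rw [e1, e2, e3, hc]
      ring
  -- the normalized data
  have hai := T0_spec.2 τ₀ hi0 g.T0
  have hbk : be τ₀ ∈ k0 := by
    rw [be_eq hi0]
    exact Subfield.subset_closure rfl
  have hg20 : (LC τ₀).g₂ ≠ 0 := hai.ne_zero 2
  obtain ⟨l₀, hl⟩ := IsAlgClosed.exists_pow_nat_eq ((LC τ₀).g₃ / (LC τ₀).g₂) (n := 2) two_pos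
  have hl' : l₀ ^ 2 * (LC τ₀).g₂ = (LC τ₀).g₃ := by
    rw [hl]
    field_simp
  have hG : Pool.Agent.Y685.Gp k0 τ₀ l₀ v₀ D := ⟨hi0, hbk, hai, hcmp, hl'⟩
  have hrank := rank_gp noBad (F := Cst D) hG (fun x hx => hx) hTf hli hz2 hzq
  have hFC : F ≤ Cst D := fun x hx => hDF x hx
  refine le_trans (hrank.trans (rk_le_of_subset_cl ?_)) (eRk_anti hFC _)
  intro x hx
  rw [← mem_clo_iff]
  have hl0 := hG.l0
  have mO : ∀ i : Nv r s, yv Λ u l i z₀ ∈ clo (Cst D) (Set.range fun i => yv Λ u l i z₀) :=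
    fun i => subset_clo ⟨i, rfl⟩
  have y1 : (Λ z₀).ω₁ ∈ clo (Cst D) (Set.range fun i => yv Λ u l i z₀) := mO (Sum.inl 0)
  have y2 : (Λ z₀).ω₂ ∈ clo (Cst D) (Set.range fun i => yv Λ u l i z₀) := mO (Sum.inl 1)
  have y3 : eta (Λ z₀) (Λ z₀).ω₁ ∈ clo (Cst D) (Set.range fun i => yv Λ u l i z₀) := mO (Sum.inl 2)
  have y4 : (Λ z₀).g₂ ∈ clo (Cst D) (Set.range fun i => yv Λ u l i z₀) := mO (Sum.inl 3)
  have y5 : (Λ z₀).g₃ ∈ clo (Cst D) (Set.range fun i => yv Λ u l i z₀) := mO (Sum.inl 4)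
  have y6 : ∀ i, u i z₀ ∈ clo (Cst D) (Set.range fun i => yv Λ u l i z₀) := fun i =>
    mO (Sum.inr (Sum.inl i))
  have y7 : ∀ i, zeta (Λ z₀) (u i z₀) ∈ clo (Cst D) (Set.range fun i => yv Λ u l i z₀) := fun i =>
    mO (Sum.inr (Sum.inr (Sum.inl i)))
  have y8 : ∀ i, ℘[Λ z₀] (u i z₀) ∈ clo (Cst D) (Set.range fun i => yv Λ u l i z₀) := fun i =>
    mO (Sum.inr (Sum.inr (Sum.inr (Sum.inl i))))
  have y9 : ∀ k, l k z₀ ∈ clo (Cst D) (Set.range fun i => yv Λ u l i z₀) := fun k =>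
    mO (Sum.inr (Sum.inr (Sum.inr (Sum.inr (Sum.inl k)))))
  have y10 : ∀ k, Complex.exp (l k z₀) ∈ clo (Cst D) (Set.range fun i => yv Λ u l i z₀) := fun k =>
    mO (Sum.inr (Sum.inr (Sum.inr (Sum.inr (Sum.inr k)))))
  have hΛ2 : (Λ z₀).g₂ = (LC τ₀).g₂ / (Λ z₀).ω₁ ^ 4 := hHm.g₂
  have hΛ3 : (Λ z₀).g₃ = (LC τ₀).g₃ / (Λ z₀).ω₁ ^ 6 := hHm.g₃
  have yε : ε ∈ clo (Cst D) (Set.range fun i => yv Λ u l i z₀) := by
    rcases hε with rfl | rfl
    · exact one_mem _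
    · exact neg_mem (one_mem _)
  have t1 : τ₀ ∈ clo (Cst D) (Set.range fun i => yv Λ u l i z₀) := by
    have e1 : τ₀ = ε * ((Λ z₀).ω₂ / (Λ z₀).ω₁) := by
      rw [hτ₀, nt]
    rw [e1]
    exact mul_mem yε (div_mem y2 y1)
  have t2 : h1 τ₀ ∈ clo (Cst D) (Set.range fun i => yv Λ u l i z₀) := by
    have e2 := hHm.eta (one_mem hi0)
    rw [mul_one] at e2
    have e3 : h1 τ₀ = eta (Λ z₀) (Λ z₀).ω₁ * (Λ z₀).ω₁ := by
      rw [e2]
      change h1 τ₀ = h1 τ₀ / (Λ z₀).ω₁ * (Λ z₀).ω₁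
      field_simp
    rw [e3]
    exact mul_mem y3 y1
  have t3 : (LC τ₀).g₂ ∈ clo (Cst D) (Set.range fun i => yv Λ u l i z₀) := by
    have e1 : (LC τ₀).g₂ = (Λ z₀).g₂ * (Λ z₀).ω₁ ^ 4 := by
      rw [hΛ2]
      field_simp
    rw [e1]
    exact mul_mem y4 (pow_mem y1 4)
  have t4 : (LC τ₀).g₃ ∈ clo (Cst D) (Set.range fun i => yv Λ u l i z₀) := by
    have e1 : (LC τ₀).g₃ = (Λ z₀).g₃ * (Λ z₀).ω₁ ^ 6 := by
      rw [hΛ3]
      field_simp
    rw [e1]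
    exact mul_mem y5 (pow_mem y1 6)
  have t5 : l₀ ∈ clo (Cst D) (Set.range fun i => yv Λ u l i z₀) := by
    apply sq_clo hl0
    rw [hl]
    exact div_mem t4 t3
  rcases hx with ⟨i, rfl⟩ | (⟨i, rfl⟩ | ⟨i, rfl⟩) | (⟨i, rfl⟩ | ⟨i, rfl⟩ | ⟨i, rfl⟩)
  · fin_cases i
    · exact t1
    · exact t2
    · exact t3
    · exact t4
  · exact y9 i
  · exact y10 i
  · change l₀ * (u i z₀ / (Λ z₀).ω₁) ∈ _
    exact mul_mem t5 (div_mem (y6 i) y1)
  · have hnm : v₀ i ∉ (LC τ₀).lattice := two_mul_notMem_of _ (hz2 i)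
    have e1 : zt hG.Lh (l₀ * v₀ i) = zeta (Λ z₀) (u i z₀) * (Λ z₀).ω₁ / l₀ := by
      have e2 : zt hG.Lh (l₀ * v₀ i) = zeta (LC τ₀) (v₀ i) / l₀ := by
        rw [hG.hm.zt, zt_of_notMem hnm]
      have e3 := hHm.zeta (v₀ i)
      rw [hv₀, mul_div_cancel₀ _ hω] at e3
      rw [e2, e3]
      change zeta (LC τ₀) (v₀ i) / l₀ = zeta (LC τ₀) (v₀ i) / (Λ z₀).ω₁ * (Λ z₀).ω₁ / l₀
      field_simp
    change zt hG.Lh (l₀ * v₀ i) ∈ _
    rw [e1]
    exact div_mem (mul_mem (y7 i) y1) t5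
  · have e1 : ℘[hG.Lh] (l₀ * v₀ i) = ℘[LC τ₀] (v₀ i) / l₀ ^ 2 := hG.hm.wp _
    have e2 : ℘[Λ z₀] (u i z₀) = ℘[LC τ₀] (v₀ i) / (Λ z₀).ω₁ ^ 2 := by
      have := hHm.wp (v₀ i)
      rw [hv₀, mul_div_cancel₀ _ hω] at this
      exact this
    have e3 : ℘[hG.Lh] (l₀ * v₀ i) = ℘[Λ z₀] (u i z₀) * (Λ z₀).ω₁ ^ 2 / l₀ ^ 2 := by
      rw [e1, e2]
      field_simp
    change ℘[hG.Lh] (l₀ * v₀ i) ∈ _
    rw [e3]
    exact div_mem (mul_mem (y8 i) (pow_mem y1 2)) (pow_mem t5 2)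

/-- a common field and a generic point -/
theorem FxV.exists_gen (h : FxV U Λ u l) (hne : U.Nonempty) {T : Set ℂ} (hT : T.Countable) :
    ∃ (F : IntermediateField ℚ ℂ) (z₀ : ℂ), (F : Set ℂ).Countable ∧ T ⊆ F ∧ z₀ ∈ U ∧
      ¬ IsAlgebraic F z₀ ∧
      ((4 + (s + 2 * r) : ℕ) : ℕ∞) ≤ (MK F).eRk (Set.range fun i => yv Λ u l i z₀) := by
  obtain ⟨ε, hε, him⟩ := h.toLF.exists_eps
  obtain ⟨F, hFc, hF⟩ := exists_cf (T := {be0} ∪ T) ((Set.countable_singleton _).union hT)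
  obtain ⟨z₀, hz₀, hnot⟩ := exists_notMem h.isOpen hne (countable_GenV h hε him hFc hne)
  have g : GenPt U Λ u l S0 ε F z₀ := by
    by_contra hcon
    exact hnot ⟨hz₀, hcon⟩
  exact ⟨F, z₀, hFc, fun x hx => hF (Or.inr hx), hz₀, g.tr,
    rank_GenV h hε him (hF (Or.inl rfl)) g⟩

/-- **the independent subfamily** -/
theorem var_sub (h : FxV U Λ u l) (hne : U.Nonempty) :
    ∃ e : Fin (3 + (s + 2 * r)) → Nv r s, Function.Injective e ∧
      ∀ t ∈ U, LocInd (fun k => yv Λ u l (e k)) t := by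
  classical
  obtain ⟨zs, hzs⟩ := hne
  obtain ⟨F, z₀, hFc, hF, hz₀, htr, hr⟩ := h.exists_gen ⟨zs, hzs⟩ (TS_countable (yv Λ u l) zs)
  refine exists_sub h.conn h.isOpen (yv_an h) hzs hF hz₀ htr ?_
  have h1 : 3 + (s + 2 * r) + 1 = 4 + (s + 2 * r) := by ring
  rw [h1]
  exact hr.trans ((MK F).eRk_mono (Set.subset_insert _ _))

end Pool.Agent.Y776.Cv
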