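import Mathlib
import Pool.Agent.Y776.Cv.GenK

/-!
# Families which are locally rational functions of independent functions: no new relations at the points of number fields
-/

set_option autoImplicit false

open Filter Topology Set NumberField MvPolynomial

noncomputable section

namespace Pool.Agent.Y776.Cv

open Pool.Agent.Y124 (LocInd)

section subst

variable {V κ : Type} [Fintype V] [DecidableEq V] {d : ℕ}

/-- the exponents -/
def exf (s : V → Fin (d + 1)) : V →₀ ℕ := Finsupp.equivFunOnFinite.symm fun v => (s v : ℕ)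

omit [DecidableEq V] in
theorem exf_apply (s : V → Fin (d + 1)) (v : V) : exf s v = s v := rfl

omit [DecidableEq V] in
theorem exf_inj : Function.Injective (exf : (V → Fin (d + 1)) → (V →₀ ℕ)) := by
  intro s t h
  funext v
  apply Fin.ext
  have := DFunLike.congr_fun h v
  exact this

theorem eval_exf {P : MvPolynomial V ℂ} (hP : ∀ v, P.degreeOf v ≤ d) (y : V → ℂ) :
    eval y P = ∑ s : V → Fin (d + 1), P.coeff (exf s) * ∏ v, y v ^ (s v : ℕ) := by
  classical
  rw [eval_eq']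
  have h1 : ∑ s : V → Fin (d + 1), P.coeff (exf s) * ∏ v, y v ^ (s v : ℕ) =
      ∑ u ∈ Finset.univ.image (exf : (V → Fin (d + 1)) → (V →₀ ℕ)), P.coeff u * ∏ v, y v ^ u v := by
    rw [Finset.sum_image (fun a _ b _ h => exf_inj h)]
    rfl
  rw [h1]
  apply Finset.sum_subset
  · intro u hu
    rw [Finset.mem_image]
    refine ⟨fun v => ⟨u v, Nat.lt_succ_of_le (degreeOf_le_iff.1 (hP v) u hu)⟩, Finset.mem_univ _, ?_⟩
    ext v
    rfl
  · intro u _ hu
    rw [notMem_support_iff.1 hu, zero_mul]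

variable (num den : V → MvPolynomial κ ℂ)

/-- the numerator of a monomial -/
def Rs (d : ℕ) (s : V → Fin (d + 1)) : MvPolynomial κ ℂ :=
  ∏ v, (num v ^ (s v : ℕ) * den v ^ (d - s v))

/-- the substitution -/
def Pt (d : ℕ) (P : MvPolynomial V ℂ) : MvPolynomial κ ℂ :=
  ∑ s : V → Fin (d + 1), C (P.coeff (exf s)) * Rs num den d s

variable {num den}

theorem eval_Pt {P : MvPolynomial V ℂ} (hP : ∀ v, P.degreeOf v ≤ d) {x : κ → ℂ} {y : V → ℂ}
    (h : ∀ v, eval x (num v) = eval x (den v) * y v) :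
    eval x (Pt num den d P) = (∏ v, eval x (den v) ^ d) * eval y P := by
  rw [Pt, map_sum, eval_exf hP, Finset.mul_sum]
  refine Finset.sum_congr rfl fun s _ => ?_
  rw [map_mul, eval_C, Rs, map_prod]
  have h1 : ∏ v, eval x (num v ^ (s v : ℕ) * den v ^ (d - s v)) =
      (∏ v, eval x (den v) ^ d) * ∏ v, y v ^ (s v : ℕ) := by
    rw [← Finset.prod_mul_distrib]
    refine Finset.prod_congr rfl fun v _ => ?_
    rw [map_mul, map_pow, map_pow, h v, mul_pow]
    have h2 : eval x (den v) ^ d = eval x (den v) ^ (s v : ℕ) * eval x (den v) ^ (d - s v) := by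
      rw [← pow_add]
      congr 1
      have := (s v).2
      omega
    rw [h2]
    ring
  rw [h1]
  ring

/-- the bound for the degree -/
def dg (num den : V → MvPolynomial κ ℂ) (d : ℕ) : ℕ := ∑ s : V → Fin (d + 1), (Rs num den d s).totalDegree

theorem degreeOf_Pt (P : MvPolynomial V ℂ) (x : κ) : (Pt num den d P).degreeOf x ≤ dg num den d := by
  classical
  rw [Pt]
  refine (degreeOf_sum_le x _ _).trans (Finset.sup_le fun s _ => ?_)
  refine (degreeOf_C_mul_le _ x _).trans ((degreeOf_le_totalDegree _ x).trans ?_)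
  exact Finset.single_le_sum (f := fun s => (Rs num den d s).totalDegree) (fun _ _ => Nat.zero_le _)
    (Finset.mem_univ s)

/-- the coefficients of the substituted polynomial -/
theorem coeff_Pt [Fintype κ] [DecidableEq κ] {η : Type} [Fintype η] {F : Type} [Field F] [NumberField F]
    (io : F →+* ℂ) (ξ : η → ℂ) {b : ℝ} (hb : 0 ≤ b) {P : MvPolynomial V ℂ}
    (hP : ∀ s, ∃ c : η → 𝓞 F, (∀ i (φ : F →+* ℂ), ‖φ (c i : F)‖ ≤ b) ∧
      P.coeff s = ∑ i, ξ i * io (c i : F)) {D : ℕ} (hD : dg num den d ≤ D) (u : κ →₀ ℕ) :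
    ∃ c : (V → Fin (d + 1)) × ((κ → Fin (D + 1)) × η) → 𝓞 F,
      (∀ i (φ : F →+* ℂ), ‖φ (c i : F)‖ ≤ b) ∧
      (Pt num den d P).coeff u =
        ∑ i, ((Rs num den d i.1).coeff (exf i.2.1) * ξ i.2.2) * io (c i : F) := by
  classical
  choose c hc hPc using fun s : V → Fin (d + 1) => hP (exf s)
  by_cases hu : ∃ w : κ → Fin (D + 1), exf w = u
  · obtain ⟨w, rfl⟩ := hu
    refine ⟨fun i => if i.2.1 = w then c i.1 i.2.2 else 0, fun i φ => ?_, ?_⟩
    · by_cases h : i.2.1 = w
      · simp only [if_pos h]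
        exact hc _ _ _
      · simp only [if_neg h, map_zero, norm_zero]
        exact hb
    · rw [Pt, coeff_sum, Fintype.sum_prod_type]
      refine Finset.sum_congr rfl fun s _ => ?_
      rw [Fintype.sum_prod_type, Finset.sum_eq_single w]
      · rw [coeff_C_mul, hPc, Finset.sum_mul]
        refine Finset.sum_congr rfl fun i _ => ?_
        simp only [if_true]
        ring
      · intro w' _ hw'
        refine Finset.sum_eq_zero fun i _ => ?_
        simp only [if_neg hw', map_zero, mul_zero]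
      · intro h
        exact absurd (Finset.mem_univ w) h
  · refine ⟨fun _ => 0, fun i φ => ?_, ?_⟩
    · simp only [map_zero, norm_zero]
      exact hb
    · simp only [map_zero, mul_zero, Finset.sum_const_zero]
      by_contra hne
      apply hu
      have h1 : u ∈ (Pt num den d P).support := mem_support_iff.2 hne
      refine ⟨fun x => ⟨u x, Nat.lt_succ_of_le
        ((degreeOf_le_iff.1 ((degreeOf_Pt P x).trans hD)) u h1)⟩, ?_⟩
      ext x
      rfl

end subst

/-- the data of a local parametrisation by independent functions -/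
structure Chart {V : Type} (y : V → ℂ → ℂ) (U : Set ℂ) (z₀ : ℂ) where
  W : Set ℂ
  κ : Type
  fin : Fintype κ
  f : κ → ℂ → ℂ
  num : V → MvPolynomial κ ℂ
  den : V → MvPolynomial κ ℂ
  isOpen : IsOpen W
  conn : IsPreconnected W
  mem : z₀ ∈ W
  sub : W ⊆ U
  an : ∀ i, AnalyticOnNhd ℂ (f i) W
  ind : ∀ t ∈ W, LocInd f t
  ne : ∀ v, ∀ z ∈ W, eval (fun i => f i z) (den v) ≠ 0
  eq : ∀ v, ∀ z ∈ W, eval (fun i => f i z) (num v) = eval (fun i => f i z) (den v) * y v z

/-- the identity theorem in several variables -/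
theorem multi_identity {n : ℕ} {V : Fin n → Type} [∀ j, Fintype (V j)] {U W : Fin n → Set ℂ}
    (hc : ∀ j, IsPreconnected (U j)) {y : ∀ j, V j → ℂ → ℂ}
    (hy : ∀ j v, AnalyticOnNhd ℂ (y j v) (U j)) (hW : ∀ j, IsOpen (W j)) (hWn : ∀ j, (W j).Nonempty)
    (hWU : ∀ j, W j ⊆ U j) (P : MvPolynomial (Σ j, V j) ℂ)
    (h : ∀ z : Fin n → ℂ, (∀ j, z j ∈ W j) → eval (fun x : Σ j, V j => y x.1 x.2 (z x.1)) P = 0)
    (z : Fin n → ℂ) (hz : ∀ j, z j ∈ U j) :
    eval (fun x : Σ j, V j => y x.1 x.2 (z x.1)) P = 0 := by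
  classical
  have key : ∀ J : Finset (Fin n), ∀ z : Fin n → ℂ, (∀ j, z j ∈ U j) → (∀ j ∉ J, z j ∈ W j) →
      eval (fun x : Σ j, V j => y x.1 x.2 (z x.1)) P = 0 := by
    intro J
    induction J using Finset.induction_on with
    | empty => exact fun z _ hz => h z fun j => hz j (Finset.notMem_empty j)
    | insert j₀ J hj₀ ih =>
      intro z hzU hzW
      have h1 : AnalyticOnNhd ℂ (fun w => eval (fun x : Σ j, V j =>
          y x.1 x.2 ((Function.update z j₀ w) x.1)) P) (U j₀) := by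
        intro w hw
        refine an_eval (y := fun (x : Σ j, V j) w => y x.1 x.2 ((Function.update z j₀ w) x.1)) ?_ P
        rintro ⟨j, v⟩
        by_cases hj : j = j₀
        · subst hj
          simp only [Function.update_self]
          exact hy j v w hw
        · simp only [Function.update_of_ne hj]
          exact analyticAt_const
      obtain ⟨w₀, hw₀⟩ := hWn j₀
      have h2 : (fun w => eval (fun x : Σ j, V j =>
          y x.1 x.2 ((Function.update z j₀ w) x.1)) P) =ᶠ[𝓝 w₀] 0 := by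
        filter_upwards [(hW j₀).mem_nhds hw₀] with w hw
        refine ih (Function.update z j₀ w) (fun j => ?_) (fun j hj => ?_)
        · by_cases hj : j = j₀
          · subst hj
            rw [Function.update_self]
            exact hWU j hw
          · rw [Function.update_of_ne hj]
            exact hzU j
        · by_cases hj' : j = j₀
          · subst hj'
            rw [Function.update_self]
            exact hw
          · rw [Function.update_of_ne hj']
            exact hzW j (by rw [Finset.mem_insert, not_or]; exact ⟨hj', hj⟩)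
      have h3 := AnalyticOnNhd.eqOn_zero_of_preconnected_of_eventuallyEq_zero h1 (hc j₀)
        (hWU j₀ hw₀) h2 (hzU j₀)
      simp only [Function.update_eq_self, Pi.zero_apply] at h3
      exact h3
  exact key Finset.univ z hz fun j hj => absurd (Finset.mem_univ j) hj

/-- **no new relations at the points of number fields** -/
theorem nf_rat {η : Type} [Fintype η] [DecidableEq η] (m n d : ℕ) {V : Fin n → Type}
    [∀ j, Fintype (V j)] {U : Fin n → Set ℂ} (hc : ∀ j, IsPreconnected (U j))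
    {y : ∀ j, V j → ℂ → ℂ} (hy : ∀ j v, AnalyticOnNhd ℂ (y j v) (U j))
    (hch : ∀ j, ∀ z ∈ U j, Nonempty (Chart (y j) (U j) z)) {K : Set ℂ} (hK : IsCompact K)
    (hKU : ∀ j, K ⊆ U j) (A ε : ℝ) (hε : 0 < ε) :
    ∃ C T₀ : ℝ, 0 ≤ C ∧ 2 ≤ T₀ ∧ ∀ (F : Type) [Field F] [NumberField F],
      Module.finrank ℚ F ≤ m → ∀ (io : F →+* ℂ) (ξ : η → ℂ) (T : ℝ), T₀ ≤ T →
      ∀ E : Set (Fin n → F), (∀ t ∈ E, (∀ j, Y120.HtLe F T (t j) ∧ io (t j) ∈ K) ∧
        ∃ P : MvPolynomial (Σ j, V j) ℂ, (∀ x, P.degreeOf x ≤ d) ∧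
        (∀ s, ∃ c : η → 𝓞 F, (∀ i (φ : F →+* ℂ), ‖φ (c i : F)‖ ≤ T ^ A) ∧
          P.coeff s = ∑ i, ξ i * io (c i : F)) ∧
        eval (fun x : Σ j, V j => y x.1 x.2 (io (t x.1))) P = 0 ∧
        ∃ z : Fin n → ℂ, (∀ j, z j ∈ U j) ∧ eval (fun x : Σ j, V j => y x.1 x.2 (z x.1)) P ≠ 0) →
      E.Finite ∧ (E.ncard : ℝ) ≤
        C * T ^ ε * (({x : F | Y120.HtLe F T x ∧ io x ∈ K}.ncard : ℝ)) ^ (n - 1) := by
  classical
  -- the charts
  let ch : ∀ j (z : K), Chart (y j) (U j) z := fun j z => (hch j z (hKU j z.2)).some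
  have hr : ∀ j (z : K), ∃ r : ℝ, 0 < r ∧ Metric.closedBall (z : ℂ) r ⊆ (ch j z).W := fun j z => by
    obtain ⟨r, hr, h1⟩ := Metric.isOpen_iff.1 (ch j z).isOpen z (ch j z).mem
    exact ⟨r / 2, by positivity, (Metric.closedBall_subset_ball (by linarith)).trans h1⟩
  choose r hr0 hr using hr
  have hcov : ∀ j, ∃ t : Finset K, K ⊆ ⋃ x ∈ t, Metric.ball (x : ℂ) (r j x) := fun j => by
    obtain ⟨t, ht⟩ := hK.elim_nhds_subcover' (fun x hx => Metric.ball x (r j ⟨x, hx⟩))
      (fun x hx => Metric.ball_mem_nhds x (hr0 j ⟨x, hx⟩))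
    exact ⟨t, ht⟩
  choose I hI using hcov
  let cc : ∀ c : (∀ j, I j), ∀ j, Chart (y j) (U j) ((c j : K) : ℂ) := fun c j => ch j (c j)
  let Kc : ∀ c : (∀ j, I j), Fin n → Set ℂ := fun c j =>
    K ∩ Metric.closedBall (((c j : K) : ℂ)) (r j (c j))
  have hfin : ∀ c j, Fintype (cc c j).κ := fun c j => (cc c j).fin
  let κ' : (∀ j, I j) → Type := fun c => Σ j, (cc c j).κ
  let num' : ∀ c, (Σ j, V j) → MvPolynomial (κ' c) ℂ := fun c x =>
    rename (Sigma.mk x.1) ((cc c x.1).num x.2)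
  let den' : ∀ c, (Σ j, V j) → MvPolynomial (κ' c) ℂ := fun c x =>
    rename (Sigma.mk x.1) ((cc c x.1).den x.2)
  let D : (∀ j, I j) → ℕ := fun c => dg (num' c) (den' c) d
  have main := fun c : (∀ j, I j) => nf_genSK
    (η := ((Σ j, V j) → Fin (d + 1)) × ((κ' c → Fin (D c + 1)) × η)) m n (D c)
    (κ := fun j => (cc c j).κ) (U := fun j => (cc c j).W) (fun j => (cc c j).isOpen)
    (fun j => (cc c j).conn) (y := fun j => (cc c j).f) (fun j => (cc c j).an) (fun j => (cc c j).ind)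
    (K := Kc c) (fun j => hK.inter_right Metric.isClosed_closedBall)
    (fun j => Set.inter_subset_right.trans (hr j (c j))) (S := K) (fun j => Set.inter_subset_left)
    A ε hε
  choose B C T₀ hC hT₀ H using main
  refine ⟨∑ c, C c, 2 + ∑ c, T₀ c, Finset.sum_nonneg fun c _ => hC c, ?_, ?_⟩
  · have : 0 ≤ ∑ c, T₀ c := Finset.sum_nonneg fun c _ => by linarith [hT₀ c]
    linarith
  intro F _ _ hm io ξ T hT E hE
  have hT' : ∀ c, T₀ c ≤ T := fun c => by
    have h1 := Finset.single_le_sum (f := T₀) (fun c _ => by linarith [hT₀ c]) (Finset.mem_univ c)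
    linarith
  have hT2 : 0 ≤ T := by
    have : 0 ≤ ∑ c, T₀ c := Finset.sum_nonneg fun c _ => by linarith [hT₀ c]
    linarith
  let Ec : (∀ j, I j) → Set (Fin n → F) := fun c => {t | t ∈ E ∧ ∀ j, io (t j) ∈ Kc c j}
  have hEc : ∀ c, (Ec c).Finite ∧ ((Ec c).ncard : ℝ) ≤
      C c * T ^ ε * (({x : F | Y120.HtLe F T x ∧ io x ∈ K}.ncard : ℝ)) ^ (n - 1) := by
    intro c
    refine H c F hm io (fun i => (Rs (num' c) (den' c) d i.1).coeff (exf i.2.1) * ξ i.2.2) T (hT' c)
      (Ec c) ?_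
    rintro t ⟨ht, htK⟩
    obtain ⟨h1, P, hPd, hPc, hP0, z, hz, hPz⟩ := hE t ht
    have hsub : ∀ w : Fin n → ℂ, (∀ j, w j ∈ (cc c j).W) →
        eval (fun x : κ' c => (cc c x.1).f x.2 (w x.1)) (Pt (num' c) (den' c) d P) =
        (∏ v, eval (fun x : κ' c => (cc c x.1).f x.2 (w x.1)) (den' c v) ^ d) *
          eval (fun x : Σ j, V j => y x.1 x.2 (w x.1)) P := by
      intro w hw
      refine eval_Pt hPd fun v => ?_
      simp only [num', den', eval_rename]
      exact (cc c v.1).eq v.2 (w v.1) (hw v.1)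
    have hden : ∀ w : Fin n → ℂ, (∀ j, w j ∈ (cc c j).W) →
        (∏ v, eval (fun x : κ' c => (cc c x.1).f x.2 (w x.1)) (den' c v) ^ d) ≠ 0 := by
      intro w hw
      refine Finset.prod_ne_zero_iff.2 fun v _ => pow_ne_zero _ ?_
      simp only [den', eval_rename]
      exact (cc c v.1).ne v.2 (w v.1) (hw v.1)
    have hne : Pt (num' c) (den' c) d P ≠ 0 := by
      intro h0
      apply hPz
      refine multi_identity hc hy (fun j => (cc c j).isOpen) (fun j => ⟨_, (cc c j).mem⟩)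
        (fun j => (cc c j).sub) P (fun w hw => ?_) z hz
      have h2 := hsub w hw
      rw [h0, map_zero] at h2
      exact (mul_eq_zero.1 h2.symm).resolve_left (hden w hw)
    obtain ⟨s₀, hs₀⟩ := MvPolynomial.ne_zero_iff.1 hne
    refine ⟨fun j => ⟨(h1 j).1, htK j⟩, Pt (num' c) (den' c) d P, fun x => degreeOf_Pt P x,
      fun s => coeff_Pt io ξ (Real.rpow_nonneg hT2 A) hPc le_rfl s, s₀, hs₀, ?_⟩
    have h3 : MvPolynomial.aeval (fun x : Σ j, (cc c j).κ => (cc c x.1).f x.2 (io (t x.1)))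
        (Pt (num' c) (den' c) d P) = 0 := by
      have h4 := hsub (fun j => io (t j)) fun j => hr j (c j) (htK j).2
      rw [hP0, mul_zero] at h4
      exact h4
    rw [h3, norm_zero]
    exact mul_nonneg (Real.rpow_nonneg hT2 _) (norm_nonneg _)
  have hEU : E ⊆ ⋃ c, Ec c := by
    intro t ht
    have h1 : ∀ j, ∃ x : I j, io (t j) ∈ Metric.ball (((x : K) : ℂ)) (r j x) := by
      intro j
      have h2 := hI j ((hE t ht).1 j).2
      obtain ⟨x, hx⟩ := mem_iUnion.1 h2
      obtain ⟨hx1, hx2⟩ := mem_iUnion.1 hx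
      exact ⟨⟨x, hx1⟩, hx2⟩
    choose c hc' using h1
    exact mem_iUnion.2 ⟨c, ht, fun j => ⟨((hE t ht).1 j).2, Metric.ball_subset_closedBall (hc' j)⟩⟩
  have hfinU : (⋃ c, Ec c).Finite := Set.finite_iUnion fun c => (hEc c).1
  refine ⟨hfinU.subset hEU, ?_⟩
  calc (E.ncard : ℝ) ≤ ((⋃ c, Ec c).ncard : ℝ) := by exact_mod_cast Set.ncard_le_ncard hEU hfinU
    _ ≤ ((∑ c, (Ec c).ncard : ℕ) : ℝ) := by exact_mod_cast Set.ncard_iUnion_le_of_fintype Ec
    _ = ∑ c, ((Ec c).ncard : ℝ) := by push_cast; rfl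
    _ ≤ ∑ c, C c * T ^ ε * (({x : F | Y120.HtLe F T x ∧ io x ∈ K}.ncard : ℝ)) ^ (n - 1) :=
        Finset.sum_le_sum fun c _ => (hEc c).2
    _ = (∑ c, C c) * T ^ ε * (({x : F | Y120.HtLe F T x ∧ io x ∈ K}.ncard : ℝ)) ^ (n - 1) := by
        rw [Finset.sum_mul, Finset.sum_mul]

end Pool.Agent.Y776.Cv
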