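import Mathlib
import Pool.Agent.Y776.Cv.Rat

/-!
# The Cayley parametrisation of the symplectic group, and charts for symplectic period matrices
-/

set_option autoImplicit false

open Filter Topology Set MvPolynomial Matrix

noncomputable section

namespace Pool.Agent.Y776.Cv

open Pool.Agent.Y124 (LocInd)

variable {N : ℕ}

/-- the index of a symmetric matrix -/
abbrev SI (N : ℕ) : Type := {p : Fin N × Fin N // p.1 ≤ p.2}

/-- the symmetric matrix -/
def symM {R : Type*} (a : SI N → R) : Matrix (Fin N) (Fin N) R :=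
  Matrix.of fun i j => if h : i ≤ j then a ⟨(i, j), h⟩ else a ⟨(j, i), le_of_not_ge h⟩

theorem symM_transpose {R : Type*} (a : SI N → R) : (symM a)ᵀ = symM a := by
  ext i j
  simp only [Matrix.transpose_apply, symM, Matrix.of_apply]
  by_cases h1 : i ≤ j
  · by_cases h2 : j ≤ i
    · have h3 : i = j := le_antisymm h1 h2
      subst h3
      rfl
    · rw [dif_neg h2, dif_pos h1]
  · have h2 : j ≤ i := le_of_not_ge h1
    rw [dif_pos h2, dif_neg h1]

theorem symM_eq {R : Type*} {M : Matrix (Fin N) (Fin N) R} (hM : Mᵀ = M) :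
    symM (fun p : SI N => M p.1.1 p.1.2) = M := by
  ext i j
  simp only [symM, Matrix.of_apply]
  by_cases h1 : i ≤ j
  · rw [dif_pos h1]
  · rw [dif_neg h1]
    have h2 := congrFun (congrFun hM i) j
    rw [Matrix.transpose_apply] at h2
    exact h2

theorem symM_map {R S : Type*} (a : SI N → R) (f : R → S) : (symM a).map f = symM fun p => f (a p) := by
  ext i j
  simp only [Matrix.map_apply, symM, Matrix.of_apply]
  split_ifs <;> rfl

section cayley

variable {J S X : Matrix (Fin N) (Fin N) ℂ}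

/-- from a symmetric matrix to an isometry -/
theorem isom_of_sym (hS : Sᵀ * J = -(J * S)) (hdet : (1 - S).det ≠ 0) :
    ((1 - S)⁻¹ * (1 + S))ᵀ * J * ((1 - S)⁻¹ * (1 + S)) = J := by
  have hu : IsUnit (1 - S).det := isUnit_iff_ne_zero.2 hdet
  have c1 : (1 - S) * (1 + S) = (1 + S) * (1 - S) := by noncomm_ring
  set R := (1 - S)⁻¹ with hR
  have r1 : R * (1 - S) = 1 := Matrix.nonsing_inv_mul _ hu
  have r2 : (1 - S) * R = 1 := Matrix.mul_nonsing_inv _ hu
  have hcomm : R * (1 + S) = (1 + S) * R := by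
    calc R * (1 + S) = R * (1 + S) * ((1 - S) * R) := by rw [r2, Matrix.mul_one]
      _ = R * ((1 + S) * (1 - S)) * R := by noncomm_ring
      _ = R * ((1 - S) * (1 + S)) * R := by rw [c1]
      _ = (R * (1 - S)) * (1 + S) * R := by noncomm_ring
      _ = (1 + S) * R := by rw [r1, Matrix.one_mul]
  have e1 : (1 + S)ᵀ * J = J * (1 - S) := by
    rw [Matrix.transpose_add, Matrix.transpose_one, Matrix.add_mul, hS]
    noncomm_ring
  have e2 : (1 - S)ᵀ * J = J * (1 + S) := by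
    rw [Matrix.transpose_sub, Matrix.transpose_one, Matrix.sub_mul, hS]
    noncomm_ring
  calc (R * (1 + S))ᵀ * J * (R * (1 + S))
      = ((1 + S) * R)ᵀ * J * (R * (1 + S)) := by rw [hcomm]
    _ = Rᵀ * ((1 + S)ᵀ * J) * (R * (1 + S)) := by
        rw [Matrix.transpose_mul]
        noncomm_ring
    _ = Rᵀ * (J * (1 - S)) * (R * (1 + S)) := by rw [e1]
    _ = Rᵀ * J * ((1 - S) * R) * (1 + S) := by noncomm_ring
    _ = Rᵀ * (J * (1 + S)) := by rw [r2]; noncomm_ring
    _ = Rᵀ * ((1 - S)ᵀ * J) := by rw [e2]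
    _ = ((1 - S) * R)ᵀ * J := by rw [Matrix.transpose_mul, Matrix.mul_assoc]
    _ = J := by rw [r2, Matrix.transpose_one, Matrix.one_mul]

/-- from an isometry to a symmetric matrix -/
theorem sym_of_isom (hX : Xᵀ * J * X = J) (hdet : (X + 1).det ≠ 0) :
    ((X - 1) * (X + 1)⁻¹)ᵀ * J = -(J * ((X - 1) * (X + 1)⁻¹)) := by
  have hu : IsUnit (X + 1).det := isUnit_iff_ne_zero.2 hdet
  set R := (X + 1)⁻¹ with hR
  have r1 : R * (X + 1) = 1 := Matrix.nonsing_inv_mul _ hu
  have r2 : (X + 1) * R = 1 := Matrix.mul_nonsing_inv _ hu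
  have hmain : (X - 1)ᵀ * J * (X + 1) + (X + 1)ᵀ * J * (X - 1) = 0 := by
    have e1 : (X - 1)ᵀ * J * (X + 1) + (X + 1)ᵀ * J * (X - 1) = 2 • (Xᵀ * J * X - J) := by
      rw [Matrix.transpose_add, Matrix.transpose_sub, Matrix.transpose_one]
      noncomm_ring
    rw [e1, hX, sub_self, smul_zero]
  have h1 : Rᵀ * ((X - 1)ᵀ * J * (X + 1) + (X + 1)ᵀ * J * (X - 1)) * R = 0 := by
    rw [hmain]
    simp
  have h2 : Rᵀ * ((X - 1)ᵀ * J * (X + 1) + (X + 1)ᵀ * J * (X - 1)) * R =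
      ((X - 1) * R)ᵀ * J * ((X + 1) * R) + ((X + 1) * R)ᵀ * J * ((X - 1) * R) := by
    rw [Matrix.transpose_mul, Matrix.transpose_mul]
    noncomm_ring
  rw [h2, r2, Matrix.transpose_one, Matrix.mul_one, Matrix.one_mul] at h1
  exact eq_neg_of_add_eq_zero_left h1

theorem sym_JS (hJ : Jᵀ = -J) (hS : Sᵀ * J = -(J * S)) : (J * S)ᵀ = J * S := by
  rw [Matrix.transpose_mul, hJ, Matrix.mul_neg, hS, neg_neg]

theorem S_of_sym (hJ : Jᵀ = -J) (hdet : J.det ≠ 0) {M : Matrix (Fin N) (Fin N) ℂ} (hM : Mᵀ = M) :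
    (J⁻¹ * M)ᵀ * J = -(J * (J⁻¹ * M)) := by
  have hu : IsUnit J.det := isUnit_iff_ne_zero.2 hdet
  have h1 : (J⁻¹)ᵀ * J = -1 := by
    have h2 : (J⁻¹)ᵀ = -J⁻¹ := by
      rw [Matrix.transpose_nonsing_inv, hJ]
      rw [Matrix.inv_eq_right_inv]
      rw [neg_mul_neg]
      exact Matrix.mul_nonsing_inv _ hu
    rw [h2, Matrix.neg_mul, Matrix.nonsing_inv_mul _ hu]
  rw [Matrix.transpose_mul, Matrix.mul_assoc, h1, hM, ← Matrix.mul_assoc, Matrix.mul_nonsing_inv _ hu]
  simp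

/-- the two maps are inverse to each other -/
theorem cay1 (hdet : (X + 1).det ≠ 0) :
    (1 - (X - 1) * (X + 1)⁻¹) * X = 1 + (X - 1) * (X + 1)⁻¹ ∧ (1 - (X - 1) * (X + 1)⁻¹).det ≠ 0 := by
  have hu : IsUnit (X + 1).det := isUnit_iff_ne_zero.2 hdet
  set R := (X + 1)⁻¹ with hR
  have r1 : R * (X + 1) = 1 := Matrix.nonsing_inv_mul _ hu
  have r2 : (X + 1) * R = 1 := Matrix.mul_nonsing_inv _ hu
  have e1 : 1 - (X - 1) * R = 2 • R := by
    have h1 : 1 - (X - 1) * R = (X + 1) * R - (X - 1) * R := by rw [r2]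
    rw [h1]
    noncomm_ring
  have e2 : 1 + (X - 1) * R = 2 • (X * R) := by
    have h1 : 1 + (X - 1) * R = (X + 1) * R + (X - 1) * R := by rw [r2]
    rw [h1]
    noncomm_ring
  have hRX : R * X = X * R := by
    have h1 : R * X + R = 1 := by rw [← r1]; noncomm_ring
    have h2 : X * R + R = 1 := by rw [← r2]; noncomm_ring
    exact add_right_cancel (h1.trans h2.symm)
  refine ⟨?_, ?_⟩
  · rw [e1, e2, Matrix.smul_mul, hRX]
  · intro h0
    have h1 : (1 - (X - 1) * R) * (X + 1) = 2 • (1 : Matrix (Fin N) (Fin N) ℂ) := by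
      rw [e1, Matrix.smul_mul, r1]
    have h2 := congrArg Matrix.det h1
    rw [Matrix.det_mul, h0, zero_mul] at h2
    have h3 : (2 • (1 : Matrix (Fin N) (Fin N) ℂ)) = (2 : ℂ) • 1 := by
      ext i j
      simp
    rw [h3, Matrix.det_smul, Matrix.det_one, mul_one] at h2
    exact pow_ne_zero _ (two_ne_zero) h2.symm

theorem cay2 (hdet : (1 - S).det ≠ 0) : ((1 - S)⁻¹ * (1 + S) + 1).det ≠ 0 ∧
    ((1 - S)⁻¹ * (1 + S) - 1) * ((1 - S)⁻¹ * (1 + S) + 1)⁻¹ = S := by
  have hu : IsUnit (1 - S).det := isUnit_iff_ne_zero.2 hdet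
  set R := (1 - S)⁻¹ with hR
  have r1 : R * (1 - S) = 1 := Matrix.nonsing_inv_mul _ hu
  have r2 : (1 - S) * R = 1 := Matrix.mul_nonsing_inv _ hu
  have e1 : R * (1 + S) + 1 = (2 : ℂ) • R := by
    have h1 : R * (1 + S) + 1 = R * (1 + S) + R * (1 - S) := by rw [r1]
    rw [h1, two_smul]
    noncomm_ring
  have e2 : R * (1 + S) - 1 = (2 : ℂ) • (R * S) := by
    have h1 : R * (1 + S) - 1 = R * (1 + S) - R * (1 - S) := by rw [r1]
    rw [h1, two_smul]
    noncomm_ring
  have hRS : R * S = S * R := by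
    have h1 : R - R * S = 1 := by rw [← r1]; noncomm_ring
    have h2 : R - S * R = 1 := by rw [← r2]; noncomm_ring
    have h3 : R - R * S = R - S * R := h1.trans h2.symm
    exact sub_right_inj.1 h3
  have hne : R.det ≠ 0 := by
    intro h0
    have h1 := congrArg Matrix.det r1
    rw [Matrix.det_mul, h0, zero_mul, Matrix.det_one] at h1
    exact zero_ne_one h1
  have hd : (R * (1 + S) + 1).det ≠ 0 := by
    rw [e1, Matrix.det_smul]
    exact mul_ne_zero (pow_ne_zero _ two_ne_zero) hne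
  refine ⟨hd, ?_⟩
  have hu2 : IsUnit (R * (1 + S) + 1).det := isUnit_iff_ne_zero.2 hd
  have h1 : (R * (1 + S) - 1) = S * (R * (1 + S) + 1) := by
    rw [e1, e2, Matrix.mul_smul, hRS]
  rw [h1, Matrix.mul_assoc, Matrix.mul_nonsing_inv _ hu2, Matrix.mul_one]

end cayley

/-- analytic matrices -/
theorem an_det {M : ℂ → Matrix (Fin N) (Fin N) ℂ} {z : ℂ}
    (h : ∀ i j, AnalyticAt ℂ (fun w => M w i j) z) : AnalyticAt ℂ (fun w => (M w).det) z := by
  simp only [Matrix.det_apply]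
  refine Finset.analyticAt_fun_sum _ fun σ _ => ?_
  simp only [Units.smul_def, zsmul_eq_mul]
  exact analyticAt_const.mul (Finset.analyticAt_fun_prod _ fun i _ => h _ _)

theorem an_adj {M : ℂ → Matrix (Fin N) (Fin N) ℂ} {z : ℂ}
    (h : ∀ i j, AnalyticAt ℂ (fun w => M w i j) z) (i j : Fin N) :
    AnalyticAt ℂ (fun w => (M w).adjugate i j) z := by
  simp only [Matrix.adjugate_apply]
  refine an_det fun a b => ?_
  by_cases ha : a = j
  · subst ha
    simp only [Matrix.updateRow_self]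
    exact analyticAt_const
  · simp only [Matrix.updateRow_ne ha]
    exact h a b

theorem an_mul {a b c : ℕ} {M : ℂ → Matrix (Fin a) (Fin b) ℂ} {M' : ℂ → Matrix (Fin b) (Fin c) ℂ} {z : ℂ}
    (h : ∀ i j, AnalyticAt ℂ (fun w => M w i j) z) (h' : ∀ i j, AnalyticAt ℂ (fun w => M' w i j) z)
    (i : Fin a) (j : Fin c) : AnalyticAt ℂ (fun w => (M w * M' w) i j) z := by
  simp only [Matrix.mul_apply]
  exact Finset.analyticAt_fun_sum _ fun k _ => (h i k).mul (h' k j)

end Pool.Agent.Y776.Cv
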