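import Mathlib
import Pool.Agent.Y776.Cv.Fix
import Pool.Agent.Y776.Cv.Sub2

/-!
# Curves in a product of elliptic curves and a torus: values at points of number fields
-/

set_option autoImplicit false

open Filter Topology Set NumberField
open scoped PeriodPair

noncomputable section

namespace Pool.Agent.Y776.Cv

open H667R3 Pool.Agent.W245.EB Pool.Agent.TH813.Ell Pool.Agent.Y685 Pool.Agent.Y685.H2
open Pool.Agent.Y776.Fam (TS TS_countable Gn exists_cf exists_notMem)
open Pool.Agent.TH813.Rel (DF MK)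
open Pool.Agent.Y124 (LocInd)

variable {U : Set ℂ} {n s q : ℕ} {Λ : Fin q → PeriodPair} {ty : Fin n → Fin q}
  {u : Fin n → ℂ → ℂ} {l : Fin s → ℂ → ℂ}

/-- the names of the functions `l, e^l, u, ℘(u)` -/
def isPt : Nf n s → Prop :=
  Sum.elim (fun _ => True) (Sum.elim (fun _ => True) (Sum.elim (fun _ => True)
    (Sum.elim (fun _ => False) (fun _ => True))))

/-- the subfamily: `s + n` of the functions `l, e^l, u, ℘(u)` and `n` others -/
theorem fix_sub2 (h : FxM U Λ ty u l) (hns : 0 < s + n) (hne : U.Nonempty) :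
    ∃ e : Fin (s + n) ⊕ Fin n → Nf n s, Function.Injective e ∧ (∀ k, isPt (e (Sum.inl k))) ∧
      ∀ t ∈ U, LocInd (fun k => yf Λ ty u l (e k)) t := by
  classical
  obtain ⟨zs, hzs⟩ := hne
  obtain ⟨F, hFc, hF⟩ := exists_cf
    (T := TS (yf Λ ty u l) zs ∪ (Set.range (fun c => (Λ c).g₂) ∪ Set.range (fun c => (Λ c).g₃)))
    ((TS_countable _ _).union ((Set.countable_range _).union (Set.countable_range _)))
  obtain ⟨z₀, hz₀, hnot⟩ := exists_notMem h.isOpen ⟨zs, hzs⟩ (countable_Gp h hFc ⟨zs, hzs⟩)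
  have g : Gp U Λ ty u l F z₀ := by
    by_contra hcon
    exact hnot ⟨hz₀, hcon⟩
  have hr := rank_Gp h hns (fun c => hF (Or.inr (Or.inl ⟨c, rfl⟩)))
    (fun c => hF (Or.inr (Or.inr ⟨c, rfl⟩))) g
  refine exists_sub2 h.conn h.isOpen (yf_an h) hzs (fun x hx => hF (Or.inl hx)) hz₀ g.tr isPt ?_ ?_
  · have h1 : (Set.range fun i => yf Λ ty u l i z₀) ⊆
        ((fun i => yf Λ ty u l i z₀) '' {i | isPt i}) ∪
          Set.range (fun i : Fin n => zeta (Λ (ty i)) (u i z₀)) := by
      rintro _ ⟨i, rfl⟩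
      rcases i with k | k | i | i | i
      · exact Or.inl ⟨Sum.inl k, (trivial : isPt (Sum.inl k)), rfl⟩
      · exact Or.inl ⟨Sum.inr (Sum.inl k), (trivial : isPt (Sum.inr (Sum.inl k))), rfl⟩
      · exact Or.inl ⟨Sum.inr (Sum.inr (Sum.inl i)),
          (trivial : isPt (Sum.inr (Sum.inr (Sum.inl i)))), rfl⟩
      · exact Or.inr ⟨i, rfl⟩
      · exact Or.inl ⟨Sum.inr (Sum.inr (Sum.inr (Sum.inr i))),
          (trivial : isPt (Sum.inr (Sum.inr (Sum.inr (Sum.inr i))))), rfl⟩
    have h2 : (Set.range (fun i : Fin n => zeta (Λ (ty i)) (u i z₀))).encard ≤ n := by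
      have h3 := Set.encard_image_le (fun i : Fin n => zeta (Λ (ty i)) (u i z₀)) Set.univ
      rw [Set.image_univ, Set.encard_univ] at h3
      simpa using h3
    have h4 : ((s + 2 * n + 1 : ℕ) : ℕ∞) ≤
        (MK F).eRk ((fun i => yf Λ ty u l i z₀) '' {i | isPt i}) + n :=
      (hr.trans ((MK F).eRk_mono h1)).trans (((MK F).eRk_union_le_eRk_add_encard _ _).trans
        (add_le_add_right h2 _))
    have h5 : ((s + 2 * n + 1 : ℕ) : ℕ∞) = ((s + n + 1 : ℕ) : ℕ∞) + n := by
      push_cast; ring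
    rw [h5] at h4
    exact ((ENat.add_le_add_iff_right (ENat.natCast_ne_top n)).1 h4).trans
      ((MK F).eRk_mono (Set.subset_insert _ _))
  · have h1 : s + n + n + 1 = s + 2 * n + 1 := by ring
    rw [h1]
    exact hr.trans ((MK F).eRk_mono (Set.subset_insert _ _))

end Pool.Agent.Y776.Cv
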