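import Mathlib
import Pool.Agent.Y776.Cv.Rat

/-!
# Families which are locally rational functions of independent functions: approximate relations
-/

set_option autoImplicit false

open Filter Topology Set NumberField MvPolynomial

noncomputable section

namespace Pool.Agent.Y776.Cv

open Pool.Agent.Y124 (LocInd)

set_option linter.unusedSectionVars false

section ctrl

variable {V κ : Type} [Fintype V] [DecidableEq V] [Fintype κ] [DecidableEq κ] {d : ℕ}
  (num den : V → MvPolynomial κ ℂ)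

/-- the polynomial with given coefficients -/
def Pa (a : (V → Fin (d + 1)) → ℂ) : MvPolynomial V ℂ := ∑ s, monomial (exf s) (a s)

theorem coeff_Pa (a : (V → Fin (d + 1)) → ℂ) (s : V → Fin (d + 1)) : (Pa a).coeff (exf s) = a s := by
  rw [Pa, coeff_sum, Finset.sum_eq_single s]
  · rw [coeff_monomial, if_pos rfl]
  · intro t _ ht
    rw [coeff_monomial, if_neg fun h => ht (exf_inj h)]
  · intro h
    exact absurd (Finset.mem_univ _) h

theorem degreeOf_Pa (a : (V → Fin (d + 1)) → ℂ) (v : V) : (Pa a).degreeOf v ≤ d := by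
  rw [Pa]
  refine (degreeOf_sum_le v _ _).trans (Finset.sup_le fun s _ => ?_)
  by_cases h : a s = 0
  · rw [h, monomial_zero, degreeOf_zero]
    exact Nat.zero_le _
  · rw [degreeOf_monomial_eq _ _ h, exf_apply]
    have := (s v).2
    omega

/-- the coefficients of the substitution, as a linear map -/
def Lc (D : ℕ) : ((V → Fin (d + 1)) → ℂ) →ₗ[ℂ] ((κ → Fin (D + 1)) → ℂ) where
  toFun a := fun u => ∑ s, a s * (Rs num den d s).coeff (exf u)
  map_add' a b := by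
    funext u
    simp only [Pi.add_apply, add_mul, Finset.sum_add_distrib]
  map_smul' c a := by
    funext u
    simp only [Pi.smul_apply, smul_eq_mul, RingHom.id_apply, Finset.mul_sum, mul_assoc]

theorem Lc_eq (D : ℕ) (P : MvPolynomial V ℂ) (u : κ → Fin (D + 1)) :
    Lc num den D (fun s : V → Fin (d + 1) => P.coeff (exf s)) u = (Pt num den d P).coeff (exf u) := by
  rw [Pt, coeff_sum]
  change ∑ s, _ = _
  refine Finset.sum_congr rfl fun s _ => ?_
  rw [coeff_C_mul]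

theorem Pt_zero {D : ℕ} (hD : dg num den d ≤ D) (P : MvPolynomial V ℂ)
    (h : ∀ u : κ → Fin (D + 1), (Pt num den d P).coeff (exf u) = 0) : Pt num den d P = 0 := by
  ext u
  rw [coeff_zero]
  by_contra hne
  have h1 : u ∈ (Pt num den d P).support := mem_support_iff.2 hne
  have h2 := h fun x => ⟨u x, Nat.lt_succ_of_le ((degreeOf_le_iff.1 ((degreeOf_Pt P x).trans hD)) u h1)⟩
  apply hne
  rw [← h2]
  congr 1
  ext x
  rfl

/-- **the values are controlled by the coefficients of the substituted polynomial** -/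
theorem ctrl {Z : Set (V → ℂ)} {R : ℝ} (hR : ∀ w ∈ Z, ∀ v, ‖w v‖ ≤ R)
    (hZ : ∀ P : MvPolynomial V ℂ, Pt num den d P = 0 → (∀ v, P.degreeOf v ≤ d) → ∀ w ∈ Z, eval w P = 0) :
    ∃ M : ℝ, 0 < M ∧ ∀ P : MvPolynomial V ℂ, (∀ v, P.degreeOf v ≤ d) → ∀ w ∈ Z, eval w P ≠ 0 →
      ∃ u, (Pt num den d P).coeff u ≠ 0 ∧ ‖eval w P‖ ≤ M * ‖(Pt num den d P).coeff u‖ := by
  classical
  set D := dg num den d with hD
  set L := Lc (d := d) num den D with hL
  obtain ⟨G, hG⟩ := LinearMap.exists_rightInverse_of_surjective L.rangeRestrict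
    (LinearMap.range_eq_top.2 L.surjective_rangeRestrict)
  set G' := LinearMap.toContinuousLinearMap G with hG'
  set R₁ := max R 1 with hR₁
  have hR1 : 1 ≤ R₁ := le_max_right _ _
  set c₀ : ℝ := (Fintype.card (V → Fin (d + 1)) : ℝ) * (R₁ ^ d) ^ Fintype.card V with hc₀
  have hc₀' : 0 ≤ c₀ := by positivity
  have hphi : ∀ w ∈ Z, ∀ b : (V → Fin (d + 1)) → ℂ,
      ‖∑ s, b s * ∏ v, w v ^ (s v : ℕ)‖ ≤ c₀ * ‖b‖ := by
    intro w hw b
    refine (norm_sum_le _ _).trans ?_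
    have h1 : ∀ s : V → Fin (d + 1), ‖b s * ∏ v, w v ^ (s v : ℕ)‖ ≤ ‖b‖ * (R₁ ^ d) ^ Fintype.card V := by
      intro s
      rw [norm_mul, norm_prod]
      refine mul_le_mul (norm_le_pi_norm b s) ?_ (Finset.prod_nonneg fun _ _ => norm_nonneg _) (norm_nonneg _)
      have h2 : ∏ v, ‖w v ^ (s v : ℕ)‖ ≤ ∏ _v : V, R₁ ^ d := by
        refine Finset.prod_le_prod (fun _ _ => norm_nonneg _) fun v _ => ?_
        rw [norm_pow]
        have h3 : ‖w v‖ ≤ R₁ := (hR w hw v).trans (le_max_left _ _)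
        refine (pow_le_pow_left₀ (norm_nonneg _) h3 _).trans ?_
        exact pow_le_pow_right₀ hR1 (by have := (s v).2; omega)
      rw [Finset.prod_const, Finset.card_univ] at h2
      exact h2
    refine (Finset.sum_le_sum fun s _ => h1 s).trans ?_
    rw [Finset.sum_const, Finset.card_univ, nsmul_eq_mul, hc₀]
    apply le_of_eq
    ring
  refine ⟨c₀ * ‖G'‖ + 1, by positivity, fun P hP w hw hPw => ?_⟩
  set a : (V → Fin (d + 1)) → ℂ := fun s => P.coeff (exf s) with ha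
  have hval : eval w P = ∑ s, a s * ∏ v, w v ^ (s v : ℕ) := eval_exf hP w
  set b := G (L.rangeRestrict a) with hb
  have hLab : L (a - b) = 0 := by
    rw [map_sub, sub_eq_zero]
    have h1 : L.rangeRestrict b = L.rangeRestrict a := by
      rw [hb]
      exact LinearMap.congr_fun hG _
    exact (congrArg Subtype.val h1).symm
  have hker : ∑ s, (a - b) s * ∏ v, w v ^ (s v : ℕ) = 0 := by
    have h1 : Pt num den d (Pa (a - b)) = 0 := by
      refine Pt_zero num den le_rfl _ fun u => ?_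
      rw [← Lc_eq num den D]
      have h2 : (fun s : V → Fin (d + 1) => (Pa (a - b)).coeff (exf s)) = a - b := by
        funext s
        rw [coeff_Pa]
      rw [h2, ← hL, hLab]
      rfl
    have h2 := hZ _ h1 (fun v => degreeOf_Pa _ v) w hw
    rw [eval_exf (d := d) (fun v => degreeOf_Pa _ v)] at h2
    rw [← h2]
    refine Finset.sum_congr rfl fun s _ => ?_
    rw [coeff_Pa]
  have hvalb : eval w P = ∑ s, b s * ∏ v, w v ^ (s v : ℕ) := by
    rw [hval, ← sub_eq_zero, ← hker, ← Finset.sum_sub_distrib]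
    refine Finset.sum_congr rfl fun s _ => ?_
    rw [Pi.sub_apply]
    ring
  obtain ⟨u, hu⟩ := Finite.exists_max fun u : κ → Fin (D + 1) => ‖L a u‖
  have hLa : ‖L a‖ ≤ ‖L a u‖ := (pi_norm_le_iff_of_nonneg (norm_nonneg _)).2 hu
  have hbn : ‖b‖ ≤ ‖G'‖ * ‖L a u‖ := by
    have h1 : b = G' (L.rangeRestrict a) := rfl
    rw [h1]
    refine (G'.le_opNorm _).trans (mul_le_mul_of_nonneg_left ?_ (norm_nonneg _))
    exact hLa
  have hfin : ‖eval w P‖ ≤ (c₀ * ‖G'‖ + 1) * ‖(Pt num den d P).coeff (exf u)‖ := by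
    rw [← Lc_eq num den D, hvalb]
    refine (hphi w hw b).trans ?_
    have h1 : c₀ * ‖b‖ ≤ c₀ * (‖G'‖ * ‖L a u‖) := mul_le_mul_of_nonneg_left hbn hc₀'
    refine h1.trans ?_
    have h2 : 0 ≤ ‖L a u‖ := norm_nonneg _
    have h3 : Lc num den D a u = L a u := rfl
    rw [h3]
    linarith
  refine ⟨exf u, fun h0 => hPw ?_, hfin⟩
  rw [h0, norm_zero, mul_zero] at hfin
  exact norm_le_zero_iff.1 hfin

end ctrl

/-- **no new approximate relations at the points of number fields** -/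
theorem nf_ratA {η : Type} [Fintype η] [DecidableEq η] (m n d : ℕ) {V : Fin n → Type}
    [∀ j, Fintype (V j)] {U : Fin n → Set ℂ} (hc : ∀ j, IsPreconnected (U j))
    {y : ∀ j, V j → ℂ → ℂ} (hy : ∀ j v, AnalyticOnNhd ℂ (y j v) (U j))
    (hch : ∀ j, ∀ z ∈ U j, Nonempty (Chart (y j) (U j) z)) {K : Fin n → Set ℂ} (hK : ∀ j, IsCompact (K j))
    (hKU : ∀ j, K j ⊆ U j) {S : Set ℂ} (hS : ∀ j, K j ⊆ S) (A ε : ℝ) (hε : 0 < ε) :
    ∃ C T₀ : ℝ, 0 ≤ C ∧ 2 ≤ T₀ ∧ ∀ (Z : Set ((Σ j, V j) → ℂ)) (R : ℝ), (∀ w ∈ Z, ∀ v, ‖w v‖ ≤ R) →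
      (∀ P : MvPolynomial (Σ j, V j) ℂ, (∀ z : Fin n → ℂ, (∀ j, z j ∈ U j) →
        eval (fun x : Σ j, V j => y x.1 x.2 (z x.1)) P = 0) → ∀ w ∈ Z, eval w P = 0) →
      ∃ B : ℝ, ∀ (F : Type) [Field F] [NumberField F],
      Module.finrank ℚ F ≤ m → ∀ (io : F →+* ℂ) (ξ : η → ℂ) (T : ℝ), T₀ ≤ T →
      ∀ E : Set (Fin n → F), (∀ t ∈ E, (∀ j, Y120.HtLe F T (t j) ∧ io (t j) ∈ K j) ∧
        ∃ P : MvPolynomial (Σ j, V j) ℂ, (∀ x, P.degreeOf x ≤ d) ∧
        (∀ s, ∃ c : η → 𝓞 F, (∀ i (φ : F →+* ℂ), ‖φ (c i : F)‖ ≤ T ^ A) ∧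
          P.coeff s = ∑ i, ξ i * io (c i : F)) ∧
        ∃ w ∈ Z, eval w P ≠ 0 ∧
          ‖eval (fun x : Σ j, V j => y x.1 x.2 (io (t x.1))) P‖ ≤ T ^ (-B) * ‖eval w P‖) →
      E.Finite ∧ (E.ncard : ℝ) ≤
        C * T ^ ε * (({x : F | Y120.HtLe F T x ∧ io x ∈ S}.ncard : ℝ)) ^ (n - 1) := by
  classical
  -- the charts
  let ch : ∀ j (z : K j), Chart (y j) (U j) z := fun j z => (hch j z (hKU j z.2)).some
  have hr : ∀ j (z : K j), ∃ r : ℝ, 0 < r ∧ Metric.closedBall (z : ℂ) r ⊆ (ch j z).W := fun j z => by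
    obtain ⟨r, hr, h1⟩ := Metric.isOpen_iff.1 (ch j z).isOpen z (ch j z).mem
    exact ⟨r / 2, by positivity, (Metric.closedBall_subset_ball (by linarith)).trans h1⟩
  choose r hr0 hr using hr
  have hcov : ∀ j, ∃ t : Finset (K j), K j ⊆ ⋃ x ∈ t, Metric.ball (x : ℂ) (r j x) := fun j => by
    obtain ⟨t, ht⟩ := (hK j).elim_nhds_subcover' (fun x hx => Metric.ball x (r j ⟨x, hx⟩))
      (fun x hx => Metric.ball_mem_nhds x (hr0 j ⟨x, hx⟩))
    exact ⟨t, ht⟩
  choose I hI using hcov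
  let cc : ∀ c : (∀ j, I j), ∀ j, Chart (y j) (U j) ((c j : K j) : ℂ) := fun c j => ch j (c j)
  let Kc : ∀ c : (∀ j, I j), Fin n → Set ℂ := fun c j =>
    K j ∩ Metric.closedBall (((c j : K j) : ℂ)) (r j (c j))
  have hfin : ∀ c j, Fintype (cc c j).κ := fun c j => (cc c j).fin
  let κ' : (∀ j, I j) → Type := fun c => Σ j, (cc c j).κ
  let num' : ∀ c, (Σ j, V j) → MvPolynomial (κ' c) ℂ := fun c x =>
    rename (Sigma.mk x.1) ((cc c x.1).num x.2)
  let den' : ∀ c, (Σ j, V j) → MvPolynomial (κ' c) ℂ := fun c x =>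
    rename (Sigma.mk x.1) ((cc c x.1).den x.2)
  let D : (∀ j, I j) → ℕ := fun c => dg (num' c) (den' c) d
  have hKc : ∀ c j, IsCompact (Kc c j) := fun c j => (hK j).inter_right Metric.isClosed_closedBall
  have hKW : ∀ c j, Kc c j ⊆ (cc c j).W := fun c j => Set.inter_subset_right.trans (hr j (c j))
  have main := fun c : (∀ j, I j) => nf_genSK
    (η := ((Σ j, V j) → Fin (d + 1)) × ((κ' c → Fin (D c + 1)) × η)) m n (D c)
    (κ := fun j => (cc c j).κ) (U := fun j => (cc c j).W) (fun j => (cc c j).isOpen)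
    (fun j => (cc c j).conn) (y := fun j => (cc c j).f) (fun j => (cc c j).an) (fun j => (cc c j).ind)
    (K := Kc c) (hKc c) (hKW c) (S := S) (fun j => Set.inter_subset_left.trans (hS j))
    A ε hε
  choose B₁ C T₀ hC hT₀ H using main
  -- the substitution
  have hsub : ∀ c (P : MvPolynomial (Σ j, V j) ℂ), (∀ x, P.degreeOf x ≤ d) →
      ∀ w : Fin n → ℂ, (∀ j, w j ∈ (cc c j).W) →
      eval (fun x : κ' c => (cc c x.1).f x.2 (w x.1)) (Pt (num' c) (den' c) d P) =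
      (∏ v, eval (fun x : κ' c => (cc c x.1).f x.2 (w x.1)) (den' c v) ^ d) *
        eval (fun x : Σ j, V j => y x.1 x.2 (w x.1)) P := by
    intro c P hPd w hw
    refine eval_Pt hPd fun v => ?_
    simp only [num', den', eval_rename]
    exact (cc c v.1).eq v.2 (w v.1) (hw v.1)
  have hden : ∀ c, ∀ w : Fin n → ℂ, (∀ j, w j ∈ (cc c j).W) →
      (∏ v, eval (fun x : κ' c => (cc c x.1).f x.2 (w x.1)) (den' c v) ^ d) ≠ 0 := by
    intro c w hw
    refine Finset.prod_ne_zero_iff.2 fun v _ => pow_ne_zero _ ?_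
    simp only [den', eval_rename]
    exact (cc c v.1).ne v.2 (w v.1) (hw v.1)
  have hdenb : ∀ c, ∃ M : ℝ, 1 ≤ M ∧ ∀ w : Fin n → ℂ, (∀ j, w j ∈ Kc c j) →
      ‖∏ v, eval (fun x : κ' c => (cc c x.1).f x.2 (w x.1)) (den' c v) ^ d‖ ≤ M := by
    intro c
    have h1 : ∀ v : Σ j, V j, ∃ M : ℝ, 1 ≤ M ∧ ∀ z ∈ Kc c v.1,
        ‖eval (fun i => (cc c v.1).f i z) ((cc c v.1).den v.2)‖ ≤ M := by
      intro v
      have h2 : ContinuousOn (fun z => eval (fun i => (cc c v.1).f i z) ((cc c v.1).den v.2)) (Kc c v.1) :=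
        fun z hz => (an_eval (fun i => (cc c v.1).an i z (hKW c v.1 hz)) _).continuousAt.continuousWithinAt
      obtain ⟨M, hM⟩ := (hKc c v.1).exists_bound_of_continuousOn h2
      exact ⟨max M 1, le_max_right _ _, fun z hz => (hM z hz).trans (le_max_left _ _)⟩
    choose M hM1 hM using h1
    refine ⟨∏ v, M v ^ d, ?_, fun w hw => ?_⟩
    · exact Finset.prod_induction _ (fun x : ℝ => 1 ≤ x)
        (fun a b ha hb => one_le_mul_of_one_le_of_one_le ha hb) le_rfl fun v _ => one_le_pow₀ (hM1 v)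
    · rw [norm_prod]
      refine Finset.prod_le_prod (fun _ _ => norm_nonneg _) fun v _ => ?_
      rw [norm_pow]
      refine pow_le_pow_left₀ (norm_nonneg _) ?_ _
      simp only [den', eval_rename]
      exact hM v (w v.1) (hw v.1)
  choose M hM1 hM using hdenb
  refine ⟨∑ c, C c, 2 + ∑ c, T₀ c, Finset.sum_nonneg fun c _ => hC c, ?_, ?_⟩
  · have : 0 ≤ ∑ c, T₀ c := Finset.sum_nonneg fun c _ => by linarith [hT₀ c]
    linarith
  intro Z R hR hZ
  have hctrl : ∀ c : (∀ j, I j), ∃ M' : ℝ, 0 < M' ∧ ∀ P : MvPolynomial (Σ j, V j) ℂ,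
      (∀ v, P.degreeOf v ≤ d) → ∀ w ∈ Z, eval w P ≠ 0 →
      ∃ u, (Pt (num' c) (den' c) d P).coeff u ≠ 0 ∧
        ‖eval w P‖ ≤ M' * ‖(Pt (num' c) (den' c) d P).coeff u‖ := by
    intro c
    refine ctrl (num' c) (den' c) hR fun P hP0 hPd w hw => hZ P (fun z hz => ?_) w hw
    refine multi_identity hc hy (fun j => (cc c j).isOpen) (fun j => ⟨_, (cc c j).mem⟩)
      (fun j => (cc c j).sub) P (fun w hw => ?_) z hz
    have h2 := hsub c P hPd w hw
    rw [hP0, map_zero] at h2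
    exact (mul_eq_zero.1 h2.symm).resolve_left (hden c w hw)
  choose M' hM'0 hM' using hctrl
  -- the exponent
  obtain ⟨N₁, hN₁⟩ : ∃ N₁ : ℕ, ∀ c, M c * M' c ≤ 2 ^ N₁ := by
    obtain ⟨N₁, hN₁⟩ := pow_unbounded_of_one_lt (∑ c, M c * M' c) (one_lt_two (α := ℝ))
    refine ⟨N₁, fun c => le_trans ?_ hN₁.le⟩
    exact Finset.single_le_sum (f := fun c => M c * M' c)
      (fun c _ => mul_nonneg (by linarith [hM1 c]) (hM'0 c).le) (Finset.mem_univ c)
  refine ⟨∑ c, |B₁ c| + N₁, ?_⟩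
  intro F _ _ hm io ξ T hT E hE
  have hT' : ∀ c, T₀ c ≤ T := fun c => by
    have h1 := Finset.single_le_sum (f := T₀) (fun c _ => by linarith [hT₀ c]) (Finset.mem_univ c)
    linarith
  have hT2 : 2 ≤ T := by
    have : 0 ≤ ∑ c, T₀ c := Finset.sum_nonneg fun c _ => by linarith [hT₀ c]
    linarith
  have hT0 : 0 ≤ T := by linarith
  let Ec : (∀ j, I j) → Set (Fin n → F) := fun c => {t | t ∈ E ∧ ∀ j, io (t j) ∈ Kc c j}
  have hEc : ∀ c, (Ec c).Finite ∧ ((Ec c).ncard : ℝ) ≤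
      C c * T ^ ε * (({x : F | Y120.HtLe F T x ∧ io x ∈ S}.ncard : ℝ)) ^ (n - 1) := by
    intro c
    refine H c F hm io (fun i => (Rs (num' c) (den' c) d i.1).coeff (exf i.2.1) * ξ i.2.2) T (hT' c)
      (Ec c) ?_
    rintro t ⟨ht, htK⟩
    obtain ⟨h1, P, hPd, hPc, w, hw, hPw, hle⟩ := hE t ht
    obtain ⟨u, hu, hu'⟩ := hM' c P hPd w hw hPw
    refine ⟨fun j => ⟨(h1 j).1, htK j⟩, Pt (num' c) (den' c) d P, fun x => degreeOf_Pt P x,
      fun s => coeff_Pt io ξ (Real.rpow_nonneg hT0 A) hPc le_rfl s, u, hu, ?_⟩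
    have h3 : MvPolynomial.aeval (fun x : Σ j, (cc c j).κ => (cc c x.1).f x.2 (io (t x.1)))
        (Pt (num' c) (den' c) d P) = (∏ v, eval (fun x : κ' c => (cc c x.1).f x.2 (io (t x.1))) (den' c v) ^ d) *
        eval (fun x : Σ j, V j => y x.1 x.2 (io (t x.1))) P :=
      hsub c P hPd (fun j => io (t j)) fun j => hKW c j (htK j)
    rw [h3, norm_mul]
    have h4 := hM c (fun j => io (t j)) htK
    calc _ ≤ M c * (T ^ (-(∑ c, |B₁ c| + (N₁ : ℝ))) * ‖eval w P‖) :=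
          mul_le_mul h4 hle (norm_nonneg _) (by linarith [hM1 c])
      _ ≤ M c * (T ^ (-(∑ c, |B₁ c| + (N₁ : ℝ))) * (M' c * ‖(Pt (num' c) (den' c) d P).coeff u‖)) := by
          refine mul_le_mul_of_nonneg_left (mul_le_mul_of_nonneg_left hu' (Real.rpow_nonneg hT0 _)) ?_
          linarith [hM1 c]
      _ = (M c * M' c) * T ^ (-(∑ c, |B₁ c| + (N₁ : ℝ))) * ‖(Pt (num' c) (den' c) d P).coeff u‖ := by ring
      _ ≤ T ^ (-(B₁ c)) * ‖(Pt (num' c) (den' c) d P).coeff u‖ := by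
          refine mul_le_mul_of_nonneg_right ?_ (norm_nonneg _)
          have h5 : M c * M' c ≤ T ^ (N₁ : ℝ) := by
            rw [Real.rpow_natCast]
            exact (hN₁ c).trans (pow_le_pow_left₀ (by norm_num) hT2 _)
          have h6 : T ^ (N₁ : ℝ) * T ^ (-(∑ c, |B₁ c| + (N₁ : ℝ))) = T ^ (-∑ c, |B₁ c|) := by
            rw [← Real.rpow_add (by linarith)]
            congr 1
            ring
          refine (mul_le_mul_of_nonneg_right h5 (Real.rpow_nonneg hT0 _)).trans ?_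
          rw [h6]
          refine Real.rpow_le_rpow_of_exponent_le (by linarith) ?_
          have h7 : |B₁ c| ≤ ∑ c, |B₁ c| := Finset.single_le_sum (f := fun c => |B₁ c|)
            (fun c _ => abs_nonneg _) (Finset.mem_univ c)
          linarith [le_abs_self (B₁ c)]
  have hEU : E ⊆ ⋃ c, Ec c := by
    intro t ht
    have h1 : ∀ j, ∃ x : I j, io (t j) ∈ Metric.ball (((x : K j) : ℂ)) (r j x) := by
      intro j
      have h2 := hI j ((hE t ht).1 j).2
      obtain ⟨x, hx⟩ := mem_iUnion.1 h2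
      obtain ⟨hx1, hx2⟩ := mem_iUnion.1 hx
      exact ⟨⟨x, hx1⟩, hx2⟩
    choose c hc' using h1
    exact mem_iUnion.2 ⟨c, ht, fun j => ⟨((hE t ht).1 j).2, Metric.ball_subset_closedBall (hc' j)⟩⟩
  have hfinU : (⋃ c, Ec c).Finite := Set.finite_iUnion fun c => (hEc c).1
  refine ⟨hfinU.subset hEU, ?_⟩
  calc (E.ncard : ℝ) ≤ ((⋃ c, Ec c).ncard : ℝ) := by exact_mod_cast Set.ncard_le_ncard hEU hfinU
    _ ≤ ((∑ c, (Ec c).ncard : ℕ) : ℝ) := by exact_mod_cast Set.ncard_iUnion_le_of_fintype Ec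
    _ = ∑ c, ((Ec c).ncard : ℝ) := by push_cast; rfl
    _ ≤ ∑ c, C c * T ^ ε * (({x : F | Y120.HtLe F T x ∧ io x ∈ S}.ncard : ℝ)) ^ (n - 1) :=
        Finset.sum_le_sum fun c _ => (hEc c).2
    _ = (∑ c, C c) * T ^ ε * (({x : F | Y120.HtLe F T x ∧ io x ∈ S}.ncard : ℝ)) ^ (n - 1) := by
        rw [Finset.sum_mul, Finset.sum_mul]

end Pool.Agent.Y776.Cv
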