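import Mathlib
import Pool.Agent.Y776.Cv.Cay

/-!
# Charts for symplectic period matrices
-/

set_option autoImplicit false
set_option maxHeartbeats 4000000

open Filter Topology Set MvPolynomial Matrix

noncomputable section

namespace Pool.Agent.Y776.Cv

open Pool.Agent.Y124 (LocInd)

variable {e N N' : ℕ}

/-- the variables -/
abbrev Vm (e N N' : ℕ) : Type := Fin e ⊕ (Fin N × Fin N')

/-- the point -/
def ptm (z : ℂ) (l : Fin e → ℂ) (X : Matrix (Fin N) (Fin N') ℂ) : Option (Vm e N N') → ℂ :=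
  fun o => o.elim z (Sum.elim l (fun p => X p.1 p.2))

/-- symplectic period matrices, with further functions -/
structure SpF (U : Set ℂ) (J : Matrix (Fin N) (Fin N) ℂ) (w : Fin e → ℂ → ℂ)
    (Y : ℂ → Matrix (Fin N) (Fin N) ℂ) : Prop where
  isOpen : IsOpen U
  conn : IsPreconnected U
  skew : Jᵀ = -J
  det : J.det ≠ 0
  wan : ∀ k, AnalyticOnNhd ℂ (w k) U
  Yan : ∀ i j, AnalyticOnNhd ℂ (fun z => Y z i j) U
  form : ∀ z ∈ U, (Y z)ᵀ * J * Y z = J
  ind : ∀ P : MvPolynomial (Option (Vm e N N)) ℂ,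
    (∀ z ∈ U, eval (ptm z (fun k => w k z) (Y z)) P = 0) →
    ∀ (z : ℂ) (l : Fin e → ℂ) (g : Matrix (Fin N) (Fin N) ℂ), gᵀ * J * g = J → eval (ptm z l g) P = 0

/-- the values -/
def ySp (w : Fin e → ℂ → ℂ) (Y : ℂ → Matrix (Fin N) (Fin N) ℂ) (Ω : Matrix (Fin N) (Fin N') ℂ) :
    Vm e N N' → ℂ → ℂ :=
  Sum.elim w (fun p z => (Y z * Ω) p.1 p.2)

section gen

variable {κ : Type} (x : κ → ℂ)

theorem map_CC (A : Matrix (Fin N) (Fin N') ℂ) :
    (A.map (C : ℂ → MvPolynomial κ ℂ)).map (eval x) = A := by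
  ext i j
  simp

theorem eval_det' (M : Matrix (Fin N) (Fin N) (MvPolynomial κ ℂ)) :
    eval x M.det = (M.map (eval x)).det := by
  rw [RingHom.map_det, RingHom.mapMatrix_apply]

theorem map_adj' (M : Matrix (Fin N) (Fin N) (MvPolynomial κ ℂ)) :
    M.adjugate.map (eval x) = (M.map (eval x)).adjugate := by
  have h1 := RingHom.map_adjugate (eval x) M
  rw [RingHom.mapMatrix_apply, RingHom.mapMatrix_apply] at h1
  exact h1

theorem map_add1 (M : Matrix (Fin N) (Fin N) (MvPolynomial κ ℂ)) :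
    (M + 1).map (eval x) = M.map (eval x) + 1 := by
  rw [← RingHom.mapMatrix_apply, map_add, map_one, RingHom.mapMatrix_apply]

theorem map_1add (M : Matrix (Fin N) (Fin N) (MvPolynomial κ ℂ)) :
    (1 + M).map (eval x) = 1 + M.map (eval x) := by
  rw [← RingHom.mapMatrix_apply, map_add, map_one, RingHom.mapMatrix_apply]

theorem map_sub1 (M : Matrix (Fin N) (Fin N) (MvPolynomial κ ℂ)) :
    (M - 1).map (eval x) = M.map (eval x) - 1 := by
  rw [← RingHom.mapMatrix_apply, map_sub, map_one, RingHom.mapMatrix_apply]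

theorem map_1sub (M : Matrix (Fin N) (Fin N) (MvPolynomial κ ℂ)) :
    (1 - M).map (eval x) = 1 - M.map (eval x) := by
  rw [← RingHom.mapMatrix_apply, map_sub, map_one, RingHom.mapMatrix_apply]

end gen

section lin

variable (e) (J Yi : Matrix (Fin N) (Fin N) ℂ)

/-- the generic matrix times a constant matrix -/
def gX : Matrix (Fin N) (Fin N) (MvPolynomial (Option (Vm e N N)) ℂ) :=
  (Matrix.of fun i j => X (some (Sum.inr (i, j)))) * Yi.map C

theorem map_gX (z : ℂ) (l : Fin e → ℂ) (g : Matrix (Fin N) (Fin N) ℂ) :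
    (gX e Yi).map (eval (ptm z l g)) = g * Yi := by
  rw [gX, Matrix.map_mul, map_CC]
  congr 1
  ext i j
  simp [ptm]

/-- the numerators, as a matrix -/
def nQM : Matrix (Fin N) (Fin N) (MvPolynomial (Option (Vm e N N)) ℂ) :=
  J.map C * ((gX e Yi - 1) * (gX e Yi + 1).adjugate)

/-- the numerators -/
def nQ : Option (Fin e ⊕ SI N) → MvPolynomial (Option (Vm e N N)) ℂ
  | none => X none
  | some (Sum.inl k) => X (some (Sum.inl k))
  | some (Sum.inr p) => nQM e J Yi p.1.1 p.1.2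

/-- the denominators -/
def dQ : Option (Fin e ⊕ SI N) → MvPolynomial (Option (Vm e N N)) ℂ
  | none => 1
  | some (Sum.inl _) => 1
  | some (Sum.inr _) => (gX e Yi + 1).det

/-- the coordinates of the chart -/
def fQ (z : ℂ) (l : Fin e → ℂ) (X : Matrix (Fin N) (Fin N) ℂ) (o : Option (Fin e ⊕ SI N)) : ℂ :=
  o.elim z (Sum.elim l (fun p => (J * ((X - 1) * (X + 1)⁻¹)) p.1.1 p.1.2))

theorem eval_dQ (z : ℂ) (l : Fin e → ℂ) (g : Matrix (Fin N) (Fin N) ℂ)
    (hdet : (g * Yi + 1).det ≠ 0) (o : Option (Fin e ⊕ SI N)) : eval (ptm z l g) (dQ e Yi o) ≠ 0 := by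
  rcases o with _ | k | p
  · simp [dQ]
  · simp [dQ]
  · rw [dQ, eval_det', map_add1, map_gX]
    exact hdet

theorem eval_nQ (z : ℂ) (l : Fin e → ℂ) (g : Matrix (Fin N) (Fin N) ℂ)
    (hdet : (g * Yi + 1).det ≠ 0) (o : Option (Fin e ⊕ SI N)) :
    eval (ptm z l g) (nQ e J Yi o) = eval (ptm z l g) (dQ e Yi o) * fQ e J z l (g * Yi) o := by
  rcases o with _ | k | p
  · simp [nQ, dQ, fQ, ptm]
  · simp [nQ, dQ, fQ, ptm]
  · have h1 : eval (ptm z l g) (nQ e J Yi (some (Sum.inr p))) =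
        ((J.map C * ((gX e Yi - 1) * (gX e Yi + 1).adjugate)).map (eval (ptm z l g))) p.1.1 p.1.2 := rfl
    rw [h1, Matrix.map_mul, Matrix.map_mul, map_CC, map_adj', map_sub1, map_add1, map_gX]
    have h2 : eval (ptm z l g) (dQ e Yi (some (Sum.inr p))) = (g * Yi + 1).det := by
      rw [dQ, eval_det', map_add1, map_gX]
    rw [h2]
    change _ = (g * Yi + 1).det * (J * ((g * Yi - 1) * (g * Yi + 1)⁻¹)) p.1.1 p.1.2
    rw [Matrix.inv_def, Ring.inverse_eq_inv', Matrix.mul_smul, Matrix.mul_smul, Matrix.smul_apply,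
      smul_eq_mul]
    field_simp

end lin

section lin2

variable (e) (J : Matrix (Fin N) (Fin N) ℂ) (M : Matrix (Fin N) (Fin N') ℂ)

/-- the generic element of the Lie algebra -/
def gS (κ : Type) (i : SI N → κ) : Matrix (Fin N) (Fin N) (MvPolynomial κ ℂ) :=
  (J⁻¹).map C * symM (fun p : SI N => X (i p))

theorem map_gS {κ : Type} (i : SI N → κ) (x : κ → ℂ) :
    (gS J κ i).map (eval x) = J⁻¹ * symM (fun p : SI N => x (i p)) := by
  rw [gS, Matrix.map_mul, map_CC, symM_map]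
  simp only [eval_X]

/-- the numerators, as a matrix -/
def nSM : Matrix (Fin N) (Fin N') (MvPolynomial (Fin e ⊕ SI N) ℂ) :=
  ((1 - gS J (Fin e ⊕ SI N) Sum.inr).adjugate * (1 + gS J (Fin e ⊕ SI N) Sum.inr)) *
    (M.map (C : ℂ → MvPolynomial (Fin e ⊕ SI N) ℂ) : Matrix (Fin N) (Fin N') (MvPolynomial (Fin e ⊕ SI N) ℂ))

/-- the numerators -/
def nS : Vm e N N' → MvPolynomial (Fin e ⊕ SI N) ℂ
  | Sum.inl k => X (Sum.inl k)
  | Sum.inr p => nSM e J M p.1 p.2

/-- the denominators -/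
def dS : Vm e N N' → MvPolynomial (Fin e ⊕ SI N) ℂ
  | Sum.inl _ => 1
  | Sum.inr _ => (1 - gS J (Fin e ⊕ SI N) Sum.inr).det

theorem map_nSM (x : Fin e ⊕ SI N → ℂ) {S : Matrix (Fin N) (Fin N) ℂ}
    (hS : J⁻¹ * symM (fun p : SI N => x (Sum.inr p)) = S) :
    (nSM e J M).map (eval x) = ((1 - S).adjugate * (1 + S)) * M := by
  rw [nSM, Matrix.map_mul, Matrix.map_mul, map_CC, map_adj', map_1sub, map_1add, map_gS, hS]

theorem eval_nS (x : Fin e ⊕ SI N → ℂ) {S : Matrix (Fin N) (Fin N) ℂ}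
    (hS : J⁻¹ * symM (fun p : SI N => x (Sum.inr p)) = S) (p : Fin N × Fin N')
    (R : Matrix (Fin N) (Fin N') ℂ) (hR : R = ((1 - S).adjugate * (1 + S)) * M) :
    eval x (nS e J M (Sum.inr p)) = R p.1 p.2 := by
  have h1 : eval x (nS e J M (Sum.inr p)) = ((nSM e J M).map (eval x)) p.1 p.2 := rfl
  rw [h1, map_nSM e J M x hS, hR]

end lin2

/-- **charts** -/
theorem SpF.chart {U : Set ℂ} {J : Matrix (Fin N) (Fin N) ℂ} {w : Fin e → ℂ → ℂ}
    {Y : ℂ → Matrix (Fin N) (Fin N) ℂ} (h : SpF U J w Y) (Ω : Matrix (Fin N) (Fin N') ℂ) {z₀ : ℂ}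
    (hz₀ : z₀ ∈ U) : Nonempty (Chart (ySp w Y Ω) U z₀) := by
  classical
  have hu : IsUnit J.det := isUnit_iff_ne_zero.2 h.det
  set Yi : Matrix (Fin N) (Fin N) ℂ := J⁻¹ * (Y z₀)ᵀ * J with hYi
  have i1 : Yi * Y z₀ = 1 := by
    rw [hYi, Matrix.mul_assoc, Matrix.mul_assoc, ← Matrix.mul_assoc (Y z₀)ᵀ, h.form z₀ hz₀]
    exact Matrix.nonsing_inv_mul _ hu
  have i2 : Y z₀ * Yi = 1 := mul_eq_one_comm.1 i1
  clear_value Yi
  have i3 : Yiᵀ * J * Yi = J := by
    calc Yiᵀ * J * Yi = Yiᵀ * ((Y z₀)ᵀ * J * Y z₀) * Yi := by rw [h.form z₀ hz₀]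
      _ = (Y z₀ * Yi)ᵀ * J * (Y z₀ * Yi) := by
          rw [Matrix.transpose_mul]
          simp only [Matrix.mul_assoc]
      _ = J := by rw [i2, Matrix.transpose_one, Matrix.one_mul, Matrix.mul_one]
  have hXform : ∀ z ∈ U, (Y z * Yi)ᵀ * J * (Y z * Yi) = J := by
    intro z hz
    calc (Y z * Yi)ᵀ * J * (Y z * Yi) = Yiᵀ * ((Y z)ᵀ * J * Y z) * Yi := by
          rw [Matrix.transpose_mul]
          simp only [Matrix.mul_assoc]
      _ = J := by rw [h.form z hz, i3]
  have hXan : ∀ z ∈ U, ∀ i j, AnalyticAt ℂ (fun z => (Y z * Yi) i j) z := fun z hz i j =>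
    an_mul (M' := fun _ => Yi) (fun a b => h.Yan a b z hz) (fun _ _ => analyticAt_const) i j
  have hX1an : ∀ z ∈ U, ∀ i j, AnalyticAt ℂ (fun z => (Y z * Yi + 1) i j) z := fun z hz i j => by
    simp only [Matrix.add_apply]
    exact (hXan z hz i j).add analyticAt_const
  have hdan : ∀ z ∈ U, AnalyticAt ℂ (fun z => (Y z * Yi + 1).det) z := fun z hz =>
    an_det (hX1an z hz)
  have hd0 : (Y z₀ * Yi + 1).det ≠ 0 := by
    rw [i2]
    have h3 : (1 + 1 : Matrix (Fin N) (Fin N) ℂ) = (2 : ℂ) • 1 := by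
      rw [two_smul]
    rw [h3, Matrix.det_smul, Matrix.det_one, mul_one]
    exact pow_ne_zero _ two_ne_zero
  obtain ⟨r, hr, hball⟩ : ∃ r > 0, Metric.ball z₀ r ⊆ {z | z ∈ U ∧ (Y z * Yi + 1).det ≠ 0} := by
    rw [← Metric.mem_nhds_iff]
    have h1 := (hdan z₀ hz₀).continuousAt.eventually_ne hd0
    filter_upwards [h1, h.isOpen.mem_nhds hz₀] with z h2 h3
    exact ⟨h3, h2⟩
  set W := Metric.ball z₀ r with hW
  set f : Fin e ⊕ SI N → ℂ → ℂ := fun i z => fQ e J z (fun k => w k z) (Y z * Yi) (some i) with hf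
  have hfa : ∀ i, AnalyticOnNhd ℂ (f i) W := by
    rintro (k | p) z hz
    · exact h.wan k z (hball hz).1
    · change AnalyticAt ℂ (fun z => (J * ((Y z * Yi - 1) * (Y z * Yi + 1)⁻¹)) p.1.1 p.1.2) z
      have h1 : ∀ i j, AnalyticAt ℂ (fun z => ((Y z * Yi + 1)⁻¹) i j) z := by
        intro i j
        simp only [Matrix.inv_def, Ring.inverse_eq_inv', Matrix.smul_apply, smul_eq_mul]
        exact ((hdan z (hball hz).1).inv (hball hz).2).mul (an_adj (hX1an z (hball hz).1) i j)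
      have h2 : ∀ i j, AnalyticAt ℂ (fun z => (Y z * Yi - 1) i j) z := fun i j => by
        simp only [Matrix.sub_apply]
        exact (hXan z (hball hz).1 i j).sub analyticAt_const
      exact an_mul (M := fun _ => J) (fun _ _ => analyticAt_const) (fun a b => an_mul h2 h1 a b) _ _
  have hsymJ : ∀ z ∈ W, (J * ((Y z * Yi - 1) * (Y z * Yi + 1)⁻¹))ᵀ =
      J * ((Y z * Yi - 1) * (Y z * Yi + 1)⁻¹) := fun z hz =>
    sym_JS h.skew (sym_of_isom (hXform z (hball hz).1) (hball hz).2)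
  have hfS : ∀ z ∈ W, J⁻¹ * symM (fun p : SI N => f (Sum.inr p) z) =
      (Y z * Yi - 1) * (Y z * Yi + 1)⁻¹ := by
    intro z hz
    have h1 : symM (fun p : SI N => f (Sum.inr p) z) = J * ((Y z * Yi - 1) * (Y z * Yi + 1)⁻¹) :=
      symM_eq (hsymJ z hz)
    rw [h1, ← Matrix.mul_assoc, Matrix.nonsing_inv_mul _ hu, Matrix.one_mul]
  have hdSne : ∀ z ∈ W, (1 - (Y z * Yi - 1) * (Y z * Yi + 1)⁻¹).det ≠ 0 := fun z hz =>
    (cay1 (hball hz).2).2
  refine ⟨{ W := W, κ := Fin e ⊕ SI N, fin := inferInstance, f := f, num := nS e J (Y z₀ * Ω),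
            den := dS e J, isOpen := Metric.isOpen_ball,
            conn := (convex_ball z₀ r).isPreconnected, mem := Metric.mem_ball_self hr,
            sub := fun z hz => (hball hz).1, an := hfa, ind := ?_, ne := ?_, eq := ?_ }⟩
  · -- independence
    intro t ht Q hQ
    set d := Q.totalDegree with hd
    have hQd : ∀ v, Q.degreeOf v ≤ d := fun v => degreeOf_le_totalDegree _ _
    set Qt := Pt (nQ e J Yi) (dQ e Yi) d Q with hQt
    have e1 : ∀ z, (Y z * Yi + 1).det ≠ 0 → eval (ptm z (fun k => w k z) (Y z)) Qt =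
        (∏ v, eval (ptm z (fun k => w k z) (Y z)) (dQ e Yi v) ^ d) *
          eval (fun o : Option (Fin e ⊕ SI N) => o.elim z (fun i => f i z)) Q := by
      intro z hz
      have h1 := eval_Pt (num := nQ e J Yi) (den := dQ e Yi) (d := d) hQd
        (x := ptm z (fun k => w k z) (Y z)) (y := fQ e J z (fun k => w k z) (Y z * Yi))
        (fun v => eval_nQ e J Yi z (fun k => w k z) (Y z) hz v)
      rw [h1]
      have h2 : fQ e J z (fun k => w k z) (Y z * Yi) = fun o => o.elim z (fun i => f i z) := by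
        funext o
        cases o <;> rfl
      rw [h2]
    have hQtU : ∀ z ∈ U, eval (ptm z (fun k => w k z) (Y z)) Qt = 0 := by
      have hptan : ∀ z ∈ U, ∀ o, AnalyticAt ℂ (fun z => ptm z (fun k => w k z) (Y z) o) z := by
        rintro z hz (_ | k | p)
        · exact analyticAt_id
        · exact h.wan k z hz
        · exact h.Yan p.1 p.2 z hz
      have h2 : (fun z => eval (ptm z (fun k => w k z) (Y z)) Qt) =ᶠ[𝓝 t] 0 := by
        filter_upwards [hQ, Metric.isOpen_ball.mem_nhds ht] with z hz hzW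
        rw [e1 z (hball hzW).2, hz, mul_zero]
        rfl
      exact AnalyticOnNhd.eqOn_zero_of_preconnected_of_eventuallyEq_zero
        (f := fun z => eval (ptm z (fun k => w k z) (Y z)) Qt)
        (fun z hz => an_eval (y := fun o z => ptm z (fun k => w k z) (Y z) o) (fun o => hptan z hz o) Qt)
        h.conn (hball ht).1 h2
    have hall := h.ind Qt hQtU
    -- evaluation at all points
    have hprod : Q * (1 - gS J (Option (Fin e ⊕ SI N)) (fun p => some (Sum.inr p))).det = 0 := by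
      apply MvPolynomial.funext
      intro x
      rw [map_mul, map_zero, eval_det', map_1sub, map_gS]
      set S := J⁻¹ * symM (fun p : SI N => x (some (Sum.inr p))) with hS
      by_cases hdet : (1 - S).det = 0
      · rw [hdet, mul_zero]
      have hSs : Sᵀ * J = -(J * S) := S_of_sym h.skew h.det (symM_transpose _)
      set g : Matrix (Fin N) (Fin N) ℂ := (1 - S)⁻¹ * (1 + S) * Y z₀ with hg
      have hgi : g * Yi = (1 - S)⁻¹ * (1 + S) := by
        rw [hg, Matrix.mul_assoc, i2, Matrix.mul_one]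
      have hgf : gᵀ * J * g = J := by
        calc gᵀ * J * g = (Y z₀)ᵀ * (((1 - S)⁻¹ * (1 + S))ᵀ * J * ((1 - S)⁻¹ * (1 + S))) * Y z₀ := by
              rw [hg, Matrix.transpose_mul]
              simp only [Matrix.mul_assoc]
          _ = J := by rw [isom_of_sym hSs hdet, h.form z₀ hz₀]
      have h3 := hall (x none) (fun k => x (some (Sum.inl k))) g hgf
      have h4 : (g * Yi + 1).det ≠ 0 := by
        rw [hgi]
        exact (cay2 hdet).1
      have h5 := eval_Pt (num := nQ e J Yi) (den := dQ e Yi) (d := d) hQd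
        (x := ptm (x none) (fun k => x (some (Sum.inl k))) g)
        (y := fQ e J (x none) (fun k => x (some (Sum.inl k))) (g * Yi))
        (fun v => eval_nQ e J Yi _ _ g h4 v)
      rw [← hQt, h3] at h5
      have h6 : (fQ e J (x none) (fun k => x (some (Sum.inl k))) (g * Yi)) = x := by
        funext o
        rcases o with _ | k | p
        · rfl
        · rfl
        · change (J * ((g * Yi - 1) * (g * Yi + 1)⁻¹)) p.1.1 p.1.2 = x (some (Sum.inr p))
          rw [hgi, (cay2 hdet).2, hS, ← Matrix.mul_assoc, Matrix.mul_nonsing_inv _ hu, Matrix.one_mul]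
          simp only [symM, Matrix.of_apply]
          rw [dif_pos p.2]
      rw [h6] at h5
      have h7 : (∏ v, eval (ptm (x none) (fun k => x (some (Sum.inl k))) g) (dQ e Yi v) ^ d) ≠ 0 :=
        Finset.prod_ne_zero_iff.2 fun v _ => pow_ne_zero _ (eval_dQ e Yi _ _ g h4 v)
      rw [(mul_eq_zero.1 h5.symm).resolve_left h7, zero_mul]
    rcases mul_eq_zero.1 hprod with h1 | h1
    · exact h1
    · exfalso
      have h2 := congrArg (eval (fun _ => (0 : ℂ))) h1
      rw [map_zero, eval_det', map_1sub, map_gS] at h2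
      have h3 : symM (fun _ : SI N => (0 : ℂ)) = 0 := by
        ext i j
        simp [symM]
      rw [h3, Matrix.mul_zero, sub_zero, Matrix.det_one] at h2
      exact one_ne_zero h2
  · -- the denominators
    rintro (k | p) z hz
    · simp [dS]
    · change eval (fun i => f i z) (1 - gS J (Fin e ⊕ SI N) Sum.inr).det ≠ 0
      rw [eval_det', map_1sub, map_gS, hfS z hz]
      exact hdSne z hz
  · -- the numerators
    rintro (k | p) z hz
    · simp [nS, dS, ySp, hf, fQ]
    · have hden : eval (fun i => f i z) (dS e J (N' := N') (Sum.inr p)) =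
          (1 - (Y z * Yi - 1) * (Y z * Yi + 1)⁻¹).det := by
        change eval (fun i => f i z) (1 - gS J (Fin e ⊕ SI N) Sum.inr).det = _
        rw [eval_det', map_1sub, map_gS, hfS z hz]
      rw [eval_nS e J (Y z₀ * Ω) (fun i => f i z) (hfS z hz) p
        ((1 - (Y z * Yi - 1) * (Y z * Yi + 1)⁻¹).det • (Y z * Ω)) ?_, hden, Matrix.smul_apply,
        smul_eq_mul]
      · rfl
      · rw [← (cay1 (hball hz).2).1, ← Matrix.mul_assoc ((1 - (Y z * Yi - 1) * (Y z * Yi + 1)⁻¹).adjugate),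
          Matrix.adjugate_mul, Matrix.smul_mul, Matrix.one_mul, Matrix.smul_mul, Matrix.mul_assoc,
          ← Matrix.mul_assoc Yi, i1, Matrix.one_mul]

end Pool.Agent.Y776.Cv
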