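import Mathlib
import Pool.Agent.Y776.Cv.RatA
import Pool.Agent.Y776.Cv.SpCh

/-!
# Tuples of symplectic period matrices at the points of number fields
-/

set_option autoImplicit false

open Filter Topology Set MvPolynomial Matrix NumberField

noncomputable section

namespace Pool.Agent.Y776.Cv

/-- from one variable to several variables -/
theorem multi_zar {n : ℕ} {κ : Fin n → Type} {Cs Os : ∀ i, Set (κ i → ℂ)}
    (hone : ∀ i (Q : MvPolynomial (κ i) ℂ), (∀ x ∈ Cs i, eval x Q = 0) → ∀ x ∈ Os i, eval x Q = 0)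
    (P : MvPolynomial (Σ i, κ i) ℂ)
    (h : ∀ x : ∀ i, κ i → ℂ, (∀ i, x i ∈ Cs i) → eval (fun v : Σ i, κ i => x v.1 v.2) P = 0)
    (x : ∀ i, κ i → ℂ) (hx : ∀ i, x i ∈ Os i) : eval (fun v : Σ i, κ i => x v.1 v.2) P = 0 := by
  classical
  have key : ∀ S : Finset (Fin n), ∀ x : ∀ i, κ i → ℂ, (∀ i ∈ S, x i ∈ Os i) → (∀ i ∉ S, x i ∈ Cs i) →
      eval (fun v : Σ i, κ i => x v.1 v.2) P = 0 := by
    intro S
    induction S using Finset.induction_on with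
    | empty => exact fun x _ hx => h x fun j => hx j (Finset.notMem_empty j)
    | insert i₀ S hi₀ ih =>
      intro x hxO hxC
      set Q : MvPolynomial (κ i₀) ℂ := aeval (fun v : Σ i, κ i =>
        if h : v.1 = i₀ then (X (h ▸ v.2) : MvPolynomial (κ i₀) ℂ) else C (x v.1 v.2)) P with hQ
      have hQe : ∀ x' : κ i₀ → ℂ, eval x' Q =
          eval (fun v : Σ i, κ i => (Function.update x i₀ x') v.1 v.2) P := by
        intro x'
        rw [hQ, ← MvPolynomial.coe_aeval_eq_eval, ← MvPolynomial.coe_aeval_eq_eval]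
        change aeval x' (aeval _ P) = aeval _ P
        rw [← AlgHom.comp_apply, MvPolynomial.comp_aeval]
        congr 2
        funext v
        obtain ⟨i, a⟩ := v
        by_cases hi : i = i₀
        · subst hi
          simp
        · have h3 : Function.update x i₀ x' i = x i := Function.update_of_ne hi _ _
          simp [hi, h3]
      have h1 : ∀ x' ∈ Cs i₀, eval x' Q = 0 := by
        intro x' hx'
        rw [hQe]
        refine ih _ (fun i hi => ?_) (fun i hi => ?_)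
        · have hne : i ≠ i₀ := fun h => hi₀ (h ▸ hi)
          rw [Function.update_of_ne hne]
          exact hxO i (Finset.mem_insert_of_mem hi)
        · by_cases hii : i = i₀
          · subst hii
            rw [Function.update_self]
            exact hx'
          · rw [Function.update_of_ne hii]
            exact hxC i (by rw [Finset.mem_insert, not_or]; exact ⟨hii, hi⟩)
      have h2 := hone i₀ Q h1 (x i₀) (hxO i₀ (Finset.mem_insert_self _ _))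
      rw [hQe, Function.update_eq_self] at h2
      exact h2
  exact key Finset.univ x (fun i _ => hx i) fun i hi => absurd (Finset.mem_univ i) hi

section omega

variable {k : ℕ} {e N N' : Fin k → ℕ}

/-- the variables -/
abbrev Vt {k : ℕ} (e N N' : Fin k → ℕ) : Type := Σ i : Fin k, (Fin (e i) ⊕ (Fin (N i) × Fin (N' i)))

/-- the point -/
def ptt (l : ∀ i, Fin (e i) → ℂ) (M : ∀ i, Matrix (Fin (N i)) (Fin (N' i)) ℂ) : Vt e N N' → ℂ :=
  fun v => Sum.elim (l v.1) (fun p => M v.1 p.1 p.2) v.2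

/-- the substitution -/
def nO (Ω : ∀ i, Matrix (Fin (N i)) (Fin (N' i)) ℂ) : Vt e N N' → MvPolynomial (Vt e N N) ℂ
  | ⟨i, Sum.inl a⟩ => X ⟨i, Sum.inl a⟩
  | ⟨i, Sum.inr p⟩ => ∑ c, C (Ω i c p.2) * X ⟨i, Sum.inr (p.1, c)⟩

theorem eval_nO (Ω : ∀ i, Matrix (Fin (N i)) (Fin (N' i)) ℂ) (l : ∀ i, Fin (e i) → ℂ)
    (M : ∀ i, Matrix (Fin (N i)) (Fin (N i)) ℂ) (v : Vt e N N') :
    eval (ptt l M) (nO Ω v) = ptt l (fun i => M i * Ω i) v := by
  obtain ⟨i, a | p⟩ := v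
  · simp [nO, ptt]
  · simp only [nO, ptt, map_sum, map_mul, eval_C, eval_X, Sum.elim_inr, Matrix.mul_apply]
    exact Finset.sum_congr rfl fun c _ => mul_comm _ _

theorem deg_nO (Ω : ∀ i, Matrix (Fin (N i)) (Fin (N' i)) ℂ) (v : Vt e N N') :
    (nO (e := e) Ω v).totalDegree ≤ 1 := by
  obtain ⟨i, a | p⟩ := v
  · simp only [nO]
    rw [totalDegree_X]
  · simp only [nO]
    refine (totalDegree_finsetSum _ _).trans (Finset.sup_le fun c _ => ?_)
    refine (totalDegree_mul _ _).trans ?_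
    rw [totalDegree_C, totalDegree_X]

theorem dg_nO (Ω : ∀ i, Matrix (Fin (N i)) (Fin (N' i)) ℂ) (d : ℕ) :
    dg (nO (e := e) Ω) (fun _ => 1) d ≤
      Fintype.card (Vt e N N' → Fin (d + 1)) * (Fintype.card (Vt e N N') * d) := by
  rw [dg]
  refine (Finset.sum_le_sum (g := fun _ => Fintype.card (Vt e N N') * d) fun s _ => ?_).trans ?_
  · rw [Rs]
    refine (totalDegree_finsetProd _ _).trans ?_
    refine (Finset.sum_le_sum (g := fun _ => d) fun v _ => ?_).trans ?_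
    · rw [one_pow, mul_one]
      refine (totalDegree_pow _ _).trans ?_
      have h1 := deg_nO (e := e) Ω v
      have h2 := (s v).2
      calc (s v : ℕ) * (nO Ω v).totalDegree ≤ d * 1 := Nat.mul_le_mul (by omega) h1
        _ = d := mul_one d
    · rw [Finset.sum_const, Finset.card_univ, smul_eq_mul]
  · rw [Finset.sum_const, Finset.card_univ, smul_eq_mul]

end omega

/-- **no new approximate relations between symplectic periods at the points of number fields** -/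
theorem nf_sp {η : Type} [Fintype η] [DecidableEq η] (m k d : ℕ) {e N N' : Fin k → ℕ}
    {U : Fin k → Set ℂ} {J : ∀ i, Matrix (Fin (N i)) (Fin (N i)) ℂ} {w : ∀ i, Fin (e i) → ℂ → ℂ}
    {Y : ∀ i, ℂ → Matrix (Fin (N i)) (Fin (N i)) ℂ} (h : ∀ i, SpF (U i) (J i) (w i) (Y i))
    {K : Fin k → Set ℂ} (hK : ∀ j, IsCompact (K j)) (hKU : ∀ j, K j ⊆ U j) {S : Set ℂ}
    (hS : ∀ j, K j ⊆ S) (A ε : ℝ) (hε : 0 < ε) :
    ∃ C T₀ : ℝ, 0 ≤ C ∧ 2 ≤ T₀ ∧ ∀ R : ℝ, ∃ B : ℝ, ∀ (F : Type) [Field F] [NumberField F],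
      Module.finrank ℚ F ≤ m → ∀ (io : F →+* ℂ) (ξ : η → ℂ)
      (Ω : ∀ i, Matrix (Fin (N i)) (Fin (N' i)) ℂ) (T : ℝ), T₀ ≤ T →
      ∀ E : Set (Fin k → F), (∀ t ∈ E, (∀ j, Y120.HtLe F T (t j) ∧ io (t j) ∈ K j) ∧
        ∃ P : MvPolynomial (Vt e N N') ℂ, (∀ x, P.degreeOf x ≤ d) ∧
        (∀ s, ∃ c : η → 𝓞 F, (∀ i (φ : F →+* ℂ), ‖φ (c i : F)‖ ≤ T ^ A) ∧
          P.coeff s = ∑ i, ξ i * io (c i : F)) ∧
        ∃ (l : ∀ i, Fin (e i) → ℂ) (g : ∀ i, Matrix (Fin (N i)) (Fin (N i)) ℂ),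
          (∀ i, (g i)ᵀ * J i * g i = J i) ∧ (∀ i a, ‖l i a‖ ≤ R) ∧ (∀ i a b, ‖g i a b‖ ≤ R) ∧
          eval (ptt l fun i => g i * Ω i) P ≠ 0 ∧
          ‖eval (ptt (fun i a => w i a (io (t i))) fun i => Y i (io (t i)) * Ω i) P‖ ≤
            T ^ (-B) * ‖eval (ptt l fun i => g i * Ω i) P‖) →
      E.Finite ∧ (E.ncard : ℝ) ≤
        C * T ^ ε * (({x : F | Y120.HtLe F T x ∧ io x ∈ S}.ncard : ℝ)) ^ (k - 1) := by
  classical
  set D : ℕ := Fintype.card (Vt e N N' → Fin (d + 1)) * (Fintype.card (Vt e N N') * d) with hD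
  obtain ⟨C, T₀, hC, hT₀, H⟩ := nf_ratA (η := (Vt e N N' → Fin (d + 1)) × ((Vt e N N → Fin (D + 1)) × η))
    m k D (V := fun i => Fin (e i) ⊕ (Fin (N i) × Fin (N i))) (U := U) (fun j => (h j).conn)
    (y := fun j => ySp (w j) (Y j) 1)
    (fun j v => by
      rcases v with a | p
      · exact (h j).wan a
      · change AnalyticOnNhd ℂ (fun z => (Y j z * (1 : Matrix (Fin (N j)) (Fin (N j)) ℂ)) p.1 p.2) (U j)
        simp only [Matrix.mul_one]
        exact (h j).Yan p.1 p.2)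
    (fun j z hz => (h j).chart 1 hz) hK hKU hS A ε hε
  refine ⟨C, T₀, hC, hT₀, fun R => ?_⟩
  obtain ⟨B, HB⟩ := H {x | ∃ (l : ∀ i, Fin (e i) → ℂ) (g : ∀ i, Matrix (Fin (N i)) (Fin (N i)) ℂ),
      (∀ i, (g i)ᵀ * J i * g i = J i) ∧ (∀ i a, ‖l i a‖ ≤ R) ∧ (∀ i a b, ‖g i a b‖ ≤ R) ∧
      x = ptt l g} R (by
    rintro x ⟨l, g, -, hl, hg, rfl⟩ ⟨i, a | p⟩
    · exact hl i a
    · exact hg i p.1 p.2) (by
    rintro P hP x ⟨l, g, hg, -, -, rfl⟩
    refine multi_zar (Cs := fun i => {x | ∃ z ∈ U i, x = fun v => ySp (w i) (Y i) 1 v z})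
      (Os := fun i => {x | ∃ (l : Fin (e i) → ℂ) (g : Matrix (Fin (N i)) (Fin (N i)) ℂ),
        gᵀ * J i * g = J i ∧ x = Sum.elim l (fun p => g p.1 p.2)}) ?_ P ?_
        (fun i => Sum.elim (l i) (fun p => g i p.1 p.2)) (fun i => ⟨l i, g i, hg i, rfl⟩)
    · rintro i Q hQ x ⟨l, g, hg, rfl⟩
      have h1 := (h i).ind (rename some Q) (fun z hz => ?_) 0 l g hg
      · rw [eval_rename] at h1
        exact h1
      · rw [eval_rename]
        have h2 := hQ _ ⟨z, hz, rfl⟩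
        rw [← h2]
        congr 2
        funext v
        rcases v with a | p
        · rfl
        · simp [ptm, ySp]
    · intro x hx
      choose z hz hxz using hx
      have h1 := hP z hz
      rw [← h1]
      congr 2
      funext v
      rw [hxz])
  refine ⟨B, fun F _ _ hm io ξ Ω T hT E hE => ?_⟩
  have hT0 : 0 ≤ T := by linarith
  refine HB F hm io (fun i => (Rs (nO Ω) (fun _ => 1) d i.1).coeff (exf i.2.1) * ξ i.2.2) T hT E
    fun t ht => ?_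
  obtain ⟨h1, P, hPd, hPc, l, g, hg, hlR, hgR, hne, hle⟩ := hE t ht
  have hsub : ∀ (l : ∀ i, Fin (e i) → ℂ) (M : ∀ i, Matrix (Fin (N i)) (Fin (N i)) ℂ),
      eval (ptt l M) (Pt (nO Ω) (fun _ => 1) d P) = eval (ptt l fun i => M i * Ω i) P := by
    intro l M
    rw [eval_Pt (y := ptt l fun i => M i * Ω i) hPd fun v => by rw [eval_nO, map_one, one_mul]]
    simp
  refine ⟨h1, Pt (nO Ω) (fun _ => 1) d P, fun x => (degreeOf_Pt P x).trans (dg_nO Ω d),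
    fun s => coeff_Pt io ξ (Real.rpow_nonneg hT0 A) hPc (dg_nO Ω d) s, ptt l g,
    ⟨l, g, hg, hlR, hgR, rfl⟩, ?_, ?_⟩
  · rw [hsub]
    exact hne
  · rw [hsub]
    have h3 : (fun x : Σ j, (Fin (e j) ⊕ (Fin (N j) × Fin (N j))) =>
        ySp (w x.1) (Y x.1) 1 x.2 (io (t x.1))) = ptt (fun i a => w i a (io (t i))) fun i => Y i (io (t i)) := by
      funext x
      obtain ⟨j, a | p⟩ := x
      · rfl
      · simp [ySp, ptt]
    rw [h3, hsub]
    exact hle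

/-- **no new relations between symplectic periods at the points of number fields** -/
theorem nf_sp' {η : Type} [Fintype η] [DecidableEq η] (m k d : ℕ) {e N N' : Fin k → ℕ}
    {U : Fin k → Set ℂ} {J : ∀ i, Matrix (Fin (N i)) (Fin (N i)) ℂ} {w : ∀ i, Fin (e i) → ℂ → ℂ}
    {Y : ∀ i, ℂ → Matrix (Fin (N i)) (Fin (N i)) ℂ} (h : ∀ i, SpF (U i) (J i) (w i) (Y i))
    {K : Fin k → Set ℂ} (hK : ∀ j, IsCompact (K j)) (hKU : ∀ j, K j ⊆ U j) {S : Set ℂ}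
    (hS : ∀ j, K j ⊆ S) (A ε : ℝ) (hε : 0 < ε) :
    ∃ C T₀ : ℝ, 0 ≤ C ∧ 2 ≤ T₀ ∧ (∀ R : ℝ, ∃ B : ℝ, ∀ (F : Type) [Field F] [NumberField F],
      Module.finrank ℚ F ≤ m → ∀ (io : F →+* ℂ) (ξ : η → ℂ)
      (Ω : ∀ i, Matrix (Fin (N i)) (Fin (N' i)) ℂ) (T : ℝ), T₀ ≤ T →
      ∀ E : Set (Fin k → F), (∀ t ∈ E, (∀ j, Y120.HtLe F T (t j) ∧ io (t j) ∈ K j) ∧
        ∃ P : MvPolynomial (Vt e N N') ℂ, (∀ x, P.degreeOf x ≤ d) ∧
        (∀ s, ∃ c : η → 𝓞 F, (∀ i (φ : F →+* ℂ), ‖φ (c i : F)‖ ≤ T ^ A) ∧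
          P.coeff s = ∑ i, ξ i * io (c i : F)) ∧
        ∃ (l : ∀ i, Fin (e i) → ℂ) (g : ∀ i, Matrix (Fin (N i)) (Fin (N i)) ℂ),
          (∀ i, (g i)ᵀ * J i * g i = J i) ∧ (∀ i a, ‖l i a‖ ≤ R) ∧ (∀ i a b, ‖g i a b‖ ≤ R) ∧
          eval (ptt l fun i => g i * Ω i) P ≠ 0 ∧
          ‖eval (ptt (fun i a => w i a (io (t i))) fun i => Y i (io (t i)) * Ω i) P‖ ≤
            T ^ (-B) * ‖eval (ptt l fun i => g i * Ω i) P‖) →
      E.Finite ∧ (E.ncard : ℝ) ≤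
        C * T ^ ε * (({x : F | Y120.HtLe F T x ∧ io x ∈ S}.ncard : ℝ)) ^ (k - 1)) ∧
    ∀ (F : Type) [Field F] [NumberField F],
      Module.finrank ℚ F ≤ m → ∀ (io : F →+* ℂ) (ξ : η → ℂ)
      (Ω : ∀ i, Matrix (Fin (N i)) (Fin (N' i)) ℂ) (T : ℝ), T₀ ≤ T →
      ∀ E : Set (Fin k → F), (∀ t ∈ E, (∀ j, Y120.HtLe F T (t j) ∧ io (t j) ∈ K j) ∧
        ∃ P : MvPolynomial (Vt e N N') ℂ, (∀ x, P.degreeOf x ≤ d) ∧
        (∀ s, ∃ c : η → 𝓞 F, (∀ i (φ : F →+* ℂ), ‖φ (c i : F)‖ ≤ T ^ A) ∧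
          P.coeff s = ∑ i, ξ i * io (c i : F)) ∧
        eval (ptt (fun i a => w i a (io (t i))) fun i => Y i (io (t i)) * Ω i) P = 0 ∧
        ∃ (l : ∀ i, Fin (e i) → ℂ) (g : ∀ i, Matrix (Fin (N i)) (Fin (N i)) ℂ),
          (∀ i, (g i)ᵀ * J i * g i = J i) ∧ eval (ptt l fun i => g i * Ω i) P ≠ 0) →
      E.Finite ∧ (E.ncard : ℝ) ≤
        C * T ^ ε * (({x : F | Y120.HtLe F T x ∧ io x ∈ S}.ncard : ℝ)) ^ (k - 1) := by
  classical
  obtain ⟨C, T₀, hC, hT₀, H⟩ := nf_sp (η := η) (N' := N') m k d h hK hKU hS A ε hε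
  refine ⟨C, T₀, hC, hT₀, H, fun F _ _ hm io ξ Ω T hT E hE => ?_⟩
  have hfin : E.Finite := (Set.Finite.pi' fun _ => Y120.HtLe_fin F T).subset
    fun t ht j => ((hE t ht).1 j).1
  choose! hE1 P hPd hPc hP0 l g hg hne using hE
  -- a common bound
  have hb : ∀ t : Fin k → F, ∃ r : ℝ, (∀ i a, ‖l t i a‖ ≤ r) ∧ ∀ i a b, ‖g t i a b‖ ≤ r := by
    intro t
    refine ⟨(∑ i, ∑ a, ‖l t i a‖) + ∑ i, ∑ a, ∑ b, ‖g t i a b‖, fun i a => ?_, fun i a b => ?_⟩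
    · have h1 : ‖l t i a‖ ≤ ∑ a, ‖l t i a‖ :=
        Finset.single_le_sum (f := fun a => ‖l t i a‖) (fun _ _ => norm_nonneg _) (Finset.mem_univ a)
      have h2 : ∑ a, ‖l t i a‖ ≤ ∑ i, ∑ a, ‖l t i a‖ :=
        Finset.single_le_sum (f := fun i => ∑ a, ‖l t i a‖)
          (fun _ _ => Finset.sum_nonneg fun _ _ => norm_nonneg _) (Finset.mem_univ i)
      have h3 : 0 ≤ ∑ i, ∑ a, ∑ b, ‖g t i a b‖ :=
        Finset.sum_nonneg fun _ _ => Finset.sum_nonneg fun _ _ => Finset.sum_nonneg fun _ _ => norm_nonneg _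
      linarith
    · have h1 : ‖g t i a b‖ ≤ ∑ b, ‖g t i a b‖ :=
        Finset.single_le_sum (f := fun b => ‖g t i a b‖) (fun _ _ => norm_nonneg _) (Finset.mem_univ b)
      have h2 : ∑ b, ‖g t i a b‖ ≤ ∑ a, ∑ b, ‖g t i a b‖ :=
        Finset.single_le_sum (f := fun a => ∑ b, ‖g t i a b‖)
          (fun _ _ => Finset.sum_nonneg fun _ _ => norm_nonneg _) (Finset.mem_univ a)
      have h3 : ∑ a, ∑ b, ‖g t i a b‖ ≤ ∑ i, ∑ a, ∑ b, ‖g t i a b‖ :=
        Finset.single_le_sum (f := fun i => ∑ a, ∑ b, ‖g t i a b‖)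
          (fun _ _ => Finset.sum_nonneg fun _ _ => Finset.sum_nonneg fun _ _ => norm_nonneg _)
          (Finset.mem_univ i)
      have h4 : 0 ≤ ∑ i, ∑ a, ‖l t i a‖ :=
        Finset.sum_nonneg fun _ _ => Finset.sum_nonneg fun _ _ => norm_nonneg _
      linarith
  choose r hr1 hr2 using hb
  obtain ⟨R, hR⟩ : ∃ R : ℝ, ∀ t ∈ E, r t ≤ R := by
    obtain ⟨R, hR⟩ := (hfin.image r).bddAbove
    exact ⟨R, fun t ht => hR (Set.mem_image_of_mem r ht)⟩
  obtain ⟨B, HB⟩ := H R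
  refine HB F hm io ξ Ω T hT E fun t ht => ⟨hE1 t ht, P t, hPd t ht, hPc t ht, l t, g t, hg t ht,
    fun i a => (hr1 t i a).trans (hR t ht), fun i a b => (hr2 t i a b).trans (hR t ht), hne t ht, ?_⟩
  rw [hP0 t ht, norm_zero]
  exact mul_nonneg (Real.rpow_nonneg (by linarith) _) (norm_nonneg _)

end Pool.Agent.Y776.Cv
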