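import Mathlib
import Pool.Agent.Y776.Cv.SpT
import Pool.Agent.Y119.HY.Fin2

/-!
# The Frobenius matrices of hypergeometric equations of Calabi–Yau type, and their analytic continuations
-/

set_option autoImplicit false

open Filter Topology Set MvPolynomial Matrix

noncomputable section

namespace Pool.Agent.Y776.Cv

open Pool.Agent.Y119.HY

/-- continuation preserves the properties -/
theorem SpF.step {e N : ℕ} {U U' : Set ℂ} {J : Matrix (Fin N) (Fin N) ℂ} {w w' : Fin e → ℂ → ℂ}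
    {Y Y' : ℂ → Matrix (Fin N) (Fin N) ℂ} (h : SpF U J w Y) (hU' : IsOpen U') (hc' : IsPreconnected U')
    (hw' : ∀ k, AnalyticOnNhd ℂ (w' k) U') (hY' : ∀ i j, AnalyticOnNhd ℂ (fun z => Y' z i j) U')
    (hz : ∃ z₀ ∈ U ∩ U', ∀ᶠ z in 𝓝 z₀, (∀ k, w' k z = w k z) ∧ Y' z = Y z) : SpF U' J w' Y' := by
  obtain ⟨z₀, ⟨hzU, hzU'⟩, hev⟩ := hz
  refine ⟨hU', hc', h.skew, h.det, hw', hY', ?_, ?_⟩
  · have h1 : ∀ i j, ∀ z ∈ U', ((Y' z)ᵀ * J * Y' z) i j - J i j = 0 := by
      intro i j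
      have h2 : AnalyticOnNhd ℂ (fun z => ((Y' z)ᵀ * J * Y' z) i j - J i j) U' := by
        intro z hz
        refine AnalyticAt.sub ?_ analyticAt_const
        exact an_mul (M := fun z => (Y' z)ᵀ * J) (fun a b => an_mul (M := fun z => (Y' z)ᵀ)
          (M' := fun _ => J) (fun a b => hY' b a z hz) (fun _ _ => analyticAt_const) a b)
          (fun a b => hY' a b z hz) i j
      have h3 : (fun z => ((Y' z)ᵀ * J * Y' z) i j - J i j) =ᶠ[𝓝 z₀] 0 := by
        filter_upwards [hev, h.isOpen.mem_nhds hzU] with z hz hzU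
        rw [hz.2, h.form z hzU, sub_self]
        rfl
      exact fun z hz => AnalyticOnNhd.eqOn_zero_of_preconnected_of_eventuallyEq_zero h2 hc' hzU' h3 hz
    intro z hz
    ext i j
    exact sub_eq_zero.1 (h1 i j z hz)
  · intro P hP
    refine h.ind P fun z hz => ?_
    have h2 : AnalyticOnNhd ℂ (fun z => eval (ptm z (fun k => w k z) (Y z)) P) U := by
      intro z hz
      refine an_eval (y := fun o z => ptm z (fun k => w k z) (Y z) o) (fun o => ?_) P
      rcases o with _ | k | p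
      · exact analyticAt_id
      · exact h.wan k z hz
      · exact h.Yan p.1 p.2 z hz
    have h3 : (fun z => eval (ptm z (fun k => w k z) (Y z)) P) =ᶠ[𝓝 z₀] 0 := by
      filter_upwards [hev, hU'.mem_nhds hzU'] with z hz hzU'
      have h4 := hP z hzU'
      rw [hz.2] at h4
      have h5 : (fun k => w' k z) = fun k => w k z := funext hz.1
      rw [h5] at h4
      exact h4
    exact AnalyticOnNhd.eqOn_zero_of_preconnected_of_eventuallyEq_zero h2 h.conn hzU h3 hz

/-- the slit disc -/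
def SD : Set ℂ := Metric.ball 0 1 ∩ Complex.slitPlane

theorem SD_open : IsOpen SD := Metric.isOpen_ball.inter Complex.isOpen_slitPlane

theorem Lens_SD : Lens ⊆ SD := fun z hz => ⟨by
  rw [Metric.mem_ball, dist_zero_right]
  exact (mem_Lens.1 hz).1, slit_Lens hz⟩

theorem SD_conn : IsPreconnected SD := by
  have h1 : StarConvex ℝ ((1 / 2 : ℝ) : ℂ) (Metric.ball (0 : ℂ) 1) := by
    refine (convex_ball (0 : ℂ) 1).starConvex ?_
    rw [Metric.mem_ball, dist_zero_right, Complex.norm_real, Real.norm_of_nonneg (by norm_num)]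
    norm_num
  have h2 : StarConvex ℝ ((1 / 2 : ℝ) : ℂ) Complex.slitPlane :=
    Complex.starConvex_ofReal_slitPlane (by norm_num)
  exact ((h1.inter h2).isPathConnected
    (Lens_SD (real_mem_Lens (by norm_num) (by norm_num)))).isConnected.isPreconnected

variable {n : ℕ} {Q : Polynomial ℚ}

/-- the correspondence of the variables -/
def rho (n : ℕ) : Option (Vm 1 n n) → Vr n
  | none => none
  | some (Sum.inl _) => some none
  | some (Sum.inr p) => some (some p)

theorem eval_rho (P : MvPolynomial (Option (Vm 1 n n)) ℂ) (z l : ℂ) (X : Matrix (Fin n) (Fin n) ℂ) :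
    eval (ptm z (fun _ : Fin 1 => l) X) P = ev (rename (rho n) P) z l X := by
  rw [ev, eval_rename]
  congr 2
  funext o
  rcases o with _ | a | p <;> rfl

theorem Y_form_Lens (hQ : QD n Q) {z : ℂ} (hz : z ∈ Lens) :
    (Yf (cm (Am n)) (Hc n Q) z)ᵀ * cm (Jm n Q) * Yf (cm (Am n)) (Hc n Q) z = cm (Jm n Q) := by
  refine self_pair Ac_nil Jc_rel ?_ (sol_c hQ) hz
  rw [← cm_transpose, ← cm_mul, ← cm_mul, ← cm_add, Pool.Agent.Y119.HZ.Bm_rel hQ, cm_zero]

theorem Y_an (hQ : QD n Q) (i j : Fin n) :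
    AnalyticOnNhd ℂ (fun z => Yf (cm (Am n)) (Hc n Q) z i j) SD := by
  intro z hz
  have hlog : AnalyticAt ℂ Complex.log z := analyticAt_clog hz.2
  refine an_mul (M := fun z => Hf (Hc n Q) z) (M' := fun z => E (cm (Am n)) (Complex.log z))
    (fun a b => Hf_an (sol_c hQ) Ac_nil a b z hz.1) (fun a b => ?_) i j
  simp only [E, Matrix.sum_apply, Matrix.smul_apply, smul_eq_mul]
  refine Finset.analyticAt_fun_sum _ fun l _ => ?_
  exact ((hlog.pow l).div_const).mul analyticAt_const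

/-- **the relations of the Frobenius matrix** -/
theorem hyp_ind (hQ : QD n Q) (P : MvPolynomial (Vr n) ℂ)
    (hP : ∀ z ∈ SD, ev P z (Complex.log z) (Yf (cm (Am n)) (Hc n Q) z) = 0) (z l : ℂ)
    (g : Matrix (Fin n) (Fin n) ℂ) (hg : gᵀ * cm (Jm n Q) * g = cm (Jm n Q)) : ev P z l g = 0 := by
  set J := cm (Jm n Q) with hJ
  set Y := Yf (cm (Am n)) (Hc n Q) with hY
  set N0 := cm (Am n) with hN0
  have hR : P ∈ Rel Y := fun x hx hx1 => hP x (Lens_SD (real_mem_Lens hx hx1))
  have key : ∀ x : ℝ, 0 < x → x < 1 → ev P (x : ℂ) l g = 0 := by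
    intro x hx hx1
    set c := l - Complex.log x with hc
    have hM : (Y x * E N0 c)ᵀ * J * (Y x * E N0 c) = J :=
      Pool.Agent.Y119.HZ.isom_mul (Y_form_Lens hQ (real_mem_Lens hx hx1)) (E_isom Ac_nil Jc_rel c)
    obtain ⟨W, hW1, hW2, hW3⟩ := Pool.Agent.Y119.HZ.isom_inv (Jc_det hQ) hM
    have hκ : (W * g)ᵀ * J * (W * g) = J := Pool.Agent.Y119.HZ.isom_mul hW3 hg
    have h1 : sb 0 (W * g) P ∈ Rel Y := fun y hy hy1 => by
      rw [ev_sb, add_zero]
      exact hyp_invar hQ (W * g) hκ P hR y hy hy1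
    have h2 := mono_zero Ac_nil (sol_c hQ) c h1 hx hx1
    rw [ev_sb, add_zero] at h2
    have h3 : Complex.log x + c = l := by rw [hc]; ring
    have h4 : Y x * E N0 c * (W * g) = g := by rw [← Matrix.mul_assoc, hW1, Matrix.one_mul]
    rw [h3, ← hY, h4] at h2
    exact h2
  set q := evp P Polynomial.X (Polynomial.C l) (g.map Polynomial.C) with hq
  have hqe : ∀ s, q.eval s = ev P s l g := by
    intro s
    rw [hq, eval_evp, Polynomial.eval_X, Polynomial.eval_C, map_C_eval]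
  have h0 : q = 0 := by
    refine Polynomial.eq_zero_of_infinite_isRoot q (Set.Infinite.mono
      (s := (fun x : ℝ => (x : ℂ)) '' Set.Ioo 0 1) ?_
      ((Set.Ioo_infinite one_pos).image Complex.ofReal_injective.injOn))
    rintro _ ⟨x, hx, rfl⟩
    change q.eval _ = 0
    rw [hqe]
    exact key x hx.1 hx.2
  rw [← hqe, h0, Polynomial.eval_zero]

/-- **the Frobenius matrix** -/
theorem hyp_SpF (hQ : QD n Q) :
    SpF SD (cm (Jm n Q)) (fun _ : Fin 1 => Complex.log) (Yf (cm (Am n)) (Hc n Q)) := by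
  refine ⟨SD_open, SD_conn, Jc_skew hQ, Jc_det hQ, fun _ z hz => analyticAt_clog hz.2, Y_an hQ, ?_, ?_⟩
  · have h1 : ∀ i j, ∀ z ∈ SD, ((Yf (cm (Am n)) (Hc n Q) z)ᵀ * cm (Jm n Q) * Yf (cm (Am n)) (Hc n Q) z) i j -
        cm (Jm n Q) i j = 0 := by
      intro i j
      have h2 : AnalyticOnNhd ℂ (fun z => ((Yf (cm (Am n)) (Hc n Q) z)ᵀ * cm (Jm n Q) *
          Yf (cm (Am n)) (Hc n Q) z) i j - cm (Jm n Q) i j) SD := by
        intro z hz
        refine AnalyticAt.sub ?_ analyticAt_const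
        exact an_mul (M := fun z => (Yf (cm (Am n)) (Hc n Q) z)ᵀ * cm (Jm n Q))
          (fun a b => an_mul (M := fun z => (Yf (cm (Am n)) (Hc n Q) z)ᵀ)
          (M' := fun _ => cm (Jm n Q)) (fun a b => Y_an hQ b a z hz) (fun _ _ => analyticAt_const) a b)
          (fun a b => Y_an hQ a b z hz) i j
      have hhalf : ((1 / 2 : ℝ) : ℂ) ∈ Lens := real_mem_Lens (by norm_num) (by norm_num)
      have h3 : (fun z => ((Yf (cm (Am n)) (Hc n Q) z)ᵀ * cm (Jm n Q) * Yf (cm (Am n)) (Hc n Q) z) i j -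
          cm (Jm n Q) i j) =ᶠ[𝓝 ((1 / 2 : ℝ) : ℂ)] 0 := by
        filter_upwards [isOpen_Lens.mem_nhds hhalf] with z hz
        rw [Y_form_Lens hQ hz, sub_self]
        rfl
      exact fun z hz => AnalyticOnNhd.eqOn_zero_of_preconnected_of_eventuallyEq_zero h2 SD_conn
        (Lens_SD hhalf) h3 hz
    intro z hz
    ext i j
    exact sub_eq_zero.1 (h1 i j z hz)
  · intro P hP z l g hg
    have h1 : (fun _ : Fin 1 => l 0) = l := by
      funext a
      rw [Subsingleton.elim a 0]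
    rw [← h1, eval_rho]
    refine hyp_ind hQ _ (fun z hz => ?_) z (l 0) g hg
    rw [← eval_rho]
    exact hP z hz

end Pool.Agent.Y776.Cv
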